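import Pool.Agent.TH890.DV.C1
import Pool.Agent.W78.EG.Sq4

/-!
Distinct values (helper890), part 12: `W78.EGQ.sqf9` (squarefree values of `A m^2 + (2 β + t) m + e` with
a given number of prime factors modulo `k`) with the exponent `log 2`.
-/

set_option autoImplicit false

namespace Pool.Agent.TH890.DV

open Finset Filter
open Pool.Agent.W78.EGQ

variable {t c A β e : ℕ}

lemma nsq9 (h9 : (t, c) ∈ ([(0, 1), (0, 2), (1, 1), (1, 2), (1, 3), (1, 5),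
    (1, 11), (1, 17), (1, 41)] : List (ℕ × ℕ))) : ¬ IsSquare ((t : ℤ) ^ 2 - 4 * (c : ℤ)) := by
  have h : (t : ℤ) ^ 2 - 4 * (c : ℤ) < 0 := by
    simp only [List.mem_cons, Prod.mk.injEq, List.not_mem_nil, or_false] at h9
    rcases h9 with ⟨rfl, rfl⟩ | ⟨rfl, rfl⟩ | ⟨rfl, rfl⟩ | ⟨rfl, rfl⟩ | ⟨rfl, rfl⟩ | ⟨rfl, rfl⟩ |
      ⟨rfl, rfl⟩ | ⟨rfl, rfl⟩ | ⟨rfl, rfl⟩ <;> norm_num
  rintro ⟨x, hx⟩
  nlinarith [mul_self_nonneg x]

lemma fq_lt (hA : 1 ≤ A) {m n : ℕ} (h : m < n) : fq t A β e m < fq t A β e n := by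
  unfold fq
  have h1 : A * m ^ 2 < A * n ^ 2 := by
    have h2 : m ^ 2 < n ^ 2 := Nat.pow_lt_pow_left h (by norm_num)
    exact Nat.mul_lt_mul_of_pos_left h2 (by omega)
  have h3 : (2 * β + t) * m ≤ (2 * β + t) * n := Nat.mul_le_mul_left _ h.le
  omega

lemma fq_inj (hA : 1 ≤ A) {m n : ℕ} (h : fq t A β e m = fq t A β e n) : m = n := by
  rcases lt_trichotomy m n with h1 | h1 | h1
  · have := fq_lt (t := t) (β := β) (e := e) hA h1; omega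
  · exact h1
  · have := fq_lt (t := t) (β := β) (e := e) hA h1; omega

open scoped Classical in
/-- the theorem with the exponent `log 2` -/
theorem sqf9L (h : Dat t c A β e) (h9 : (t, c) ∈ ([(0, 1), (0, 2), (1, 1), (1, 2), (1, 3), (1, 5),
    (1, 11), (1, 17), (1, 41)] : List (ℕ × ℕ))) {k q : ℕ} (hk : 1 ≤ k) (hq : 1 ≤ q) (u : ℕ)
    (F : ℕ → ℕ) (hF : ∀ m, F m = fq t A β e m)
    (hl : ∀ l : ℕ, l.Prime → l ^ 2 ∣ q → ¬ l ^ 2 ∣ F u) :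
    (∃ c₁ : ℝ, 0 < c₁ ∧ ∃ X₀ : ℕ, ∀ X : ℕ, X₀ ≤ X →
      c₁ * X ≤ ((PE (fun p => ∃ m : ℕ, p.1 * p.2 = F m ∧ m ≡ u [MOD q]) 0 1 0 1 X).card : ℝ)) ∧
    (∀ (r i j : ℕ) (s₁ s₂ s₃ s₄ : ℝ), 0 ≤ s₁ → s₁ < s₂ → 0 ≤ s₃ → s₃ < s₄ → ∀ ε : ℝ, 0 < ε →
      Tendsto (fun N : ℕ => (∑ X ∈ (Icc 1 N).filter
        (fun X : ℕ => ε * X < DE (fun p => ∃ m : ℕ, p.1 * p.2 = F m ∧ m ≡ u [MOD q])
          k q r i j s₁ s₂ s₃ s₄ X), 1 / (X : ℝ)) / Real.log N) atTop (nhds 0)) ∧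
    (∀ (j : ℕ) (ε : ℝ), 0 < ε → Tendsto (fun Z : ℕ => (∑ X ∈ (Icc 1 Z).filter (fun X : ℕ =>
      (cE F q u k j X : ℝ) < (X : ℝ) / Real.log X ^ (Real.log 2 + ε)), 1 / (X : ℝ)) /
      Real.log Z) atTop (nhds 0)) ∧
    ∀ (j : ℕ) (δ : ℝ), 0 < δ → ∃ N₀ : ℕ, ∀ N : ℕ, N₀ ≤ N → (N : ℝ) ^ (1 - δ) ≤ cE F q u k j N := by
  obtain ⟨h1, h2, -, h4⟩ := sqf9 h h9 hk hq u F hF hl
  refine ⟨h1, h2, fun j ε hε => ?_, h4⟩
  have hFA : ∀ m : ℕ, (A : ℤ) * F m = Pool.Agent.W78.GT.Qp (t : ℤ) (c : ℤ) (A * m + β) := by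
    intro m
    have := ident h m
    rw [hF m]
    unfold Pool.Agent.W78.GT.Qp
    exact_mod_cast this.symm
  refine cnt_null (t := (t : ℤ)) (c := (c : ℤ)) (A := A) (β := β) (nsq9 h9) (F := F) h.pos
    (Nat.cast_nonneg t) hFA (PE (fun p => ∃ m : ℕ, p.1 * p.2 = F m ∧ m ≡ u [MOD q]) 0 1 0 1) ?_ h1
    hk hq 0 j (fun r ε hε => h2 r 0 j 0 1 0 1 le_rfl one_pos le_rfl one_pos ε hε)
    (fun X => cE F q u k j X) ?_ ε hε
  · intro X p hp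
    unfold PE at hp
    rw [one_mul, Nat.floor_natCast] at hp
    simp only [mem_filter, mem_product, mem_Icc] at hp
    obtain ⟨⟨⟨h2, h3⟩, h4, h5⟩, -, -, -, m, h7, -⟩ := hp
    exact ⟨h2, h3, h4, h5, m, h7⟩
  · intro X
    refine ⟨_, le_rfl, ?_⟩
    rintro m ⟨p, hp, he, hΩ⟩
    unfold PE at hp
    rw [one_mul, Nat.floor_natCast] at hp
    simp only [mem_filter, mem_product, mem_Icc] at hp
    obtain ⟨⟨⟨h2, h3⟩, h4, h5⟩, -, -, hsq, m', h7, h8⟩ := hp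
    have hmm : m = m' := by
      refine fq_inj (t := t) (β := β) (e := e) h.pos ?_
      rw [← hF, ← hF, ← he, ← h7]
    subst hmm
    rw [mem_filter, mem_range]
    refine ⟨?_, h8, by rw [← he]; exact hsq, by rw [zero_add] at hΩ; exact hΩ⟩
    have h9 : F m ≤ X * X := by rw [← he]; exact Nat.mul_le_mul h3 h5
    have h10 : m ^ 2 ≤ F m := by
      rw [hF m]
      unfold fq
      have h11 : 1 * m ^ 2 ≤ A * m ^ 2 := Nat.mul_le_mul_right _ h.pos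
      omega
    have h12 : m ^ 2 ≤ X ^ 2 := by rw [sq X]; omega
    have h13 := (Nat.pow_le_pow_iff_left (by norm_num : (2 : ℕ) ≠ 0)).1 h12
    omega

end Pool.Agent.TH890.DV
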