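import Pool.Agent.TH890.DV.B1

/-!
Distinct values (helper890), part 10: from pairs `(d, d')` to integers `n`.
-/

set_option autoImplicit false

namespace Pool.Agent.TH890.DV

open Finset Filter
open Pool.Agent.W78.GT

variable {t c : ℤ}

/-- the triple of a pair -/
lemma triple_of {X : ℝ} {p : ℕ × ℕ} (h1 : 1 ≤ p.1) (h2 : (p.1 : ℝ) ≤ X) (h3 : 1 ≤ p.2)
    (h4 : (p.2 : ℝ) ≤ X) (h5 : ∃ n : ℤ, (p.1 : ℤ) * p.2 = Qp t c n) :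
    ∃ n : ℤ, (p.1, n, p.2) ∈ tri t c X X := by
  obtain ⟨n, hn⟩ := h5
  rcases le_total 0 (2 * n + t) with h | h
  · exact ⟨n, mem_tri.2 ⟨h1, h2, h3, h4, hn, h⟩⟩
  · refine ⟨-n - t, mem_tri.2 ⟨h1, h2, h3, h4, ?_, ?_⟩⟩
    · simp only
      rw [hn]
      unfold Qp
      ring
    · simp only
      omega

theorem pairs_core (hns : ¬ IsSquare (t ^ 2 - 4 * c)) (b ε : ℝ) (hb : 0 < b) (hε : 0 < ε) :
    ∃ X₀ : ℝ, ∀ X : ℝ, X₀ ≤ X → ∀ S : Finset (ℕ × ℕ),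
      (∀ p ∈ S, 1 ≤ p.1 ∧ (p.1 : ℝ) ≤ X ∧ 1 ≤ p.2 ∧ (p.2 : ℝ) ≤ X ∧
        ∃ n : ℤ, (p.1 : ℤ) * p.2 = Qp t c n) → b * X ≤ (S.card : ℝ) →
      ∀ T : Finset ℤ, (∀ n : ℤ, 0 ≤ 2 * n + t → (∃ p ∈ S, (p.1 : ℤ) * p.2 = Qp t c n) → n ∈ T) →
      X / Real.log X ^ (Real.log 2 + ε) ≤ (T.card : ℝ) := by
  classical
  obtain ⟨X₀, h⟩ := core hns b ε hb hε
  refine ⟨X₀, fun X hX S hS hSc T hT => ?_⟩
  have hex : ∀ p : ℕ × ℕ, ∃ n : ℤ, p ∈ S → (p.1, n, p.2) ∈ tri t c X X := by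
    intro p
    by_cases hp : p ∈ S
    · obtain ⟨h1, h2, h3, h4, h5⟩ := hS p hp
      obtain ⟨n, hn⟩ := triple_of h1 h2 h3 h4 h5
      exact ⟨n, fun _ => hn⟩
    · exact ⟨0, fun hp' => absurd hp' hp⟩
  choose ν hν using hex
  have h1 := h X hX (S.image (fun p => (p.1, ν p, p.2))) (by
    intro e he
    rw [mem_image] at he
    obtain ⟨p, hp, rfl⟩ := he
    exact hν p hp) (by
    rw [card_image_of_injOn]
    · exact hSc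
    · intro p _ p' _ hpp
      simp only [Prod.mk.injEq] at hpp
      exact Prod.ext hpp.1 hpp.2.2)
  refine h1.trans ?_
  apply Nat.cast_le.2
  apply card_le_card
  intro n hn
  rw [mem_image] at hn
  obtain ⟨e, he, rfl⟩ := hn
  rw [mem_image] at he
  obtain ⟨p, hp, rfl⟩ := he
  obtain ⟨m1, m2, m3, m4, m5, m6⟩ := mem_tri.1 (hν p hp)
  exact hT _ m6 ⟨p, hp, m5⟩

theorem pairs_scale (hns : ¬ IsSquare (t ^ 2 - 4 * c)) (b ε : ℝ) (hb : 0 < b) (hε : 0 < ε) :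
    ∃ N₀ : ℕ, ∀ N : ℕ, N₀ ≤ N → ∀ S : Finset (ℕ × ℕ),
      (∀ p ∈ S, 1 ≤ p.1 ∧ (p.1 : ℝ) ≤ (N : ℝ) / 2 ∧ 1 ≤ p.2 ∧ (p.2 : ℝ) ≤ (N : ℝ) / 2 ∧
        ∃ n : ℤ, (p.1 : ℤ) * p.2 = Qp t c n) → b * N ≤ (S.card : ℝ) →
      ∀ T : Finset ℕ, (∀ n : ℕ, 1 ≤ n → n ≤ N → (∃ p ∈ S, (p.1 : ℤ) * p.2 = Qp t c n) → n ∈ T) →
      (N : ℝ) / Real.log N ^ (Real.log 2 + ε) ≤ (T.card : ℝ) := by
  classical
  obtain ⟨N₀, h⟩ := scale hns b ε hb hε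
  refine ⟨N₀, fun N hN S hS hSc T hT => ?_⟩
  have hex : ∀ p : ℕ × ℕ, ∃ n : ℤ, p ∈ S → (p.1, n, p.2) ∈ tri t c ((N : ℝ) / 2) ((N : ℝ) / 2) := by
    intro p
    by_cases hp : p ∈ S
    · obtain ⟨h1, h2, h3, h4, h5⟩ := hS p hp
      obtain ⟨n, hn⟩ := triple_of h1 h2 h3 h4 h5
      exact ⟨n, fun _ => hn⟩
    · exact ⟨0, fun hp' => absurd hp' hp⟩
  choose ν hν using hex
  refine h N hN (S.image (fun p => (p.1, ν p, p.2))) (by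
    intro e he
    rw [mem_image] at he
    obtain ⟨p, hp, rfl⟩ := he
    exact hν p hp) (by
    rw [card_image_of_injOn]
    · exact hSc
    · intro p _ p' _ hpp
      simp only [Prod.mk.injEq] at hpp
      exact Prod.ext hpp.1 hpp.2.2) T ?_
  intro e he h0 hn
  rw [mem_image] at he
  obtain ⟨p, hp, rfl⟩ := he
  obtain ⟨m1, m2, m3, m4, m5, m6⟩ := mem_tri.1 (hν p hp)
  simp only at h0 hn m5 ⊢
  have e1 : (((ν p).toNat : ℕ) : ℤ) = ν p := Int.toNat_of_nonneg (by omega)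
  refine hT _ (by omega) (by omega) ⟨p, hp, ?_⟩
  rw [e1]
  exact m5

/-- From a positive proportion of the pairs to many integers `n`, for the values in a set `P`. -/
theorem upgrade (hns : ¬ IsSquare (t ^ 2 - 4 * c)) {P : ℕ → Prop}
    (h : ∃ κ : ℝ, 0 < κ ∧ ∃ N₀ : ℕ, ∀ N : ℕ, N₀ ≤ N → κ * N ≤
      (Set.ncard {p : ℕ × ℕ | 1 ≤ p.1 ∧ p.1 ≤ N ∧ 1 ≤ p.2 ∧ p.2 ≤ N ∧
        (∃ n : ℤ, (p.1 : ℤ) * p.2 = n ^ 2 + t * n + c) ∧ P (p.1 * p.2)} : ℝ)) (ε : ℝ) (hε : 0 < ε) :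
    ∃ N₀ : ℕ, ∀ N : ℕ, N₀ ≤ N → (N : ℝ) / Real.log N ^ (Real.log 2 + ε) ≤
      (Set.ncard {n : ℕ | 1 ≤ n ∧ n ≤ N ∧ ∃ m : ℕ, (n : ℤ) ^ 2 + t * n + c = m ∧ P m} : ℝ) := by
  classical
  obtain ⟨κ, hκ, N₁, h⟩ := h
  obtain ⟨N₀, hs⟩ := pairs_scale hns (κ / 4) ε (by positivity) hε
  refine ⟨max N₀ (2 * N₁ + 2), fun N hN => ?_⟩
  have hN0 : N₀ ≤ N := (le_max_left _ _).trans hN
  have hN1 : 2 * N₁ + 2 ≤ N := (le_max_right _ _).trans hN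
  obtain ⟨M, hM⟩ : ∃ M, M = N / 2 := ⟨_, rfl⟩
  have hM1 : N₁ ≤ M := by omega
  have hMN : N ≤ 4 * M := by omega
  have hMr : (M : ℝ) ≤ (N : ℝ) / 2 := by rw [hM]; exact Nat.cast_div_le
  have h1 := h M hM1
  set S := (Icc 1 M ×ˢ Icc 1 M).filter (fun p : ℕ × ℕ =>
    (∃ n : ℤ, (p.1 : ℤ) * p.2 = n ^ 2 + t * n + c) ∧ P (p.1 * p.2)) with hS
  have hset : {p : ℕ × ℕ | 1 ≤ p.1 ∧ p.1 ≤ M ∧ 1 ≤ p.2 ∧ p.2 ≤ M ∧
      (∃ n : ℤ, (p.1 : ℤ) * p.2 = n ^ 2 + t * n + c) ∧ P (p.1 * p.2)} = (S : Set (ℕ × ℕ)) := by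
    ext p
    rw [hS]
    simp only [Set.mem_ofPred_eq, coe_filter, mem_product, Finset.mem_Icc]
    tauto
  rw [hset, Set.ncard_coe_finset] at h1
  have h2 := hs N hN0 S (by
    intro p hp
    rw [hS, mem_filter, mem_product, Finset.mem_Icc, Finset.mem_Icc] at hp
    obtain ⟨⟨⟨a1, a2⟩, a3, a4⟩, ⟨n, hn⟩, a5⟩ := hp
    have b2 : (p.1 : ℝ) ≤ M := by exact_mod_cast a2
    have b4 : (p.2 : ℝ) ≤ M := by exact_mod_cast a4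
    exact ⟨a1, b2.trans hMr, a3, b4.trans hMr, n, hn⟩) (by
    refine le_trans ?_ h1
    have : (N : ℝ) ≤ 4 * M := by exact_mod_cast hMN
    nlinarith)
    ((Icc 1 N).filter (fun n : ℕ => ∃ m : ℕ, (n : ℤ) ^ 2 + t * n + c = m ∧ P m)) (by
    intro n hn1 hn2 hp
    obtain ⟨p, hp, he⟩ := hp
    rw [hS, mem_filter] at hp
    rw [mem_filter, Finset.mem_Icc]
    refine ⟨⟨hn1, hn2⟩, p.1 * p.2, ?_, hp.2.2⟩
    push_cast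
    rw [he]
    rfl)
  refine h2.trans (le_of_eq ?_)
  rw [← Set.ncard_coe_finset]
  congr 2
  ext n
  rw [Finset.mem_coe, mem_filter, Finset.mem_Icc, Set.mem_ofPred_eq, and_assoc]

end Pool.Agent.TH890.DV
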