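import Pool.Agent.TH890.DV.B1
import Pool.Agent.W193.G.Final
import Pool.Agent.W84.G.Out

/-!
Distinct values (helper890), part 9: the four sign patterns for all quadratic polynomials.
-/

set_option autoImplicit false

namespace Pool.Agent.TH890.DV

open Finset Filter
open Pool.Agent.H376R2.MR
open Pool.Agent.W78.GT (Qp Tr NT tri)
open Pool.Agent.W84.G (S_POST S_SQBT R4 PosT)
open Pool.Agent.W193.G (transfer analytic RR posT_RR lam_pm)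

/-- the final statement for `a n^2 + b n + c` -/
def FinalG (a b c : ℤ) : Prop := ∃ S : ℕ, ∀ e₁ e₂ : ℤ, (e₁ = 1 ∨ e₁ = -1) →
  (e₂ = 1 ∨ e₂ = -1) →
  (∀ ε : ℝ, 0 < ε → ∃ N₀ : ℕ, ∀ N : ℕ, N₀ ≤ N → (N : ℝ) / Real.log N ^ (Real.log 2 + ε) ≤
    (Set.ncard {n : ℕ | 1 ≤ n ∧ n ≤ N ∧ ∃ d d' : ℕ, (d : ℤ) * d' = a * (n : ℤ) ^ 2 + b * n + c ∧
      d ≤ S * n ∧ d' ≤ S * n ∧ (∀ k : ℕ, k ^ 2 ∣ d * d' → k ≤ S) ∧
      (-1 : ℤ) ^ ArithmeticFunction.cardFactors d = e₁ ∧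
      (-1 : ℤ) ^ ArithmeticFunction.cardFactors d' = e₂} : ℝ)) ∧
  ∃ κ : ℝ, 0 < κ ∧ ∃ N₀ : ℕ, ∀ N : ℕ, N₀ ≤ N → κ * N ≤
    (Set.ncard {p : ℕ × ℕ | 1 ≤ p.1 ∧ p.1 ≤ N ∧ 1 ≤ p.2 ∧ p.2 ≤ N ∧
      (∃ n : ℕ, 1 ≤ n ∧ (p.1 : ℤ) * p.2 = a * (n : ℤ) ^ 2 + b * n + c) ∧
      (∀ k : ℕ, k ^ 2 ∣ p.1 * p.2 → k ≤ S) ∧
      (-1 : ℤ) ^ ArithmeticFunction.cardFactors p.1 = e₁ ∧
      (-1 : ℤ) ^ ArithmeticFunction.cardFactors p.2 = e₂} : ℝ)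

theorem finalg {a b c : ℤ} (ha : 0 < a) {q : ℕ} (haq : a ∣ (q : ℤ)) (hns : ¬ IsSquare (b ^ 2 - 4 * (a * c)))
    (hP : S_POST b (a * c) q) (hS : S_SQBT b (a * c)) : FinalG a b c := by
  classical
  obtain ⟨an, han⟩ : ∃ an : ℕ, (an : ℤ) = a := ⟨a.toNat, Int.toNat_of_nonneg ha.le⟩
  have han1 : 1 ≤ an := by omega
  have hanq : an ∣ q := by
    rw [← han] at haq
    exact_mod_cast haq
  obtain ⟨S0, hpos⟩ := posT_RR hP hS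
  -- the constants `L`
  have hL : ∀ e₁ e₂ : ℤ, ∃ L : ℕ, (e₁ = 1 ∨ e₁ = -1) → (e₂ = 1 ∨ e₂ = -1) →
      (∀ ε : ℝ, 0 < ε → ∃ N₀ : ℕ, ∀ N : ℕ, N₀ ≤ N →
        (N : ℝ) / Real.log N ^ (Real.log 2 + ε) ≤
        (Set.ncard {n : ℕ | 1 ≤ n ∧ n ≤ N ∧ ∃ d d' : ℕ, (d : ℤ) * d' = Qp b (a * c) n ∧
          d ≤ L * n ∧ d' ≤ L * n ∧ RR q S0 (e₁ * lam an) e₂ (d, (n : ℤ), d')} : ℝ)) ∧
      ∃ κ : ℝ, 0 < κ ∧ ∃ N₀ : ℕ, ∀ N : ℕ, N₀ ≤ N → κ * N ≤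
        (Set.ncard {p : ℕ × ℕ | 1 ≤ p.1 ∧ p.1 ≤ N ∧ 1 ≤ p.2 ∧ p.2 ≤ N ∧
          ∃ n : ℕ, 1 ≤ n ∧ (p.1 : ℤ) * p.2 = Qp b (a * c) n ∧
            RR q S0 (e₁ * lam an) e₂ (p.1, (n : ℤ), p.2)} : ℝ) := by
    intro e₁ e₂
    by_cases h : (e₁ = 1 ∨ e₁ = -1) ∧ (e₂ = 1 ∨ e₂ = -1)
    · obtain ⟨L, hL⟩ := cont hns (RR q S0 (e₁ * lam an) e₂)
        (hpos _ _ (by
          rcases h.1 with h1 | h1 <;> rcases lam_pm an with h2 | h2 <;> rw [h1, h2] <;> simp) h.2)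
      exact ⟨L, fun _ _ => hL⟩
    · exact ⟨0, fun h1 h2 => absurd ⟨h1, h2⟩ h⟩
  choose L hL using hL
  obtain ⟨LL, hLL⟩ : ∃ LL, LL = L 1 1 + L 1 (-1) + L (-1) 1 + L (-1) (-1) := ⟨_, rfl⟩
  refine ⟨S0 + LL * an, fun e₁ e₂ he₁ he₂ => ?_⟩
  have hle : L e₁ e₂ ≤ LL := by
    rcases he₁ with rfl | rfl <;> rcases he₂ with rfl | rfl <;> omega
  obtain ⟨g1, κ, hκ, N₂, g2⟩ := hL e₁ e₂ he₁ he₂
  have hLn : ∀ n' : ℕ, L e₁ e₂ * (an * n') ≤ (S0 + LL * an) * n' := by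
    intro n'
    calc L e₁ e₂ * (an * n') ≤ LL * (an * n') := Nat.mul_le_mul_right _ hle
      _ = LL * an * n' := by ring
      _ ≤ (S0 + LL * an) * n' := Nat.mul_le_mul_right _ (Nat.le_add_left _ _)
  refine ⟨?_, κ, hκ, N₂, ?_⟩
  · intro ε hε
    obtain ⟨N₀, hN₀⟩ := g1 (ε / 2) (half_pos hε)
    obtain ⟨N₁, hN₁⟩ := analytic an han1 (Real.log 2) ε (by positivity) hε
    refine ⟨max N₀ N₁, fun N hN => ?_⟩
    have b1 := hN₁ N ((le_max_right _ _).trans hN)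
    have b2 := hN₀ (an * N) (((le_max_left _ _).trans hN).trans
      (Nat.le_mul_of_pos_left _ (by omega)))
    refine b1.trans (b2.trans ?_)
    have hfin : Set.Finite {n : ℕ | 1 ≤ n ∧ n ≤ N ∧ ∃ d d' : ℕ,
        (d : ℤ) * d' = a * (n : ℤ) ^ 2 + b * n + c ∧
        d ≤ (S0 + LL * an) * n ∧ d' ≤ (S0 + LL * an) * n ∧
        (∀ k : ℕ, k ^ 2 ∣ d * d' → k ≤ S0 + LL * an) ∧
        (-1 : ℤ) ^ ArithmeticFunction.cardFactors d = e₁ ∧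
        (-1 : ℤ) ^ ArithmeticFunction.cardFactors d' = e₂} :=
      (Set.finite_Icc 1 N).subset fun n hn => ⟨hn.1, hn.2.1⟩
    have hncard := Set.ncard_le_ncard_of_injOn (s := {n : ℕ | 1 ≤ n ∧ n ≤ an * N ∧ ∃ d d' : ℕ,
        (d : ℤ) * d' = Qp b (a * c) n ∧
          d ≤ L e₁ e₂ * n ∧ d' ≤ L e₁ e₂ * n ∧ RR q S0 (e₁ * lam an) e₂ (d, (n : ℤ), d')})
      (fun n => n / an) (fun n hn => by
        obtain ⟨hn1, hnN, d, d', hdd, hd, hd', hR, hk⟩ := hn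
        obtain ⟨n', d1, t1, t2, t3, t4, t5, t6, t7, t8, t9⟩ :=
          transfer han han1 hanq S0 hdd hn1 hR hk
        have e : n / an = n' := by rw [t1, Nat.mul_div_cancel_left _ (by omega)]
        simp only [e]
        refine ⟨t3, ?_, d1, d', t6, ?_, ?_, ?_, t7, t8⟩
        · rw [t1] at hnN
          exact Nat.le_of_mul_le_mul_left hnN (by omega)
        · refine le_trans ?_ (hLn n')
          rw [← t1]
          refine le_trans ?_ hd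
          rw [t2]
          exact Nat.le_mul_of_pos_left _ (by omega)
        · rw [t1] at hd'
          exact hd'.trans (hLn n')
        · intro k hk'
          exact (t9 k hk').trans (Nat.le_add_right _ _)) (by
        intro n hn m hm hnm
        obtain ⟨hn1, -, d, d', hdd, -, -, hR, hk⟩ := hn
        obtain ⟨n', -, t1, -⟩ := transfer han han1 hanq S0 hdd hn1 hR hk
        obtain ⟨hm1, -, d, d', hdd, -, -, hR, hk⟩ := hm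
        obtain ⟨m', -, u1, -⟩ := transfer han han1 hanq S0 hdd hm1 hR hk
        simp only [t1, u1, Nat.mul_div_cancel_left _ (show 0 < an by omega)] at hnm
        rw [t1, u1, hnm]) hfin
    exact_mod_cast hncard
  · intro N hN
    refine (g2 N hN).trans ?_
    have hfin : Set.Finite {p : ℕ × ℕ | 1 ≤ p.1 ∧ p.1 ≤ N ∧ 1 ≤ p.2 ∧ p.2 ≤ N ∧
      (∃ n : ℕ, 1 ≤ n ∧ (p.1 : ℤ) * p.2 = a * (n : ℤ) ^ 2 + b * n + c) ∧
      (∀ k : ℕ, k ^ 2 ∣ p.1 * p.2 → k ≤ S0 + LL * an) ∧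
      (-1 : ℤ) ^ ArithmeticFunction.cardFactors p.1 = e₁ ∧
      (-1 : ℤ) ^ ArithmeticFunction.cardFactors p.2 = e₂} :=
      ((Set.finite_Icc 1 N).prod (Set.finite_Icc 1 N)).subset fun p hp =>
        ⟨⟨hp.1, hp.2.1⟩, ⟨hp.2.2.1, hp.2.2.2.1⟩⟩
    have hncard := Set.ncard_le_ncard_of_injOn
      (s := {p : ℕ × ℕ | 1 ≤ p.1 ∧ p.1 ≤ N ∧ 1 ≤ p.2 ∧ p.2 ≤ N ∧
          ∃ n : ℕ, 1 ≤ n ∧ (p.1 : ℤ) * p.2 = Qp b (a * c) n ∧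
            RR q S0 (e₁ * lam an) e₂ (p.1, (n : ℤ), p.2)})
      (fun p => (p.1 / an, p.2)) (fun p hp => by
        obtain ⟨p1, p2, p3, p4, n, hn1, hdd, hR, hk⟩ := hp
        obtain ⟨n', d1, t1, t2, t3, t4, t5, t6, t7, t8, t9⟩ :=
          transfer han han1 hanq S0 hdd hn1 hR hk
        have e : p.1 / an = d1 := by rw [t2, Nat.mul_div_cancel_left _ (by omega)]
        simp only [e]
        refine ⟨t4, ?_, t5, p4, ⟨n', t3, t6⟩, ?_, t7, t8⟩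
        · refine le_trans ?_ p2
          rw [t2]
          exact Nat.le_mul_of_pos_left _ (by omega)
        · intro k hk'
          exact (t9 k hk').trans (Nat.le_add_right _ _)) (by
        intro p hp p' hp' hpp
        obtain ⟨-, -, -, -, n, hn1, hdd, hR, hk⟩ := hp
        obtain ⟨n', d1, t1, t2, -⟩ := transfer han han1 hanq S0 hdd hn1 hR hk
        obtain ⟨-, -, -, -, m, hm1, hdd, hR, hk⟩ := hp'
        obtain ⟨m', d2, u1, u2, -⟩ := transfer han han1 hanq S0 hdd hm1 hR hk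
        rw [Prod.mk.injEq] at hpp
        simp only [t2, u2, Nat.mul_div_cancel_left _ (show 0 < an by omega)] at hpp
        ext
        · rw [t2, u2, hpp.1]
        · exact hpp.2) hfin
    exact_mod_cast hncard


open Pool.Agent.W84.G (post_neg post_pos rp2) in
/-- all quadratics of nonsquare discriminant -/
theorem final {a b c : ℤ} (ha : 0 < a) (hns : ¬ IsSquare (b ^ 2 - 4 * a * c)) : FinalG a b c := by
  have hns' : ¬ IsSquare (b ^ 2 - 4 * (a * c)) := by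
    have e : b ^ 2 - 4 * (a * c) = b ^ 2 - 4 * a * c := by ring
    rwa [e]
  set D : ℤ := b ^ 2 - 4 * (a * c) with hD
  have hD0 : D ≠ 0 := by
    intro h0
    exact hns' ⟨0, by rw [h0]; ring⟩
  set q : ℕ := 4 * D.natAbs * a.natAbs with hq
  have hq1 : 1 ≤ q := by
    have h1 : 0 < D.natAbs := Int.natAbs_pos.2 hD0
    have h2 : 0 < a.natAbs := Int.natAbs_pos.2 ha.ne'
    rw [hq]
    exact Nat.mul_pos (Nat.mul_pos (by norm_num) h1) h2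
  have haq : a ∣ (q : ℤ) := by
    rw [hq]
    push_cast
    exact Dvd.dvd.mul_left ((dvd_abs a a).2 dvd_rfl) _
  have hDq : 4 * (b ^ 2 - 4 * (a * c)) ∣ (q : ℤ) := by
    rw [← hD, hq]
    push_cast
    exact Dvd.dvd.mul_right (mul_dvd_mul_left 4 ((dvd_abs D D).2 dvd_rfl)) _
  refine finalg ha haq hns' ?_ (Pool.Agent.W349.G.sqbt hns')
  rcases lt_trichotomy (b ^ 2) (4 * (a * c)) with h | h | h
  · exact post_neg h hq1 hDq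
  · exact absurd (by rw [hD, h]; ring) hD0
  · exact post_pos h hns' (fun η Q U hQ hη hD => rp2 U hQ hη hD) hq1 hDq

/-- the final statement for `a n^2 + b n + c`, `n ≡ r mod q` -/
def FinalR (a b c : ℤ) (q r : ℕ) : Prop := ∃ S : ℕ, ∀ e₁ e₂ : ℤ, (e₁ = 1 ∨ e₁ = -1) →
  (e₂ = 1 ∨ e₂ = -1) →
  (∀ ε : ℝ, 0 < ε → ∃ N₀ : ℕ, ∀ N : ℕ, N₀ ≤ N → (N : ℝ) / Real.log N ^ (Real.log 2 + ε) ≤
    (Set.ncard {n : ℕ | 1 ≤ n ∧ n ≤ N ∧ n ≡ r [MOD q] ∧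
      ∃ d d' : ℕ, (d : ℤ) * d' = a * (n : ℤ) ^ 2 + b * n + c ∧
      d ≤ S * n ∧ d' ≤ S * n ∧ (∀ k : ℕ, k ^ 2 ∣ d * d' → k ≤ S) ∧
      (-1 : ℤ) ^ ArithmeticFunction.cardFactors d = e₁ ∧
      (-1 : ℤ) ^ ArithmeticFunction.cardFactors d' = e₂} : ℝ)) ∧
  ∃ κ : ℝ, 0 < κ ∧ ∃ N₀ : ℕ, ∀ N : ℕ, N₀ ≤ N → κ * N ≤
    (Set.ncard {p : ℕ × ℕ | 1 ≤ p.1 ∧ p.1 ≤ N ∧ 1 ≤ p.2 ∧ p.2 ≤ N ∧
      (∃ n : ℕ, 1 ≤ n ∧ n ≡ r [MOD q] ∧ (p.1 : ℤ) * p.2 = a * (n : ℤ) ^ 2 + b * n + c) ∧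
      (∀ k : ℕ, k ^ 2 ∣ p.1 * p.2 → k ≤ S) ∧
      (-1 : ℤ) ^ ArithmeticFunction.cardFactors p.1 = e₁ ∧
      (-1 : ℤ) ^ ArithmeticFunction.cardFactors p.2 = e₂} : ℝ)

open Pool.Agent.W84.G (shrink) in
/-- from all integers to a residue class -/
theorem finalR_of {a b c : ℤ} {q : ℕ} (r : ℕ) (hq : 1 ≤ q)
    (h : FinalG (a * q ^ 2) (2 * a * q * r + b * q) (a * r ^ 2 + b * r + c)) :
    FinalR a b c q r := by
  obtain ⟨S, h⟩ := h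
  have key : ∀ k : ℕ, a * q ^ 2 * (k : ℤ) ^ 2 + (2 * a * q * r + b * q) * k +
      (a * r ^ 2 + b * r + c) = a * ((q * k + r : ℕ) : ℤ) ^ 2 + b * ((q * k + r : ℕ) : ℤ) + c := by
    intro k
    push_cast
    ring
  have hmod : ∀ k : ℕ, q * k + r ≡ r [MOD q] := by
    intro k
    simp [Nat.ModEq]
  have hkn : ∀ k : ℕ, k ≤ q * k + r := fun k =>
    (Nat.le_mul_of_pos_left k hq).trans (Nat.le_add_right _ _)
  refine ⟨S, fun e₁ e₂ he₁ he₂ => ⟨fun ε hε => ?_, ?_⟩⟩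
  · obtain ⟨N₁, h1⟩ := (h e₁ e₂ he₁ he₂).1 (ε / 2) (half_pos hε)
    have hC : 0 ≤ Real.log 2 := by positivity
    obtain ⟨N₀, h2⟩ := shrink q r hq (Real.log 2) ε hC hε N₁
    refine ⟨N₀, fun N hN => ?_⟩
    obtain ⟨h3, h4, h5⟩ := h2 N hN
    refine (h5.trans (h1 _ h3)).trans (Nat.cast_le.2 ?_)
    have hfin : {n : ℕ | 1 ≤ n ∧ n ≤ N ∧ n ≡ r [MOD q] ∧
      ∃ d d' : ℕ, (d : ℤ) * d' = a * (n : ℤ) ^ 2 + b * n + c ∧
      d ≤ S * n ∧ d' ≤ S * n ∧ (∀ k : ℕ, k ^ 2 ∣ d * d' → k ≤ S) ∧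
      (-1 : ℤ) ^ ArithmeticFunction.cardFactors d = e₁ ∧
      (-1 : ℤ) ^ ArithmeticFunction.cardFactors d' = e₂}.Finite :=
      (Set.finite_Icc 1 N).subset fun n hn => ⟨hn.1, hn.2.1⟩
    refine Set.ncard_le_ncard_of_injOn (fun k => q * k + r) ?_ ?_ hfin
    · rintro k ⟨h6, h7, d, d', h8, h9, h10, h11⟩
      refine ⟨h6.trans (hkn k), ?_, hmod k, d, d', ?_, ?_, ?_, h11⟩
      · refine le_trans ?_ h4
        exact Nat.add_le_add_right (Nat.mul_le_mul_left q h7) r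
      · rw [h8, key]
      · exact h9.trans (Nat.mul_le_mul_left S (hkn k))
      · exact h10.trans (Nat.mul_le_mul_left S (hkn k))
    · intro k _ k' _ hkk
      have h6 : q * k + r = q * k' + r := hkk
      exact Nat.eq_of_mul_eq_mul_left hq (Nat.add_right_cancel h6)
  · obtain ⟨κ, hκ, N₀, h1⟩ := (h e₁ e₂ he₁ he₂).2
    refine ⟨κ, hκ, N₀, fun N hN => (h1 N hN).trans (Nat.cast_le.2 ?_)⟩
    refine Set.ncard_le_ncard ?_ ?_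
    · rintro p ⟨h2, h3, h4, h5, ⟨k, h6, h7⟩, h8⟩
      exact ⟨h2, h3, h4, h5, ⟨q * k + r, h6.trans (hkn k), hmod k, by rw [h7, key]⟩, h8⟩
    · exact ((Set.finite_Icc 1 N).prod (Set.finite_Icc 1 N)).subset
        fun p hp => ⟨⟨hp.1, hp.2.1⟩, ⟨hp.2.2.1, hp.2.2.2.1⟩⟩

/-- residue classes -/
theorem finalR {a b c : ℤ} (ha : 0 < a) (hD : ¬ IsSquare (b ^ 2 - 4 * a * c)) {q : ℕ} (r : ℕ)
    (hq : 1 ≤ q) : FinalR a b c q r := by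
  have hqz : (0 : ℤ) < q := by exact_mod_cast hq
  refine finalR_of r hq (final (by positivity) ?_)
  have e : (2 * a * q * r + b * q) ^ 2 - 4 * (a * q ^ 2) * (a * r ^ 2 + b * r + c) =
      (q : ℤ) ^ 2 * (b ^ 2 - 4 * a * c) := by ring
  rw [e]
  rintro ⟨x, hx⟩
  have h1 : (q : ℤ) ^ 2 ∣ x ^ 2 := ⟨b ^ 2 - 4 * a * c, by rw [hx]; ring⟩
  have h2 : (q : ℤ) ∣ x := (Int.pow_dvd_pow_iff two_ne_zero).1 h1
  obtain ⟨y, rfl⟩ := h2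
  apply hD
  refine ⟨y, ?_⟩
  have h3 : (q : ℤ) ^ 2 * (b ^ 2 - 4 * a * c) = (q : ℤ) ^ 2 * (y * y) := by rw [hx]; ring
  exact mul_left_cancel₀ (pow_ne_zero 2 hqz.ne') h3

/-- the same for a function `f` -/
theorem finalP {a b c : ℤ} {f : ℕ → ℤ} (hf : ∀ n : ℕ, f n = a * (n : ℤ) ^ 2 + b * n + c)
    (ha : 0 < a) (hD : ¬ IsSquare (b ^ 2 - 4 * a * c)) {q : ℕ} (r : ℕ) (hq : 1 ≤ q) :
    ∃ S : ℕ, ∀ e₁ e₂ : ℤ, (e₁ = 1 ∨ e₁ = -1) → (e₂ = 1 ∨ e₂ = -1) →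
    (∀ ε : ℝ, 0 < ε → ∃ N₀ : ℕ, ∀ N : ℕ, N₀ ≤ N → (N : ℝ) / Real.log N ^ (Real.log 2 + ε) ≤
      (Set.ncard {n : ℕ | 1 ≤ n ∧ n ≤ N ∧ n ≡ r [MOD q] ∧
        ∃ d d' : ℕ, (d : ℤ) * d' = f n ∧
        d ≤ S * n ∧ d' ≤ S * n ∧ (∀ k : ℕ, k ^ 2 ∣ d * d' → k ≤ S) ∧
        (-1 : ℤ) ^ ArithmeticFunction.cardFactors d = e₁ ∧
        (-1 : ℤ) ^ ArithmeticFunction.cardFactors d' = e₂} : ℝ)) ∧
    ∃ κ : ℝ, 0 < κ ∧ ∃ N₀ : ℕ, ∀ N : ℕ, N₀ ≤ N → κ * N ≤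
      (Set.ncard {p : ℕ × ℕ | 1 ≤ p.1 ∧ p.1 ≤ N ∧ 1 ≤ p.2 ∧ p.2 ≤ N ∧
        (∃ n : ℕ, 1 ≤ n ∧ n ≡ r [MOD q] ∧ (p.1 : ℤ) * p.2 = f n) ∧
        (∀ k : ℕ, k ^ 2 ∣ p.1 * p.2 → k ≤ S) ∧
        (-1 : ℤ) ^ ArithmeticFunction.cardFactors p.1 = e₁ ∧
        (-1 : ℤ) ^ ArithmeticFunction.cardFactors p.2 = e₂} : ℝ) := by
  have h : f = fun n : ℕ => a * (n : ℤ) ^ 2 + b * n + c := funext hf
  subst h
  exact finalR ha hD r hq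

open ArithmeticFunction in
/-- the signs of `λ(f(n))` on a residue class, `f` any integer quadratic polynomial of nonsquare
discriminant -/
theorem signs {a b c : ℤ} (hD : ¬ IsSquare (b ^ 2 - 4 * a * c)) {q : ℕ} (r : ℕ) (hq : 1 ≤ q)
    {e : ℤ} (he : e = 1 ∨ e = -1) : ∀ ε : ℝ, 0 < ε → ∃ N₀ : ℕ, ∀ N : ℕ, N₀ ≤ N →
    (N : ℝ) / Real.log N ^ (Real.log 2 + ε) ≤
      (Set.ncard {n : ℕ | 1 ≤ n ∧ n ≤ N ∧ n ≡ r [MOD q] ∧ a * (n : ℤ) ^ 2 + b * n + c ≠ 0 ∧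
        (-1 : ℤ) ^ cardFactors (a * (n : ℤ) ^ 2 + b * n + c).natAbs = e} : ℝ) := by
  have main : ∀ a b c : ℤ, 0 < a → ¬ IsSquare (b ^ 2 - 4 * a * c) → ∀ ε : ℝ, 0 < ε → ∃ N₀ : ℕ,
      ∀ N : ℕ, N₀ ≤ N → (N : ℝ) / Real.log N ^ (Real.log 2 + ε) ≤
      (Set.ncard {n : ℕ | 1 ≤ n ∧ n ≤ N ∧ n ≡ r [MOD q] ∧ a * (n : ℤ) ^ 2 + b * n + c ≠ 0 ∧
        (-1 : ℤ) ^ cardFactors (a * (n : ℤ) ^ 2 + b * n + c).natAbs = e} : ℝ) := by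
    intro a b c ha hD ε hε
    obtain ⟨S, h⟩ := finalR ha hD r hq
    obtain ⟨N₀, h1⟩ := (h 1 e (Or.inl rfl) he).1 ε hε
    refine ⟨N₀, fun N hN => (h1 N hN).trans (Nat.cast_le.2 (Set.ncard_le_ncard ?_ ?_))⟩
    · rintro n ⟨h2, h3, h4, d, d', h5, h6, h7, h8, h9, h10⟩
      have hne : d * d' ≠ 0 := by
        intro h0
        have := h8 (S + 1) (by rw [h0]; exact dvd_zero _)
        omega
      refine ⟨h2, h3, h4, ?_, ?_⟩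
      · rw [← h5]
        exact_mod_cast hne
      · have e1 : (a * (n : ℤ) ^ 2 + b * n + c).natAbs = d * d' := by
          rw [← h5]
          have : ((d : ℤ) * d') = ((d * d' : ℕ) : ℤ) := by push_cast; ring
          rw [this, Int.natAbs_natCast]
        rw [e1, cardFactors_mul (left_ne_zero_of_mul hne) (right_ne_zero_of_mul hne), pow_add,
          h9, h10, one_mul]
    · exact (Set.finite_Icc 1 N).subset fun n hn => ⟨hn.1, hn.2.1⟩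
  rcases lt_trichotomy a 0 with h | h | h
  · intro ε hε
    obtain ⟨N₀, h1⟩ := main (-a) (-b) (-c) (by linarith) (by
      have e1 : (-b) ^ 2 - 4 * (-a) * (-c) = b ^ 2 - 4 * a * c := by ring
      rwa [e1]) ε hε
    refine ⟨N₀, fun N hN => ?_⟩
    have h2 := h1 N hN
    have e2 : ∀ n : ℕ, -a * (n : ℤ) ^ 2 + -b * n + -c = -(a * (n : ℤ) ^ 2 + b * n + c) := by
      intro n; ring
    simp only [e2, Int.natAbs_neg, neg_ne_zero] at h2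
    exact h2
  · exfalso
    apply hD
    exact ⟨b, by rw [h]; ring⟩
  · exact main a b c h hD

end Pool.Agent.TH890.DV
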