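import Mathlib

/-!
Distinct values (helper890), part 1: integers composed of the primes of a set of density one half.
-/

set_option autoImplicit false

namespace Pool.Agent.TH890.DV

open Finset

/-- the positive integers all of whose prime factors have the property `P` -/
def Dm (P : ℕ → Prop) (n : ℕ) : Prop := 0 < n ∧ ∀ p : ℕ, p.Prime → p ∣ n → P p

lemma Dm.of_dvd {P : ℕ → Prop} {m n : ℕ} (h : Dm P n) (hmn : m ∣ n) : Dm P m :=
  ⟨Nat.pos_of_dvd_of_pos hmn h.1, fun p hp hpm => h.2 p hp (hpm.trans hmn)⟩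

open Classical in
/-- the elements up to `N` -/
noncomputable def DD (P : ℕ → Prop) (N : ℕ) : Finset ℕ := (Icc 1 N).filter (Dm P)

lemma mem_DD {P : ℕ → Prop} {N n : ℕ} : n ∈ DD P N ↔ (1 ≤ n ∧ n ≤ N) ∧ Dm P n := by
  classical
  unfold DD
  rw [mem_filter, mem_Icc]

open Classical in
/-- the set `P` of primes has at most half of the primes, in the sense of Mertens' theorem -/
def Half (P : ℕ → Prop) : Prop := ∃ K : ℝ, 0 ≤ K ∧ ∀ N : ℕ, 2 ≤ N →
  ∑ p ∈ (Icc 2 N).filter (fun p => p.Prime ∧ P p), 1 / (p : ℝ) ≤ 1 / 2 * Real.log (Real.log N) + K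

noncomputable def f1 : ℕ →* ℝ where
  toFun n := (n : ℝ)⁻¹
  map_one' := by simp
  map_mul' m n := by
    push_cast
    rw [mul_inv]

lemma f1_lt {p : ℕ} (hp : p.Prime) : ‖f1 p‖ < 1 := by
  change ‖(p : ℝ)⁻¹‖ < 1
  have h2 : (2 : ℝ) ≤ p := by exact_mod_cast hp.two_le
  rw [Real.norm_of_nonneg (by positivity)]
  exact inv_lt_one_of_one_lt₀ (by linarith)

/-- sum over smooth numbers -/
lemma sum_smooth (S : Finset ℕ) (hS : ∀ q ∈ S, q.Prime) (M : Finset ℕ)
    (hM : ∀ m ∈ M, m ∈ Nat.factoredNumbers S) :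
    ∑ m ∈ M, (m : ℝ)⁻¹ ≤ ∏ q ∈ S, (1 - (q : ℝ)⁻¹)⁻¹ := by
  have hfil : S.filter Nat.Prime = S := Finset.filter_true_of_mem hS
  have h1 := (EulerProduct.summable_and_hasSum_factoredNumbers_prod_filter_prime_geometric
    (f := f1) (fun {p} hp => f1_lt hp) S).2
  rw [hfil] at h1
  have h4 : HasSum ((Nat.factoredNumbers S).indicator (fun m => f1 m))
      (∏ p ∈ S, (1 - f1 p)⁻¹) := by
    rw [← hasSum_subtype_iff_indicator]
    exact h1
  have hnn : ∀ m : ℕ, 0 ≤ (Nat.factoredNumbers S).indicator (fun m => f1 m) m := by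
    intro m
    apply Set.indicator_nonneg
    intro m _
    change 0 ≤ (m : ℝ)⁻¹
    positivity
  have h5 := sum_le_hasSum M (fun m _ => hnn m) h4
  have h6 : ∑ m ∈ M, (Nat.factoredNumbers S).indicator (fun m => f1 m) m
      = ∑ m ∈ M, (m : ℝ)⁻¹ := by
    apply Finset.sum_congr rfl
    intro m hm
    rw [Set.indicator_of_mem (hM m hm)]
    rfl
  rw [h6] at h5
  exact h5

lemma sum_tel (N : ℕ) : ∑ p ∈ Icc 2 (N + 1), (1 / ((p : ℝ) - 1) - 1 / (p : ℝ)) ≤ 1 - 1 / ((N : ℝ) + 1) := by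
  induction N with
  | zero => simp
  | succ N ih =>
    rw [← Finset.insert_Icc_right_eq_Icc_add_one (by omega), Finset.sum_insert (by simp)]
    push_cast at ih ⊢
    have e : (N : ℝ) + 1 + 1 - 1 = N + 1 := by ring
    rw [e]
    linarith

/-- the sum of the reciprocals -/
theorem recip {P : ℕ → Prop} (hP : Half P) : ∃ C : ℝ, 1 ≤ C ∧ ∀ N : ℕ, 1 ≤ N →
    ∑ n ∈ DD P N, (n : ℝ)⁻¹ ≤ C * √(1 + Real.log N) := by
  classical
  obtain ⟨K, hK, hP⟩ := hP
  refine ⟨Real.exp (K + 1), Real.one_le_exp (by linarith), fun N hN => ?_⟩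
  rcases Nat.lt_or_ge N 2 with h2 | h2
  · have hN1 : N = 1 := by omega
    subst hN1
    have h3 : ∑ n ∈ DD P 1, (n : ℝ)⁻¹ ≤ 1 := by
      calc ∑ n ∈ DD P 1, (n : ℝ)⁻¹ ≤ ∑ n ∈ Icc (1 : ℕ) 1, ((n : ℕ) : ℝ)⁻¹ :=
            sum_le_sum_of_subset_of_nonneg (filter_subset _ _) (fun _ _ _ => by positivity)
        _ = 1 := by simp
    have h4 : (1 : ℝ) ≤ Real.exp (K + 1) := Real.one_le_exp (by linarith)
    simpa using h3.trans h4
  have hN0 : (0 : ℝ) < N := by exact_mod_cast (by omega : 0 < N)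
  have hlog : 0 < Real.log N := Real.log_pos (by exact_mod_cast (by omega : 1 < N))
  set S := (Icc 2 N).filter (fun p => p.Prime ∧ P p) with hS
  have h1 := sum_smooth S (fun q hq => (mem_filter.1 hq).2.1) (DD P N) (fun m hm => by
    rw [mem_DD] at hm
    rw [Nat.mem_factoredNumbers]
    refine ⟨by omega, fun p hp => ?_⟩
    have hpp := Nat.prime_of_mem_primeFactorsList hp
    have hpd := Nat.dvd_of_mem_primeFactorsList hp
    rw [hS, mem_filter, mem_Icc]
    exact ⟨⟨hpp.two_le, (Nat.le_of_dvd (by omega) hpd).trans hm.1.2⟩, hpp, hm.2.2 p hpp hpd⟩)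
  refine h1.trans ?_
  have h2' : ∏ q ∈ S, (1 - (q : ℝ)⁻¹)⁻¹ ≤ ∏ q ∈ S, Real.exp (1 / ((q : ℝ) - 1)) := by
    apply prod_le_prod
    · intro q hq
      have hq2 : (2 : ℝ) ≤ q := by exact_mod_cast (mem_filter.1 hq).2.1.two_le
      have : (q : ℝ)⁻¹ ≤ 1 := inv_le_one_of_one_le₀ (by linarith)
      exact inv_nonneg.2 (by linarith)
    · intro q hq
      have hq2 : (2 : ℝ) ≤ q := by exact_mod_cast (mem_filter.1 hq).2.1.two_le
      have e : (1 - (q : ℝ)⁻¹)⁻¹ = 1 / ((q : ℝ) - 1) + 1 := by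
        have h3 : (q : ℝ) - 1 ≠ 0 := by linarith
        have h4 : (q : ℝ) ≠ 0 := by linarith
        field_simp
        ring
      rw [e]
      exact Real.add_one_le_exp _
  refine h2'.trans ?_
  rw [← Real.exp_sum]
  have h3 : ∑ q ∈ S, 1 / ((q : ℝ) - 1) ≤ 1 / 2 * Real.log (Real.log N) + K + 1 := by
    have e : ∑ q ∈ S, 1 / ((q : ℝ) - 1) = ∑ q ∈ S, 1 / (q : ℝ) + ∑ q ∈ S, (1 / ((q : ℝ) - 1) - 1 / (q : ℝ)) := by
      rw [← sum_add_distrib]
      apply sum_congr rfl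
      intro q _
      ring
    have h4 : ∑ q ∈ S, (1 / ((q : ℝ) - 1) - 1 / (q : ℝ)) ≤ ∑ q ∈ Icc 2 (N + 1), (1 / ((q : ℝ) - 1) - 1 / (q : ℝ)) := by
      apply sum_le_sum_of_subset_of_nonneg
      · intro q hq
        have := mem_Icc.1 (mem_filter.1 hq).1
        rw [mem_Icc]
        omega
      · intro q hq _
        have hq2 : (2 : ℝ) ≤ q := by exact_mod_cast (mem_Icc.1 hq).1
        have : 1 / (q : ℝ) ≤ 1 / ((q : ℝ) - 1) := one_div_le_one_div_of_le (by linarith) (by linarith)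
        linarith
    have h5 := sum_tel N
    have h6 : 0 ≤ 1 / ((N : ℝ) + 1) := by positivity
    have h7 := hP N h2
    rw [e]
    linarith
  have h4 : Real.exp (∑ q ∈ S, 1 / ((q : ℝ) - 1)) ≤ Real.exp (K + 1) * √(Real.log N) := by
    refine (Real.exp_le_exp.2 h3).trans (le_of_eq ?_)
    rw [Real.sqrt_eq_rpow, Real.rpow_def_of_pos hlog, ← Real.exp_add]
    congr 1
    ring
  refine h4.trans ?_
  apply mul_le_mul_of_nonneg_left _ (Real.exp_pos _).le
  exact Real.sqrt_le_sqrt (by linarith)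

/-- the inequality of Hall and Tenenbaum for the indicator function -/
theorem hall (P : ℕ → Prop) (x : ℕ) :
    ∑ n ∈ DD P x, Real.log n ≤ (Real.log 4 + 4) * x * ∑ m ∈ DD P x, (m : ℝ)⁻¹ := by
  classical
  let w : ℕ → ℝ := fun n => if Dm P n then 1 else 0
  have hw0 : ∀ n, 0 ≤ w n := fun n => by simp only [w]; split_ifs <;> norm_num
  let G : ArithmeticFunction ℝ := ⟨fun m => if m = 0 then 0 else w m, by simp⟩
  have hG : ∀ m, m ≠ 0 → G m = w m := fun m hm => by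
    change (if m = 0 then 0 else w m) = _
    rw [if_neg hm]
  have h1 := ArithmeticFunction.sum_Ioc_mul_eq_sum_sum G ArithmeticFunction.vonMangoldt x
  have h2 : ∀ n ∈ Ioc 0 x, w n * Real.log n ≤ (G * ArithmeticFunction.vonMangoldt) n := by
    intro n hn
    rw [mem_Ioc] at hn
    rw [ArithmeticFunction.mul_apply, ← ArithmeticFunction.vonMangoldt_sum, mul_sum,
      Nat.sum_divisorsAntidiagonal' (fun a b => G a * ArithmeticFunction.vonMangoldt b)]
    refine sum_le_sum (fun d hd => ?_)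
    rw [Nat.mem_divisors] at hd
    obtain ⟨⟨m, hm⟩, hn0⟩ := hd
    have hd0 : 0 < d := Nat.pos_of_ne_zero (by rintro rfl; simp at hm; exact hn0 hm)
    have hmn : n / d = m := by rw [hm]; exact Nat.mul_div_cancel_left m hd0
    rw [hmn]
    have hm0 : m ≠ 0 := by rintro rfl; simp at hm; exact hn0 hm
    rw [hG m hm0]
    apply mul_le_mul_of_nonneg_right _ ArithmeticFunction.vonMangoldt_nonneg
    simp only [w]
    by_cases hD : Dm P n
    · rw [if_pos hD, if_pos (hD.of_dvd ⟨d, by rw [hm]; ring⟩)]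
    · rw [if_neg hD]
      exact hw0 m
  have e1 : ∑ n ∈ DD P x, Real.log n = ∑ n ∈ Ioc 0 x, w n * Real.log n := by
    unfold DD
    rw [sum_filter]
    have e2 : Icc 1 x = Ioc 0 x := by ext; simp [mem_Icc, mem_Ioc]; omega
    rw [e2]
    apply sum_congr rfl
    intro n _
    simp only [w]
    split_ifs <;> simp
  have e2 : ∑ n ∈ DD P x, (n : ℝ)⁻¹ = ∑ n ∈ Ioc 0 x, w n * (n : ℝ)⁻¹ := by
    unfold DD
    rw [sum_filter]
    have e2 : Icc 1 x = Ioc 0 x := by ext; simp [mem_Icc, mem_Ioc]; omega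
    rw [e2]
    apply sum_congr rfl
    intro n _
    simp only [w]
    split_ifs <;> simp
  rw [e1, e2]
  refine (sum_le_sum h2).trans ?_
  rw [h1, mul_sum]
  refine sum_le_sum (fun m hm => ?_)
  rw [mem_Ioc] at hm
  rw [hG m (by omega)]
  have h3 : ∑ k ∈ Ioc 0 (x / m), ArithmeticFunction.vonMangoldt k =
      Chebyshev.psi ((x / m : ℕ) : ℝ) := by
    rw [Chebyshev.psi, Nat.floor_natCast]
  rw [h3]
  have h4 := Chebyshev.psi_le_const_mul_self (x := ((x / m : ℕ) : ℝ)) (Nat.cast_nonneg _)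
  have h5 : ((x / m : ℕ) : ℝ) ≤ (x : ℝ) / m := Nat.cast_div_le
  have hc : 0 ≤ Real.log 4 + 4 := by
    have : 0 ≤ Real.log 4 := Real.log_nonneg (by norm_num)
    linarith
  calc w m * Chebyshev.psi ((x / m : ℕ) : ℝ)
      ≤ w m * ((Real.log 4 + 4) * ((x : ℝ) / m)) := by
        refine mul_le_mul_of_nonneg_left (h4.trans ?_) (hw0 m)
        exact mul_le_mul_of_nonneg_left h5 hc
    _ = (Real.log 4 + 4) * x * (w m * (m : ℝ)⁻¹) := by ring

end Pool.Agent.TH890.DV
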