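import Pool.Agent.TH890.DV.A1

/-!
Distinct values (helper890), part 2: the number of the integers composed of the primes of a set of
density one half, and of pairs of such integers with bounded product.
-/

set_option autoImplicit false

namespace Pool.Agent.TH890.DV

open Finset

/-- `1 + log N` -/
noncomputable def ell (N : ℕ) : ℝ := 1 + Real.log N

lemma ell_ge (N : ℕ) : 1 ≤ ell N := by
  unfold ell
  linarith [Real.log_natCast_nonneg N]

lemma ell_pos (N : ℕ) : 0 < ell N := lt_of_lt_of_le one_pos (ell_ge N)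

lemma ell_mono {m n : ℕ} (hm : 1 ≤ m) (h : m ≤ n) : ell m ≤ ell n := by
  unfold ell
  have := Real.log_le_log (by exact_mod_cast hm) (show (m : ℝ) ≤ n by exact_mod_cast h)
  linarith

/-- the square root of `N` is small -/
lemma sqrt_small (N : ℕ) (hN : 1 ≤ N) : √(N : ℝ) * √(ell N) ≤ 2 * N := by
  have hN0 : (0 : ℝ) < N := by exact_mod_cast hN
  have hN1 : (1 : ℝ) ≤ N := by exact_mod_cast hN
  have h1 : ell N ≤ N := by
    unfold ell
    have := Real.log_le_sub_one_of_pos hN0
    linarith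
  calc √(N : ℝ) * √(ell N) ≤ √(N : ℝ) * √(N : ℝ) :=
        mul_le_mul_of_nonneg_left (Real.sqrt_le_sqrt h1) (Real.sqrt_nonneg _)
    _ = N := Real.mul_self_sqrt hN0.le
    _ ≤ 2 * N := by linarith

/-- the number of the elements up to `N` -/
theorem card_DD {P : ℕ → Prop} (hP : Half P) : ∃ C : ℝ, 1 ≤ C ∧ ∀ N : ℕ, 1 ≤ N →
    ((DD P N).card : ℝ) ≤ C * N / √(ell N) := by
  classical
  obtain ⟨C, hC, hrec⟩ := recip hP
  have hl4 : 0 ≤ Real.log 4 := Real.log_nonneg (by norm_num)
  refine ⟨8 + 8 * (Real.log 4 + 4) * C, by nlinarith, fun N hN => ?_⟩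
  have hN0 : (0 : ℝ) < N := by exact_mod_cast hN
  have hL := ell_ge N
  have hL0 := ell_pos N
  have hs0 : 0 < √(ell N) := Real.sqrt_pos.2 hL0
  rw [le_div_iff₀ hs0]
  -- split at the square root
  set s := ⌊√(N : ℝ)⌋₊ with hs
  have h1 : ((DD P N).card : ℝ) ≤ √(N : ℝ) + (((DD P N).filter (fun n => s < n)).card : ℝ) := by
    have h2 : (DD P N).card = ((DD P N).filter (fun n => ¬ s < n)).card + ((DD P N).filter (fun n => s < n)).card := by
      rw [add_comm, card_filter_add_card_filter_not]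
    have h3 : ((DD P N).filter (fun n => ¬ s < n)).card ≤ s := by
      calc ((DD P N).filter (fun n => ¬ s < n)).card ≤ (Icc 1 s).card := by
            apply card_le_card
            intro n hn
            rw [mem_filter, mem_DD] at hn
            rw [mem_Icc]
            omega
        _ = s := by simp
    have h4 : (s : ℝ) ≤ √(N : ℝ) := Nat.floor_le (Real.sqrt_nonneg _)
    have h5 : (((DD P N).filter (fun n => ¬ s < n)).card : ℝ) ≤ s := by exact_mod_cast h3
    rw [h2]
    push_cast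
    linarith
  have h6 : (((DD P N).filter (fun n => s < n)).card : ℝ) * (ell N) ≤
      2 * ((((DD P N).filter (fun n => s < n)).card : ℝ) + ∑ n ∈ DD P N, Real.log n) := by
    have h7 : ∀ n ∈ (DD P N).filter (fun n => s < n), ell N ≤ 2 * (1 + Real.log n) := by
      intro n hn
      rw [mem_filter, mem_DD] at hn
      have h8 : √(N : ℝ) ≤ n := by
        have := Nat.lt_floor_add_one (√(N : ℝ))
        have h9 : ((s + 1 : ℕ) : ℝ) ≤ n := by exact_mod_cast hn.2
        push_cast at h9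
        linarith
      have h9 : Real.log (√(N : ℝ)) ≤ Real.log n := Real.log_le_log (Real.sqrt_pos.2 hN0) h8
      rw [Real.log_sqrt hN0.le] at h9
      unfold ell
      linarith
    calc (((DD P N).filter (fun n => s < n)).card : ℝ) * (ell N) = ∑ n ∈ (DD P N).filter (fun n => s < n), ell N := by
          rw [sum_const, nsmul_eq_mul]
      _ ≤ ∑ n ∈ (DD P N).filter (fun n => s < n), 2 * (1 + Real.log n) := sum_le_sum h7
      _ = 2 * ((((DD P N).filter (fun n => s < n)).card : ℝ) + ∑ n ∈ (DD P N).filter (fun n => s < n), Real.log n) := by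
          rw [← mul_sum, sum_add_distrib, sum_const, nsmul_eq_mul, mul_one]
      _ ≤ _ := by
          have : ∑ n ∈ (DD P N).filter (fun n => s < n), Real.log n ≤ ∑ n ∈ DD P N, Real.log n :=
            sum_le_sum_of_subset_of_nonneg (filter_subset _ _) (fun n _ _ => Real.log_natCast_nonneg n)
          linarith
  have h7 := hall P N
  have h8 := hrec N hN
  -- the trivial bound for the cardinality is enough when the logarithm is small
  set F : ℝ := (((DD P N).filter (fun n => s < n)).card : ℝ) with hF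
  have hF0 : 0 ≤ F := Nat.cast_nonneg _
  have hFN : F ≤ N := by
    have h9 : ((DD P N).filter (fun n => s < n)).card ≤ N := by
      calc ((DD P N).filter (fun n => s < n)).card ≤ (Icc 1 N).card := by
            apply card_le_card
            intro n hn
            rw [mem_filter, mem_DD] at hn
            rw [mem_Icc]
            omega
        _ = N := by simp
    rw [hF]
    exact_mod_cast h9
  have h9 : F * ell N ≤ 2 * F + 2 * ((Real.log 4 + 4) * N * (C * √(ell N))) := by
    have h10 : (Real.log 4 + 4) * N * ∑ m ∈ DD P N, (m : ℝ)⁻¹ ≤ (Real.log 4 + 4) * N * (C * √(ell N)) :=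
      mul_le_mul_of_nonneg_left h8 (by positivity)
    linarith
  have hss : √(ell N) * √(ell N) = ell N := Real.mul_self_sqrt hL0.le
  have hs1 : 1 ≤ √(ell N) := Real.one_le_sqrt.2 hL
  have h10 : F * √(ell N) ≤ 4 * N + 4 * ((Real.log 4 + 4) * N * C) := by
    rcases le_or_gt (ell N) 4 with h4 | h4
    · have h5 : √(ell N) ≤ 2 := by
        rw [Real.sqrt_le_left (by norm_num)]
        linarith
      have h6 : F * √(ell N) ≤ N * 2 := mul_le_mul hFN h5 hs0.le hN0.le
      have h7 : 0 ≤ 4 * ((Real.log 4 + 4) * N * C) := by positivity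
      linarith
    · have h5 : F * ell N ≤ 4 * ((Real.log 4 + 4) * N * (C * √(ell N))) := by
        have : 2 * F ≤ F * ell N / 2 := by nlinarith
        linarith
      have h6 : (F * √(ell N)) * √(ell N) ≤ (4 * ((Real.log 4 + 4) * N * C)) * √(ell N) := by
        calc (F * √(ell N)) * √(ell N) = F * ell N := by rw [mul_assoc, hss]
          _ ≤ _ := h5
          _ = _ := by ring
      have h7 := le_of_mul_le_mul_right h6 hs0
      have h8 : 0 ≤ 4 * (N : ℝ) := by positivity
      linarith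
  have h11 := sqrt_small N hN
  calc ((DD P N).card : ℝ) * √(ell N) ≤ (√(N : ℝ) + F) * √(ell N) := mul_le_mul_of_nonneg_right h1 hs0.le
    _ = √(N : ℝ) * √(ell N) + F * √(ell N) := by ring
    _ ≤ 2 * N + (4 * N + 4 * ((Real.log 4 + 4) * N * C)) := add_le_add h11 h10
    _ ≤ (8 + 8 * (Real.log 4 + 4) * C) * N := by
        have : 0 ≤ (Real.log 4 + 4) * C * N := by positivity
        nlinarith

/-- the number of pairs with bounded product -/
noncomputable def TT (P : ℕ → Prop) (x : ℕ) : ℕ := ∑ g ∈ DD P x, (DD P (x / g)).card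

lemma TT_sym (P : ℕ → Prop) (x : ℕ) : TT P x ≤ 2 * ∑ g ∈ (DD P x).filter (fun g => g * g ≤ x), (DD P (x / g)).card := by
  classical
  -- the set of pairs
  set S := (DD P x ×ˢ DD P x).filter (fun e => e.1 * e.2 ≤ x) with hS
  have h1 : TT P x = S.card := by
    unfold TT
    rw [← card_sigma]
    refine card_bij' (fun e _ => (e.1, e.2)) (fun e _ => ⟨e.1, e.2⟩) ?_ ?_ ?_ ?_
    · rintro ⟨g, k⟩ he
      rw [mem_sigma] at he
      simp only at he
      have hg := mem_DD.1 he.1
      have hk := mem_DD.1 he.2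
      have h2 : g * k ≤ x := by
        rw [mul_comm]
        exact (Nat.le_div_iff_mul_le (by omega)).1 hk.1.2
      rw [hS, mem_filter, mem_product]
      refine ⟨⟨he.1, mem_DD.2 ⟨⟨hk.1.1, ?_⟩, hk.2⟩⟩, h2⟩
      exact hk.1.2.trans (Nat.div_le_self _ _)
    · rintro ⟨g, k⟩ he
      rw [hS, mem_filter, mem_product] at he
      obtain ⟨⟨h2, h3⟩, h4⟩ := he
      have hg := mem_DD.1 h2
      have hk := mem_DD.1 h3
      have hg1 : 0 < g := hg.1.1
      rw [mem_sigma]
      refine ⟨h2, mem_DD.2 ⟨⟨hk.1.1, ?_⟩, hk.2⟩⟩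
      rw [Nat.le_div_iff_mul_le hg1, mul_comm]
      exact h4
    · intro e _; rfl
    · intro e _; rfl
  have h2 : ∑ g ∈ (DD P x).filter (fun g => g * g ≤ x), (DD P (x / g)).card =
      (S.filter (fun e => e.1 * e.1 ≤ x)).card := by
    rw [← card_sigma]
    refine card_bij' (fun e _ => (e.1, e.2)) (fun e _ => ⟨e.1, e.2⟩) ?_ ?_ ?_ ?_
    · rintro ⟨g, k⟩ he
      rw [mem_sigma] at he
      simp only at he
      obtain ⟨he1, he2⟩ := he
      rw [mem_filter] at he1
      have hg := mem_DD.1 he1.1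
      have hk := mem_DD.1 he2
      have h2 : g * k ≤ x := by
        rw [mul_comm]
        exact (Nat.le_div_iff_mul_le (by omega)).1 hk.1.2
      rw [mem_filter, hS, mem_filter, mem_product]
      refine ⟨⟨⟨he1.1, mem_DD.2 ⟨⟨hk.1.1, ?_⟩, hk.2⟩⟩, h2⟩, he1.2⟩
      exact hk.1.2.trans (Nat.div_le_self _ _)
    · rintro ⟨g, k⟩ he
      rw [mem_filter, hS, mem_filter, mem_product] at he
      obtain ⟨⟨⟨h2, h3⟩, h4⟩, h5⟩ := he
      have hg := mem_DD.1 h2
      have hk := mem_DD.1 h3
      have hg1 : 0 < g := hg.1.1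
      rw [mem_sigma]
      refine ⟨mem_filter.2 ⟨h2, h5⟩, mem_DD.2 ⟨⟨hk.1.1, ?_⟩, hk.2⟩⟩
      rw [Nat.le_div_iff_mul_le hg1, mul_comm]
      exact h4
    · intro e _; rfl
    · intro e _; rfl
  rw [h1, h2]
  have h3 : S ⊆ S.filter (fun e => e.1 * e.1 ≤ x) ∪ S.filter (fun e => e.2 * e.2 ≤ x) := by
    rintro ⟨g, k⟩ he
    have he' : g * k ≤ x := by
      rw [hS] at he
      exact (mem_filter.1 he).2
    rcases le_total g k with h | h
    · exact mem_union_left _ (mem_filter.2 ⟨he, (Nat.mul_le_mul_left g h).trans he'⟩)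
    · exact mem_union_right _ (mem_filter.2 ⟨he, (Nat.mul_le_mul_right k h).trans he'⟩)
  have h4 : (S.filter (fun e => e.2 * e.2 ≤ x)).card = (S.filter (fun e => e.1 * e.1 ≤ x)).card := by
    refine card_bij' (fun e _ => (e.2, e.1)) (fun e _ => (e.2, e.1)) ?_ ?_ ?_ ?_
    · rintro ⟨g, k⟩ he
      rw [mem_filter, hS, mem_filter, mem_product] at he ⊢
      obtain ⟨⟨⟨h2, h3⟩, h4⟩, h5⟩ := he
      exact ⟨⟨⟨h3, h2⟩, by rw [mul_comm]; exact h4⟩, h5⟩
    · rintro ⟨g, k⟩ he
      rw [mem_filter, hS, mem_filter, mem_product] at he ⊢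
      obtain ⟨⟨⟨h2, h3⟩, h4⟩, h5⟩ := he
      exact ⟨⟨⟨h3, h2⟩, by rw [mul_comm]; exact h4⟩, h5⟩
    · intro e _; rfl
    · intro e _; rfl
  have h5 := (card_le_card h3).trans (card_union_le _ _)
  omega

theorem TT_le {P : ℕ → Prop} (hP : Half P) : ∃ C : ℝ, 1 ≤ C ∧ ∀ x : ℕ, (TT P x : ℝ) ≤ C * x := by
  classical
  obtain ⟨C1, hC1, hrec⟩ := recip hP
  obtain ⟨C2, hC2, hcard⟩ := card_DD hP
  refine ⟨4 * C1 * C2, by nlinarith [mul_le_mul hC1 hC2 zero_le_one (by linarith)], fun x => ?_⟩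
  rcases Nat.eq_zero_or_pos x with h0 | hx
  · rw [h0]
    unfold TT DD
    simp
  have hx0 : (0 : ℝ) < x := by exact_mod_cast hx
  have h1 := TT_sym P x
  have h1r : (TT P x : ℝ) ≤ 2 * ∑ g ∈ (DD P x).filter (fun g => g * g ≤ x), ((DD P (x / g)).card : ℝ) := by
    exact_mod_cast h1
  have hL := ell_pos x
  have hs : 0 < √(ell x) := Real.sqrt_pos.2 hL
  have h2 : ∀ g ∈ (DD P x).filter (fun g => g * g ≤ x), ((DD P (x / g)).card : ℝ) ≤
      2 * C2 * x / √(ell x) * (g : ℝ)⁻¹ := by
    intro g hg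
    rw [mem_filter, mem_DD] at hg
    obtain ⟨⟨⟨hg1, hg2⟩, -⟩, hgg⟩ := hg
    have hg0 : (0 : ℝ) < g := by exact_mod_cast (by omega : 0 < g)
    have hxg : 1 ≤ x / g := (Nat.le_div_iff_mul_le (by omega)).2 (by omega)
    have h3 := hcard (x / g) hxg
    -- the logarithm
    have h4 : ell x ≤ 4 * ell (x / g) := by
      have h5 : x ≤ (x / g + 1) * (x / g + 1) := by
        have h6 : x < g * (x / g + 1) := Nat.lt_mul_div_succ x (by omega)
        have h7 : g ≤ x / g := (Nat.le_div_iff_mul_le (by omega)).2 hgg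
        calc x ≤ g * (x / g + 1) := h6.le
          _ ≤ (x / g + 1) * (x / g + 1) := Nat.mul_le_mul_right _ (by omega)
      have h8 : (x : ℝ) ≤ (2 * ((x / g : ℕ) : ℝ)) ^ 2 := by
        have h9 : (x : ℝ) ≤ (((x / g : ℕ) : ℝ) + 1) * (((x / g : ℕ) : ℝ) + 1) := by exact_mod_cast h5
        have h10 : (1 : ℝ) ≤ ((x / g : ℕ) : ℝ) := by exact_mod_cast hxg
        nlinarith
      have h10 : (1 : ℝ) ≤ ((x / g : ℕ) : ℝ) := by exact_mod_cast hxg
      have h11 := Real.log_le_log hx0 h8
      rw [Real.log_pow, Real.log_mul (by norm_num) (by linarith)] at h11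
      have h12 : Real.log 2 ≤ 1 := by linarith [Real.log_two_lt_d9]
      have h13 : 0 ≤ Real.log ((x / g : ℕ) : ℝ) := Real.log_nonneg h10
      unfold ell
      push_cast at h11
      linarith
    have h5 : √(ell x) ≤ 2 * √(ell (x / g)) := by
      have : √(4 * ell (x / g)) = 2 * √(ell (x / g)) := by
        rw [Real.sqrt_mul (by norm_num)]
        congr 1
        rw [show (4 : ℝ) = 2 ^ 2 by norm_num, Real.sqrt_sq (by norm_num)]
      rw [← this]
      exact Real.sqrt_le_sqrt h4
    have hs2 : 0 < √(ell (x / g)) := Real.sqrt_pos.2 (ell_pos _)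
    have h6 : ((x / g : ℕ) : ℝ) ≤ (x : ℝ) / g := Nat.cast_div_le
    refine h3.trans ?_
    calc C2 * ((x / g : ℕ) : ℝ) / √(ell (x / g)) ≤ C2 * ((x : ℝ) / g) / √(ell (x / g)) := by gcongr
      _ ≤ C2 * ((x : ℝ) / g) * (2 / √(ell x)) := by
          rw [div_eq_mul_inv]
          apply mul_le_mul_of_nonneg_left _ (by positivity)
          rw [inv_eq_one_div, div_le_div_iff₀ hs2 hs]
          linarith
      _ = _ := by field_simp
  have h3 := sum_le_sum h2
  rw [← mul_sum] at h3
  have h4 : ∑ g ∈ (DD P x).filter (fun g => g * g ≤ x), (g : ℝ)⁻¹ ≤ C1 * √(ell x) := by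
    refine le_trans ?_ (hrec x hx)
    exact sum_le_sum_of_subset_of_nonneg (filter_subset _ _) (fun _ _ _ => by positivity)
  calc (TT P x : ℝ) ≤ 2 * ∑ g ∈ (DD P x).filter (fun g => g * g ≤ x), ((DD P (x / g)).card : ℝ) := h1r
    _ ≤ 2 * (2 * C2 * x / √(ell x) * (C1 * √(ell x))) := by
        apply mul_le_mul_of_nonneg_left _ (by norm_num)
        exact h3.trans (mul_le_mul_of_nonneg_left h4 (by positivity))
    _ = 4 * C1 * C2 * x := by field_simp; ring

end Pool.Agent.TH890.DV
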