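import Pool.Agent.TH890.DV.A2

/-!
Distinct values (helper890), part 3: the average number of pairs of divisors of the same size, over the
integers composed of the primes of a set of density one half.
-/

set_option autoImplicit false

namespace Pool.Agent.TH890.DV

open Finset

/-- the number of pairs of divisors of the same size -/
def Qs (d : ℕ) : ℕ := ((d.divisors ×ˢ d.divisors).filter (fun e => Nat.log 2 e.1 = Nat.log 2 e.2)).card

lemma lt_two_mul {a b : ℕ} (hb : b ≠ 0) (h : Nat.log 2 a = Nat.log 2 b) : a < 2 * b := by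
  have h1 : a < 2 ^ (Nat.log 2 a + 1) := Nat.lt_pow_succ_log_self (by norm_num) a
  have h2 : 2 ^ (Nat.log 2 b) ≤ b := Nat.pow_log_le_self 2 hb
  rw [h, pow_succ] at h1
  omega

/-- the pairs of comparable integers -/
noncomputable def CP (P : ℕ → Prop) (X : ℕ) : Finset (ℕ × ℕ) :=
  (DD P X ×ˢ DD P X).filter (fun e => e.1 < 2 * e.2 ∧ e.2 < 2 * e.1)

theorem sum_Qs_le (P : ℕ → Prop) (X : ℕ) :
    ∑ d ∈ DD P X, Qs d ≤ ∑ e ∈ CP P X, TT P (X / (e.1 * e.2)) := by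
  classical
  unfold Qs TT
  simp only [← card_sigma]
  refine card_le_card_of_injOn (fun z => ⟨(z.2.1 / Nat.gcd z.2.1 z.2.2, z.2.2 / Nat.gcd z.2.1 z.2.2),
    ⟨Nat.gcd z.2.1 z.2.2, z.1 / (Nat.gcd z.2.1 z.2.2 * (z.2.1 / Nat.gcd z.2.1 z.2.2 *
      (z.2.2 / Nat.gcd z.2.1 z.2.2)))⟩⟩) ?_ ?_
  · rintro ⟨d, a, b⟩ hz
    rw [mem_coe, mem_sigma, mem_filter, mem_product, Nat.mem_divisors, Nat.mem_divisors] at hz
    obtain ⟨hd, ⟨⟨had, hd0⟩, hbd, -⟩, hlog⟩ := hz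
    simp only at hd had hbd hlog hd0
    have hd' := mem_DD.1 hd
    obtain ⟨⟨hd1, hdX⟩, hdm⟩ := hd'
    have ha0 : a ≠ 0 := fun h => hd0 (by rw [h] at had; exact zero_dvd_iff.1 had)
    have hb0 : b ≠ 0 := fun h => hd0 (by rw [h] at hbd; exact zero_dvd_iff.1 hbd)
    have hg : 0 < Nat.gcd a b := Nat.gcd_pos_of_pos_left _ (by omega)
    obtain ⟨g, α, β, hg0, hcop, ea, eb⟩ := Nat.exists_coprime' hg
    have eg : Nat.gcd a b = g := by
      rw [ea, eb, Nat.gcd_mul_right, hcop.gcd_eq_one, one_mul]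
    rw [mem_coe]
    simp only
    rw [eg, ea, eb, Nat.mul_div_cancel _ hg0, Nat.mul_div_cancel _ hg0]
    have hα0 : 0 < α := Nat.pos_of_ne_zero (fun h => ha0 (by rw [ea, h, zero_mul]))
    have hβ0 : 0 < β := Nat.pos_of_ne_zero (fun h => hb0 (by rw [eb, h, zero_mul]))
    have hlcm : g * (α * β) ∣ d := by
      have h1 : Nat.lcm a b ∣ d := Nat.lcm_dvd had hbd
      have h2 : Nat.lcm a b = g * (α * β) := by
        rw [ea, eb, Nat.lcm_mul_right, hcop.lcm_eq_mul]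
        ring
      rwa [h2] at h1
    obtain ⟨k, hk⟩ := hlcm
    have hpos : 0 < g * (α * β) := by positivity
    have hk0 : 0 < k := Nat.pos_of_ne_zero (fun h => hd0 (by rw [hk, h, mul_zero]))
    have hkk : d / (g * (α * β)) = k := by
      rw [hk, Nat.mul_div_cancel_left _ hpos]
    rw [hkk]
    have hαd : α ∣ d := ⟨g * β * k, by rw [hk]; ring⟩
    have hβd : β ∣ d := ⟨g * α * k, by rw [hk]; ring⟩
    have hgd : g ∣ d := ⟨α * β * k, by rw [hk]; ring⟩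
    have hkd : k ∣ d := ⟨g * (α * β), by rw [hk]; ring⟩
    have hle : ∀ m : ℕ, m ∣ d → m ≤ X := fun m hm => (Nat.le_of_dvd (by omega) hm).trans hdX
    rw [mem_sigma, mem_sigma]
    refine ⟨?_, ?_, ?_⟩
    · unfold CP
      rw [mem_filter, mem_product]
      refine ⟨⟨mem_DD.2 ⟨⟨hα0, hle _ hαd⟩, hdm.of_dvd hαd⟩, mem_DD.2 ⟨⟨hβ0, hle _ hβd⟩, hdm.of_dvd hβd⟩⟩, ?_, ?_⟩
      · have h1 := lt_two_mul hb0 hlog
        rw [ea, eb] at h1
        have h2 : α * g < (2 * β) * g := by linarith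
        exact lt_of_mul_lt_mul_right h2 (Nat.zero_le _)
      · have h1 := lt_two_mul ha0 hlog.symm
        rw [ea, eb] at h1
        have h2 : β * g < (2 * α) * g := by linarith
        exact lt_of_mul_lt_mul_right h2 (Nat.zero_le _)
    · simp only
      refine mem_DD.2 ⟨⟨hg0, ?_⟩, hdm.of_dvd hgd⟩
      rw [Nat.le_div_iff_mul_le (by positivity)]
      exact hle _ ⟨k, hk⟩
    · simp only
      refine mem_DD.2 ⟨⟨hk0, ?_⟩, hdm.of_dvd hkd⟩
      rw [Nat.le_div_iff_mul_le hg0, Nat.le_div_iff_mul_le (by positivity)]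
      calc k * g * (α * β) = d := by rw [hk]; ring
        _ ≤ X := hdX
  · rintro ⟨d, a, b⟩ hz ⟨d', a', b'⟩ hz' heq
    rw [mem_coe, mem_sigma, mem_filter, mem_product, Nat.mem_divisors, Nat.mem_divisors] at hz hz'
    obtain ⟨hd, ⟨⟨had, hd0⟩, hbd, -⟩, hlog⟩ := hz
    obtain ⟨hd', ⟨⟨had', hd0'⟩, hbd', -⟩, hlog'⟩ := hz'
    simp only at hd had hbd hlog hd0 hd' had' hbd' hlog' hd0'
    have key : ∀ d a b : ℕ, a ∣ d → b ∣ d → d ≠ 0 → a = a / Nat.gcd a b * Nat.gcd a b ∧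
        b = b / Nat.gcd a b * Nat.gcd a b ∧ d = d / (Nat.gcd a b * (a / Nat.gcd a b * (b / Nat.gcd a b))) *
          (Nat.gcd a b * (a / Nat.gcd a b * (b / Nat.gcd a b))) := by
      intro d a b h1 h2 h3
      refine ⟨(Nat.div_mul_cancel (Nat.gcd_dvd_left a b)).symm,
        (Nat.div_mul_cancel (Nat.gcd_dvd_right a b)).symm, ?_⟩
      have ha0 : a ≠ 0 := fun h => h3 (by rw [h] at h1; exact zero_dvd_iff.1 h1)
      have hg : 0 < Nat.gcd a b := Nat.gcd_pos_of_pos_left _ (by omega)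
      have h4 : Nat.gcd a b * (a / Nat.gcd a b * (b / Nat.gcd a b)) = Nat.lcm a b := by
        obtain ⟨g, α, β, hg0, hcop, ea, eb⟩ := Nat.exists_coprime' hg
        have eg : Nat.gcd a b = g := by
          rw [ea, eb, Nat.gcd_mul_right, hcop.gcd_eq_one, one_mul]
        rw [eg, ea, eb, Nat.mul_div_cancel _ hg0, Nat.mul_div_cancel _ hg0, Nat.lcm_mul_right, hcop.lcm_eq_mul]
        ring
      rw [h4]
      exact (Nat.div_mul_cancel (Nat.lcm_dvd h1 h2)).symm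
    obtain ⟨k1, k2, k3⟩ := key d a b had hbd hd0
    obtain ⟨l1, l2, l3⟩ := key d' a' b' had' hbd' hd0'
    simp only [Sigma.mk.injEq, Prod.mk.injEq, heq_eq_eq] at heq
    obtain ⟨⟨h1, h2⟩, h3, h4⟩ := heq
    have ea : a = a' := by rw [k1, l1, h1, h3]
    have eb : b = b' := by rw [k2, l2, h2, h3]
    have ed : d = d' := by rw [k3, l3, h4, h1, h2, h3]
    subst ea eb ed
    rfl

lemma sum_harm (J : ℕ) : ∑ j ∈ range J, 1 / ((j : ℝ) + 1) ≤ 1 + Real.log (1 + J) := by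
  have h1 := harmonic_le_one_add_log J
  have h2 : ((harmonic J : ℚ) : ℝ) = ∑ j ∈ range J, 1 / ((j : ℝ) + 1) := by
    unfold harmonic
    push_cast
    refine sum_congr rfl fun j _ => ?_
    rw [one_div]
  rw [h2] at h1
  refine h1.trans ?_
  rcases Nat.eq_zero_or_pos J with h | h
  · rw [h]; simp
  · have h3 : (0 : ℝ) < J := by exact_mod_cast h
    have := Real.log_le_log h3 (by linarith : (J : ℝ) ≤ 1 + J)
    linarith

theorem sum_inv_ell {P : ℕ → Prop} (hP : Half P) : ∃ C : ℝ, 1 ≤ C ∧ ∀ X : ℕ,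
    ∑ α ∈ DD P X, 1 / ((α : ℝ) * √(ell α)) ≤ C * (1 + Real.log (2 + Nat.log 2 X)) := by
  classical
  obtain ⟨C2, hC2, hcard⟩ := card_DD hP
  refine ⟨4 * C2, by linarith, fun X => ?_⟩
  have hmaps : ∀ α ∈ DD P X, Nat.log 2 α ∈ range (Nat.log 2 X + 1) := by
    intro α hα
    rw [mem_DD] at hα
    rw [mem_range]
    exact Nat.lt_succ_of_le (Nat.log_mono_right hα.1.2)
  rw [← sum_fiberwise_of_maps_to hmaps]
  have h1 : ∀ j ∈ range (Nat.log 2 X + 1), ∑ α ∈ (DD P X).filter (fun α => Nat.log 2 α = j),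
      1 / ((α : ℝ) * √(ell α)) ≤ 4 * C2 * (1 / ((j : ℝ) + 1)) := by
    intro j _
    have hpj : (0 : ℝ) < 2 ^ j := by positivity
    have hell : 0 < √(ell (2 ^ j)) := Real.sqrt_pos.2 (ell_pos _)
    have h2 : ∀ α ∈ (DD P X).filter (fun α => Nat.log 2 α = j),
        1 / ((α : ℝ) * √(ell α)) ≤ 1 / ((2 : ℝ) ^ j * √(ell (2 ^ j))) := by
      intro α hα
      rw [mem_filter, mem_DD] at hα
      obtain ⟨⟨⟨h3, h4⟩, h5⟩, h6⟩ := hα
      have h7 : 2 ^ j ≤ α := by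
        rw [← h6]
        exact Nat.pow_log_le_self 2 (by omega)
      have h7' : (2 : ℝ) ^ j ≤ α := by exact_mod_cast h7
      apply one_div_le_one_div_of_le (by positivity)
      apply mul_le_mul h7' _ hell.le (by positivity)
      exact Real.sqrt_le_sqrt (ell_mono Nat.one_le_two_pow h7)
    refine (sum_le_sum h2).trans ?_
    rw [sum_const, nsmul_eq_mul]
    have h3 : (((DD P X).filter (fun α => Nat.log 2 α = j)).card : ℝ) ≤
        C2 * ((2 ^ (j + 1) : ℕ) : ℝ) / √(ell (2 ^ (j + 1))) := by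
      refine le_trans ?_ (hcard (2 ^ (j + 1)) Nat.one_le_two_pow)
      have : (DD P X).filter (fun α => Nat.log 2 α = j) ⊆ DD P (2 ^ (j + 1)) := by
        intro α hα
        rw [mem_filter, mem_DD] at hα
        obtain ⟨⟨⟨h3, h4⟩, h5⟩, h6⟩ := hα
        rw [mem_DD]
        refine ⟨⟨h3, ?_⟩, h5⟩
        rw [← h6]
        exact (Nat.lt_pow_succ_log_self (by norm_num) α).le
      exact_mod_cast card_le_card this
    have h4 : √(ell (2 ^ j)) ≤ √(ell (2 ^ (j + 1))) :=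
      Real.sqrt_le_sqrt (ell_mono Nat.one_le_two_pow (Nat.pow_le_pow_right (by norm_num) (by omega)))
    have h5 : C2 * ((2 ^ (j + 1) : ℕ) : ℝ) / √(ell (2 ^ (j + 1))) ≤ C2 * (2 * 2 ^ j) / √(ell (2 ^ j)) := by
      push_cast
      rw [pow_succ]
      have : (2 : ℝ) ^ j * 2 = 2 * 2 ^ j := by ring
      rw [this]
      exact div_le_div_of_nonneg_left (by positivity) hell h4
    have h6 : ((j : ℝ) + 1) / 2 ≤ ell (2 ^ j) := by
      unfold ell
      push_cast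
      rw [Real.log_pow]
      have := Real.log_two_gt_d9
      have hj : (0 : ℝ) ≤ j := Nat.cast_nonneg _
      nlinarith
    calc (((DD P X).filter (fun α => Nat.log 2 α = j)).card : ℝ) * (1 / ((2 : ℝ) ^ j * √(ell (2 ^ j))))
        ≤ (C2 * (2 * 2 ^ j) / √(ell (2 ^ j))) * (1 / ((2 : ℝ) ^ j * √(ell (2 ^ j)))) :=
          mul_le_mul_of_nonneg_right (h3.trans h5) (by positivity)
      _ = 2 * C2 / (√(ell (2 ^ j)) * √(ell (2 ^ j))) := by field_simp
      _ = 2 * C2 / ell (2 ^ j) := by rw [Real.mul_self_sqrt (ell_pos _).le]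
      _ ≤ 2 * C2 / (((j : ℝ) + 1) / 2) := div_le_div_of_nonneg_left (by linarith) (by positivity) h6
      _ = 4 * C2 * (1 / ((j : ℝ) + 1)) := by field_simp; ring
  refine (sum_le_sum h1).trans ?_
  rw [← mul_sum]
  apply mul_le_mul_of_nonneg_left _ (by linarith)
  have h2 := sum_harm (Nat.log 2 X + 1)
  refine h2.trans (le_of_eq ?_)
  push_cast
  ring_nf

/-- the average of `Qs` -/
theorem sum_Qs {P : ℕ → Prop} (hP : Half P) : ∃ C : ℝ, 1 ≤ C ∧ ∀ X : ℕ,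
    ∑ d ∈ DD P X, (Qs d : ℝ) ≤ C * X * (1 + Real.log (2 + Nat.log 2 X)) := by
  classical
  obtain ⟨C1, hC1, hTT⟩ := TT_le hP
  obtain ⟨C2, hC2, hcard⟩ := card_DD hP
  obtain ⟨C3, hC3, hsum⟩ := sum_inv_ell hP
  refine ⟨C1 * (4 * C2) * C3, ?_, fun X => ?_⟩
  · have h1 : 1 ≤ C1 * (4 * C2) := by nlinarith
    nlinarith
  have h1 := sum_Qs_le P X
  have h1r : ∑ d ∈ DD P X, (Qs d : ℝ) ≤ ∑ e ∈ CP P X, (TT P (X / (e.1 * e.2)) : ℝ) := by
    exact_mod_cast h1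
  refine h1r.trans ?_
  have h2 : ∀ e ∈ CP P X, (TT P (X / (e.1 * e.2)) : ℝ) ≤ C1 * X * ((e.1 : ℝ)⁻¹ * (e.2 : ℝ)⁻¹) := by
    intro e _
    refine (hTT _).trans ?_
    have h3 : ((X / (e.1 * e.2) : ℕ) : ℝ) ≤ (X : ℝ) / ((e.1 * e.2 : ℕ) : ℝ) := Nat.cast_div_le
    calc C1 * ((X / (e.1 * e.2) : ℕ) : ℝ) ≤ C1 * ((X : ℝ) / ((e.1 * e.2 : ℕ) : ℝ)) := by gcongr
      _ = _ := by
          push_cast
          rw [← mul_inv, div_eq_mul_inv]
          ring
  refine (sum_le_sum h2).trans ?_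
  rw [← mul_sum]
  have h3 : ∑ e ∈ CP P X, ((e.1 : ℝ)⁻¹ * (e.2 : ℝ)⁻¹) ≤ ∑ α ∈ DD P X, 4 * C2 * (1 / ((α : ℝ) * √(ell α))) := by
    have h4 : ∑ e ∈ CP P X, ((e.1 : ℝ)⁻¹ * (e.2 : ℝ)⁻¹) =
        ∑ α ∈ DD P X, ∑ β ∈ (DD P X).filter (fun β => α < 2 * β ∧ β < 2 * α), ((α : ℝ)⁻¹ * (β : ℝ)⁻¹) := by
      unfold CP
      rw [sum_filter, sum_product]
      refine sum_congr rfl fun α _ => ?_
      rw [sum_filter]
    rw [h4]
    refine sum_le_sum fun α hα => ?_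
    have hα' := mem_DD.1 hα
    have hα0 : (0 : ℝ) < α := by exact_mod_cast (by omega : 0 < α)
    have hell : 0 < √(ell α) := Real.sqrt_pos.2 (ell_pos _)
    have h5 : ∀ β ∈ (DD P X).filter (fun β => α < 2 * β ∧ β < 2 * α), ((α : ℝ)⁻¹ * (β : ℝ)⁻¹) ≤
        (α : ℝ)⁻¹ * (2 * (α : ℝ)⁻¹) := by
      intro β hβ
      rw [mem_filter, mem_DD] at hβ
      obtain ⟨⟨⟨h6, h7⟩, h8⟩, h9, h10⟩ := hβ
      have h11 : (α : ℝ) < 2 * β := by exact_mod_cast h9
      have hβ0 : (0 : ℝ) < β := by exact_mod_cast (by omega : 0 < β)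
      apply mul_le_mul_of_nonneg_left _ (by positivity)
      rw [inv_eq_one_div, inv_eq_one_div, ← mul_div_assoc, mul_one, div_le_div_iff₀ hβ0 hα0]
      linarith
    refine (sum_le_sum h5).trans ?_
    rw [sum_const, nsmul_eq_mul]
    have h6 : (((DD P X).filter (fun β => α < 2 * β ∧ β < 2 * α)).card : ℝ) ≤ C2 * ((2 * α : ℕ) : ℝ) / √(ell (2 * α)) := by
      refine le_trans ?_ (hcard (2 * α) (by omega))
      have : (DD P X).filter (fun β => α < 2 * β ∧ β < 2 * α) ⊆ DD P (2 * α) := by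
        intro β hβ
        rw [mem_filter, mem_DD] at hβ
        obtain ⟨⟨⟨h6, h7⟩, h8⟩, h9, h10⟩ := hβ
        exact mem_DD.2 ⟨⟨h6, h10.le⟩, h8⟩
      exact_mod_cast card_le_card this
    have h7 : √(ell α) ≤ √(ell (2 * α)) := Real.sqrt_le_sqrt (ell_mono hα'.1.1 (by omega))
    have h8 : C2 * ((2 * α : ℕ) : ℝ) / √(ell (2 * α)) ≤ C2 * (2 * α) / √(ell α) := by
      push_cast
      exact div_le_div_of_nonneg_left (by positivity) hell h7
    calc (((DD P X).filter (fun β => α < 2 * β ∧ β < 2 * α)).card : ℝ) * ((α : ℝ)⁻¹ * (2 * (α : ℝ)⁻¹))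
        ≤ (C2 * (2 * α) / √(ell α)) * ((α : ℝ)⁻¹ * (2 * (α : ℝ)⁻¹)) :=
          mul_le_mul_of_nonneg_right (h6.trans h8) (by positivity)
      _ = 4 * C2 * (1 / ((α : ℝ) * √(ell α))) := by field_simp; ring
  rw [← mul_sum] at h3
  calc C1 * X * ∑ e ∈ CP P X, ((e.1 : ℝ)⁻¹ * (e.2 : ℝ)⁻¹)
      ≤ C1 * X * (4 * C2 * (C3 * (1 + Real.log (2 + Nat.log 2 X)))) := by
        apply mul_le_mul_of_nonneg_left _ (by positivity)
        exact h3.trans (mul_le_mul_of_nonneg_left (hsum X) (by linarith))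
    _ = _ := by ring

end Pool.Agent.TH890.DV
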