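import Pool.Agent.TH890.DV.A3
import Pool.Agent.W78.GT.Basic

/-!
Distinct values (helper890), part 4: the number of the roots of a quadratic polynomial for one modulus.
-/

set_option autoImplicit false

namespace Pool.Agent.TH890.DV

open Finset
open Pool.Agent.W78.GT

lemma unit_ext {g h g' h' : ℕ} (e : g * h = g' * h') (hc : Nat.Coprime g h)
    (hc' : Nat.Coprime g' h') (h0 : g * h ≠ 0) (hp : g.primeFactors = g'.primeFactors) : g = g' := by
  have hg : g ≠ 0 := left_ne_zero_of_mul h0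
  have hh : h ≠ 0 := right_ne_zero_of_mul h0
  have h0' := h0
  rw [e] at h0'
  have hg' : g' ≠ 0 := left_ne_zero_of_mul h0'
  have hh' : h' ≠ 0 := right_ne_zero_of_mul h0'
  apply Nat.dvd_antisymm
  · have h1 : Nat.Coprime g h' := by
      rw [← Nat.disjoint_primeFactors hg hh', hp, Nat.disjoint_primeFactors hg' hh']
      exact hc'
    exact h1.dvd_of_dvd_mul_right (Dvd.intro _ e)
  · have h1 : Nat.Coprime g' h := by
      rw [← Nat.disjoint_primeFactors hg' hh, ← hp, Nat.disjoint_primeFactors hg hh]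
      exact hc
    exact h1.dvd_of_dvd_mul_right (Dvd.intro _ e.symm)

variable {t c : ℤ}

lemma str {d : ℕ} {x₀ x : ℤ} (h0 : (d : ℤ) ∣ Qp t c x₀) (hx : (d : ℤ) ∣ Qp t c x) :
    d ∣ Nat.gcd d (x - x₀).natAbs * Nat.gcd d (x + x₀ + t).natAbs ∧
    Nat.gcd (Nat.gcd d (x - x₀).natAbs) (Nat.gcd d (x + x₀ + t).natAbs) ∣ (t ^ 2 - 4 * c).natAbs := by
  constructor
  · have h1 : (d : ℤ) ∣ (x - x₀) * (x + x₀ + t) := by
      have : (x - x₀) * (x + x₀ + t) = Qp t c x - Qp t c x₀ := by unfold Qp; ring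
      rw [this]
      exact dvd_sub hx h0
    have h2 : d ∣ (x - x₀).natAbs * (x + x₀ + t).natAbs := by
      rw [← Int.natAbs_mul]
      exact Int.natCast_dvd.1 h1
    have h3 := Nat.gcd_mul_right_dvd_mul_gcd d (x - x₀).natAbs (x + x₀ + t).natAbs
    rwa [Nat.gcd_eq_left h2] at h3
  · set k := Nat.gcd (Nat.gcd d (x - x₀).natAbs) (Nat.gcd d (x + x₀ + t).natAbs) with hk
    have k1 : k ∣ d := (Nat.gcd_dvd_left _ _).trans (Nat.gcd_dvd_left _ _)
    have k2 : (k : ℤ) ∣ x - x₀ := Int.natCast_dvd.2 ((Nat.gcd_dvd_left _ _).trans (Nat.gcd_dvd_right _ _))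
    have k3 : (k : ℤ) ∣ x + x₀ + t := Int.natCast_dvd.2 ((Nat.gcd_dvd_right _ _).trans (Nat.gcd_dvd_right _ _))
    have k4 : (k : ℤ) ∣ 2 * x₀ + t := by
      have := dvd_sub k3 k2
      have e : x + x₀ + t - (x - x₀) = 2 * x₀ + t := by ring
      rwa [e] at this
    have k5 : (k : ℤ) ∣ Qp t c x₀ := (Int.natCast_dvd_natCast.2 k1).trans h0
    apply Int.natCast_dvd.1
    have e : t ^ 2 - 4 * c = (2 * x₀ + t) * (2 * x₀ + t) - 4 * Qp t c x₀ := by unfold Qp; ring
    rw [e]
    exact dvd_sub (dvd_mul_of_dvd_left k4 _) (dvd_mul_of_dvd_right k5 _)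

theorem root_count (hD : t ^ 2 - 4 * c ≠ 0) {d : ℕ} (hd : 1 ≤ d) (S : Finset ℤ)
    (hS : ∀ r ∈ S, 0 ≤ r ∧ r < d ∧ (d : ℤ) ∣ Qp t c r) :
    S.card ≤ (t ^ 2 - 4 * c).natAbs.divisors.card * ((t ^ 2 - 4 * c).natAbs.divisors.card *
      (2 ^ d.primeFactors.card * (t ^ 2 - 4 * c).natAbs)) := by
  classical
  rcases S.eq_empty_or_nonempty with h0 | ⟨x₀, hx₀⟩
  · rw [h0, card_empty]; exact Nat.zero_le _
  obtain ⟨-, -, hr0⟩ := hS x₀ hx₀
  set D := (t ^ 2 - 4 * c).natAbs with hDD
  have hDpos : 0 < D := Int.natAbs_pos.2 hD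
  set gg : ℤ → ℕ := fun x => Nat.gcd d (x - x₀).natAbs with hgg
  set hh : ℤ → ℕ := fun x => Nat.gcd d (x + x₀ + t).natAbs with hhh
  set kk : ℤ → ℕ := fun x => Nat.gcd (gg x) (hh x) with hkk
  have hgpos : ∀ x, 0 < gg x := fun x => Nat.gcd_pos_of_pos_left _ hd
  have hhpos : ∀ x, 0 < hh x := fun x => Nat.gcd_pos_of_pos_left _ hd
  have hkpos : ∀ x, 0 < kk x := fun x => Nat.gcd_pos_of_pos_left _ (hgpos x)
  have hgd : ∀ x, gg x ∣ d := fun x => Nat.gcd_dvd_left _ _
  have hhd : ∀ x, hh x ∣ d := fun x => Nat.gcd_dvd_left _ _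
  have hkd : ∀ x, kk x ∣ d := fun x => (Nat.gcd_dvd_left _ _).trans (hgd x)
  have hmk : ∀ x ∈ S, gg x * hh x / d ∣ kk x := by
    intro x hx
    obtain ⟨-, -, h2⟩ := hS x hx
    have h3 := (str hr0 h2).1
    have h4 : Nat.lcm (gg x) (hh x) ∣ d := Nat.lcm_dvd (hgd x) (hhd x)
    have h5 : gg x * hh x ∣ d * kk x := by
      rw [← Nat.gcd_mul_lcm (gg x) (hh x), mul_comm]
      exact Nat.mul_dvd_mul_right h4 _
    rw [Nat.div_dvd_iff_dvd_mul h3 hd]
    exact h5
  have hcard : S.card ≤ (D.divisors ×ˢ (D.divisors ×ˢ (d.primeFactors.powerset ×ˢ range D))).card := by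
    refine card_le_card_of_injOn (fun x => (kk x, (gg x * hh x / d,
      ((gg x / kk x).primeFactors, (x / ((d / kk x : ℕ) : ℤ)).toNat)))) ?_ ?_
    · intro x hx
      rw [mem_coe] at hx
      obtain ⟨hx0, hx1, h2⟩ := hS x hx
      have hs := str hr0 h2
      have hkD : kk x ∣ D := hs.2
      rw [mem_coe]
      simp only [mem_product, Nat.mem_divisors, mem_powerset, mem_range]
      refine ⟨⟨hkD, hDpos.ne'⟩, ⟨(hmk x hx).trans hkD, hDpos.ne'⟩, ?_, ?_⟩
      · apply Nat.primeFactors_mono _ (by omega)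
        exact (Nat.div_dvd_of_dvd (Nat.gcd_dvd_left _ _)).trans (hgd x)
      · have hk0 : 0 < kk x := hkpos x
        have hdk : 0 < d / kk x := Nat.div_pos (Nat.le_of_dvd (by omega) (hkd x)) hk0
        have hle : kk x ≤ D := Nat.le_of_dvd hDpos hkD
        have h3 : x / ((d / kk x : ℕ) : ℤ) < kk x := by
          apply Int.ediv_lt_of_lt_mul (by exact_mod_cast hdk)
          have h4 : (kk x : ℤ) * ((d / kk x : ℕ) : ℤ) = d := by
            exact_mod_cast Nat.mul_div_cancel' (hkd x)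
          rw [h4]
          exact hx1
        have h4 : 0 ≤ x / ((d / kk x : ℕ) : ℤ) := Int.ediv_nonneg hx0 (Int.natCast_nonneg _)
        omega
    · intro x hx y hy hxy
      rw [mem_coe] at hx hy
      simp only [Prod.mk.injEq] at hxy
      obtain ⟨e1, e2, e3, e4⟩ := hxy
      obtain ⟨hx0, hx1, h2⟩ := hS x hx
      obtain ⟨hy0, hy1, h2'⟩ := hS y hy
      have hsx := (str hr0 h2).1
      have hsy := (str hr0 h2').1
      have hgh : gg x * hh x = gg y * hh y := by
        have q1 : gg x * hh x / d * d = gg x * hh x := Nat.div_mul_cancel hsx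
        have q2 : gg y * hh y / d * d = gg y * hh y := Nat.div_mul_cancel hsy
        rw [← q1, ← q2, e2]
      have hgx : kk x * (gg x / kk x) = gg x := Nat.mul_div_cancel' (Nat.gcd_dvd_left _ _)
      have hhx : kk x * (hh x / kk x) = hh x := Nat.mul_div_cancel' (Nat.gcd_dvd_right _ _)
      have hgy : kk y * (gg y / kk y) = gg y := Nat.mul_div_cancel' (Nat.gcd_dvd_left _ _)
      have hhy : kk y * (hh y / kk y) = hh y := Nat.mul_div_cancel' (Nat.gcd_dvd_right _ _)
      have hcx : Nat.Coprime (gg x / kk x) (hh x / kk x) := Nat.coprime_div_gcd_div_gcd (hkpos x)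
      have hcy : Nat.Coprime (gg y / kk y) (hh y / kk y) := Nat.coprime_div_gcd_div_gcd (hkpos y)
      have hprod : (gg x / kk x) * (hh x / kk x) = (gg y / kk y) * (hh y / kk y) := by
        have q1 : kk x * kk x * ((gg x / kk x) * (hh x / kk x)) = gg x * hh x := by
          calc kk x * kk x * ((gg x / kk x) * (hh x / kk x)) = (kk x * (gg x / kk x)) * (kk x * (hh x / kk x)) := by ring
            _ = _ := by rw [hgx, hhx]
        have q2 : kk x * kk x * ((gg y / kk y) * (hh y / kk y)) = gg x * hh x := by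
          rw [e1]
          calc kk y * kk y * ((gg y / kk y) * (hh y / kk y)) = (kk y * (gg y / kk y)) * (kk y * (hh y / kk y)) := by ring
            _ = _ := by rw [hgy, hhy, hgh]
        have hkk0 : 0 < kk x * kk x := Nat.mul_pos (hkpos x) (hkpos x)
        exact Nat.eq_of_mul_eq_mul_left hkk0 (q1.trans q2.symm)
      have hne : (gg x / kk x) * (hh x / kk x) ≠ 0 := by
        intro h0
        have q1 : kk x * kk x * ((gg x / kk x) * (hh x / kk x)) = gg x * hh x := by
          calc kk x * kk x * ((gg x / kk x) * (hh x / kk x)) = (kk x * (gg x / kk x)) * (kk x * (hh x / kk x)) := by ring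
            _ = _ := by rw [hgx, hhx]
        rw [h0, mul_zero] at q1
        have := Nat.mul_pos (hgpos x) (hhpos x)
        omega
      have hgeq := unit_ext hprod hcx hcy hne e3
      have hg : gg x = gg y := by rw [← hgx, ← hgy, hgeq, e1]
      have hh' : hh x = hh y := by
        have := hgpos x
        rw [hg] at hgh
        rw [hg] at this
        exact Nat.eq_of_mul_eq_mul_left this hgh
      -- congruences
      have c1 : (gg x : ℤ) ∣ x - y := by
        have a1 : (gg x : ℤ) ∣ x - x₀ := Int.natCast_dvd.2 (Nat.gcd_dvd_right _ _)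
        have a2 : (gg x : ℤ) ∣ y - x₀ := by rw [hg]; exact Int.natCast_dvd.2 (Nat.gcd_dvd_right _ _)
        have := dvd_sub a1 a2
        have e : x - x₀ - (y - x₀) = x - y := by ring
        rwa [e] at this
      have c2 : (hh x : ℤ) ∣ x - y := by
        have a1 : (hh x : ℤ) ∣ x + x₀ + t := Int.natCast_dvd.2 (Nat.gcd_dvd_right _ _)
        have a2 : (hh x : ℤ) ∣ y + x₀ + t := by rw [hh']; exact Int.natCast_dvd.2 (Nat.gcd_dvd_right _ _)
        have := dvd_sub a1 a2
        have e : x + x₀ + t - (y + x₀ + t) = x - y := by ring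
        rwa [e] at this
      have c3 : Nat.lcm (gg x) (hh x) ∣ (x - y).natAbs := Nat.lcm_dvd (Int.natCast_dvd.1 c1) (Int.natCast_dvd.1 c2)
      have c4 : d / kk x ∣ Nat.lcm (gg x) (hh x) := by
        rw [Nat.div_dvd_iff_dvd_mul (hkd x) (hkpos x)]
        have : kk x * Nat.lcm (gg x) (hh x) = gg x * hh x := Nat.gcd_mul_lcm _ _
        rw [this]
        exact hsx
      have c5 : ((d / kk x : ℕ) : ℤ) ∣ x - y := Int.natCast_dvd.2 (c4.trans c3)
      have hdk : 0 < d / kk x := Nat.div_pos (Nat.le_of_dvd (by omega) (hkd x)) (hkpos x)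
      have hdk' : (0 : ℤ) < ((d / kk x : ℕ) : ℤ) := by exact_mod_cast hdk
      have e4' : x / ((d / kk x : ℕ) : ℤ) = y / ((d / kk x : ℕ) : ℤ) := by
        have q1 : 0 ≤ x / ((d / kk x : ℕ) : ℤ) := Int.ediv_nonneg hx0 (Int.natCast_nonneg _)
        have q2 : 0 ≤ y / ((d / kk y : ℕ) : ℤ) := Int.ediv_nonneg hy0 (Int.natCast_nonneg _)
        have q3 : x / ((d / kk x : ℕ) : ℤ) = y / ((d / kk y : ℕ) : ℤ) := by omega
        rw [q3, e1]
      have c6 : x % ((d / kk x : ℕ) : ℤ) = y % ((d / kk x : ℕ) : ℤ) :=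
        Int.ModEq.symm ((Int.modEq_iff_dvd).2 c5)
      have c7 := Int.mul_ediv_add_emod x ((d / kk x : ℕ) : ℤ)
      have c8 := Int.mul_ediv_add_emod y ((d / kk x : ℕ) : ℤ)
      rw [← c7, ← c8, e4', c6]
  rw [card_product, card_product, card_product, card_powerset, card_range] at hcard
  exact hcard

end Pool.Agent.TH890.DV
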