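import Pool.Agent.TH890.DV.A4
import Pool.Agent.W29.GT.Typ

/-!
Distinct values (helper890), part 5: for most roots the modulus has few pairs of divisors of the same size.
-/

set_option autoImplicit false

namespace Pool.Agent.TH890.DV

open Finset Filter
open Pool.Agent.W78.GT

variable {t c : ℤ}

/-- the primes dividing a value of the polynomial -/
def PP (t c : ℤ) (p : ℕ) : Prop := ∃ r : ℤ, (p : ℤ) ∣ Qp t c r

theorem half_of (hD : t ^ 2 - 4 * c ≠ 0) (T : ℕ → Finset (ℕ × ℤ)) (hT : ∀ (y : ℕ) (e : ℕ × ℤ), e ∈ T y ↔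
    (5 ≤ e.1 ∧ e.1 ≤ y ∧ e.1.Prime ∧ ¬ (e.1 : ℤ) ∣ t ^ 2 - 4 * c ∧ 0 ≤ e.2 ∧ e.2 < e.1 ∧
      (e.1 : ℤ) ∣ e.2 ^ 2 - t * e.2 + c))
    (hm : ∃ K : ℝ, 0 ≤ K ∧ ∀ N : ℕ, 2 ≤ N → ∑ e ∈ T N, 1 / (e.1 : ℝ) ≤ Real.log (Real.log N) + K) :
    Half (PP t c) := by
  classical
  obtain ⟨K, hK, hm⟩ := hm
  refine ⟨K / 2 + (({2, 3} ∪ (t ^ 2 - 4 * c).natAbs.primeFactors : Finset ℕ).card : ℝ), by positivity, fun N hN => ?_⟩
  have hDpos : (t ^ 2 - 4 * c).natAbs ≠ 0 := (Int.natAbs_pos.2 hD).ne'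
  set E : Finset ℕ := {2, 3} ∪ (t ^ 2 - 4 * c).natAbs.primeFactors with hE
  set G : Finset ℕ := (Icc 2 N).filter (fun p => (p.Prime ∧ PP t c p) ∧ p ∉ E) with hG
  have h1 : ∑ p ∈ (Icc 2 N).filter (fun p => p.Prime ∧ PP t c p), 1 / (p : ℝ) ≤
      ∑ p ∈ G, 1 / (p : ℝ) + ∑ p ∈ E, (1 : ℝ) := by
    have h2 : (Icc 2 N).filter (fun p => p.Prime ∧ PP t c p) ⊆ G ∪ E.filter (fun p => 1 ≤ p) := by
      intro p hp
      rw [mem_filter, mem_Icc] at hp
      by_cases h3 : p ∈ E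
      · exact mem_union_right _ (mem_filter.2 ⟨h3, by omega⟩)
      · exact mem_union_left _ (mem_filter.2 ⟨mem_Icc.2 hp.1, hp.2, h3⟩)
    calc ∑ p ∈ (Icc 2 N).filter (fun p => p.Prime ∧ PP t c p), 1 / (p : ℝ)
        ≤ ∑ p ∈ G ∪ E.filter (fun p => 1 ≤ p), 1 / (p : ℝ) :=
          sum_le_sum_of_subset_of_nonneg h2 (fun _ _ _ => by positivity)
      _ ≤ ∑ p ∈ G, 1 / (p : ℝ) + ∑ p ∈ E.filter (fun p => 1 ≤ p), 1 / (p : ℝ) := by
          have := sum_union_inter (s₁ := G) (s₂ := E.filter (fun p => 1 ≤ p)) (f := fun p : ℕ => 1 / (p : ℝ))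
          have h4 : 0 ≤ ∑ p ∈ G ∩ E.filter (fun p => 1 ≤ p), 1 / (p : ℝ) := sum_nonneg (fun _ _ => by positivity)
          linarith
      _ ≤ ∑ p ∈ G, 1 / (p : ℝ) + ∑ p ∈ E, (1 : ℝ) := by
          have h5 : ∑ p ∈ E.filter (fun p => 1 ≤ p), 1 / (p : ℝ) ≤ ∑ p ∈ E.filter (fun p => 1 ≤ p), (1 : ℝ) := by
            refine sum_le_sum fun p hp => ?_
            have hp1 : (1 : ℝ) ≤ p := by exact_mod_cast (mem_filter.1 hp).2
            rw [div_le_one (by linarith)]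
            exact hp1
          have h6 : ∑ p ∈ E.filter (fun p => 1 ≤ p), (1 : ℝ) ≤ ∑ p ∈ E, (1 : ℝ) :=
            sum_le_sum_of_subset_of_nonneg (filter_subset _ _) (fun _ _ _ => by positivity)
          linarith
  have hmaps : ∀ e ∈ T N, e.1 ∈ G := by
    intro e he
    rw [hT] at he
    obtain ⟨a1, a2, a3, a4, a5, a6, a7⟩ := he
    rw [hG, mem_filter, mem_Icc]
    refine ⟨⟨by omega, a2⟩, ⟨a3, -e.2, ?_⟩, ?_⟩
    · have e1 : Qp t c (-e.2) = e.2 ^ 2 - t * e.2 + c := by unfold Qp; ring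
      rw [e1]; exact a7
    · rw [hE, mem_union, mem_insert, mem_singleton, Nat.mem_primeFactors]
      rintro ((h | h) | h)
      · omega
      · omega
      · exact a4 (Int.natCast_dvd.2 h.2.1)
  have h2 : ∑ p ∈ G, 2 * (1 / (p : ℝ)) ≤ ∑ e ∈ T N, 1 / (e.1 : ℝ) := by
    rw [← sum_fiberwise_of_maps_to hmaps]
    refine sum_le_sum fun p hp => ?_
    rw [hG, mem_filter, mem_Icc] at hp
    obtain ⟨⟨hp1, hp2⟩, ⟨hpp, s, hs⟩, hpE⟩ := hp
    rw [hE, mem_union, mem_insert, mem_singleton, Nat.mem_primeFactors] at hpE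
    push Not at hpE
    obtain ⟨⟨hp2', hp3'⟩, hpD⟩ := hpE
    have hp5 : 5 ≤ p := by
      by_contra h5
      have h6 : p = 4 := by omega
      rw [h6] at hpp
      norm_num at hpp
    have hpD' : ¬ (p : ℤ) ∣ t ^ 2 - 4 * c := fun h => hDpos (hpD hpp (Int.natCast_dvd.1 h))
    have hp0 : (0 : ℤ) < p := by exact_mod_cast hpp.pos
    have hroot : ∀ r : ℤ, (p : ℤ) ∣ r ^ 2 - t * r + c →
        ((p, r % (p : ℤ)) : ℕ × ℤ) ∈ (T N).filter (fun e => e.1 = p) := by
      intro r hr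
      rw [mem_filter, hT]
      refine ⟨⟨hp5, hp2, hpp, hpD', Int.emod_nonneg _ hp0.ne', Int.emod_lt_of_pos _ hp0, ?_⟩, rfl⟩
      simp only
      have h3 : (p : ℤ) ∣ r - r % (p : ℤ) := Int.dvd_self_sub_emod
      have e1 : (r % (p : ℤ)) ^ 2 - t * (r % (p : ℤ)) + c =
          (r ^ 2 - t * r + c) - (r - r % (p : ℤ)) * (r + r % (p : ℤ) - t) := by ring
      rw [e1]
      exact dvd_sub hr (dvd_mul_of_dvd_left h3 _)
    have hm1 := hroot (-s) (by
      have e1 : (-s) ^ 2 - t * (-s) + c = Qp t c s := by unfold Qp; ring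
      rw [e1]; exact hs)
    have hm2 := hroot (s + t) (by
      have e1 : (s + t) ^ 2 - t * (s + t) + c = Qp t c s := by unfold Qp; ring
      rw [e1]; exact hs)
    have hne : ((p, (-s) % (p : ℤ)) : ℕ × ℤ) ≠ (p, (s + t) % (p : ℤ)) := by
      intro h
      have h3 : (-s) % (p : ℤ) = (s + t) % (p : ℤ) := (Prod.ext_iff.1 h).2
      have h4 : (p : ℤ) ∣ (s + t) - (-s) := Int.modEq_iff_dvd.1 h3
      apply hpD'
      have e1 : t ^ 2 - 4 * c = ((s + t) - (-s)) * (2 * s + t) - 4 * Qp t c s := by unfold Qp; ring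
      rw [e1]
      exact dvd_sub (dvd_mul_of_dvd_left h4 _) (dvd_mul_of_dvd_right hs _)
    have hcard : 2 ≤ ((T N).filter (fun e => e.1 = p)).card := by
      have h3 : ({(p, (-s) % (p : ℤ)), (p, (s + t) % (p : ℤ))} : Finset (ℕ × ℤ)) ⊆ (T N).filter (fun e => e.1 = p) := by
        intro e he
        rw [mem_insert, mem_singleton] at he
        rcases he with he | he <;> rw [he]
        · exact hm1
        · exact hm2
      have h4 := card_le_card h3
      rwa [card_pair hne] at h4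
    have h5 : ∑ e ∈ (T N).filter (fun e => e.1 = p), 1 / (e.1 : ℝ) =
        ∑ e ∈ (T N).filter (fun e => e.1 = p), 1 / (p : ℝ) :=
      sum_congr rfl fun e he => by rw [(mem_filter.1 he).2]
    rw [h5, sum_const, nsmul_eq_mul]
    apply mul_le_mul_of_nonneg_right _ (by positivity)
    exact_mod_cast hcard
  have h3 := hm N hN
  rw [← mul_sum] at h2
  have h4 : ∑ p ∈ E, (1 : ℝ) = (E.card : ℝ) := by rw [sum_const, nsmul_eq_mul, mul_one]
  rw [h4] at h1
  linarith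

/-- the primes of the polynomial have density one half -/
theorem half (hns : ¬ IsSquare (t ^ 2 - 4 * c)) : Half (PP t c) := by
  have hD : t ^ 2 - 4 * c ≠ 0 := fun h => hns (by rw [h]; exact IsSquare.zero)
  rcases lt_trichotomy (t ^ 2) (4 * c) with h | h | h
  · have hlat : Pool.Agent.W78.GA.S_LAT t c := Pool.Agent.W45.GA.lat h
    have hred : Pool.Agent.W78.GA.S_RED t c := Pool.Agent.W322.GA.red h
    have hlati : Pool.Agent.W78.GA.S_LATI t c := Pool.Agent.W322.GA.lati_of h hlat hred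
    exact half_of hD (Pool.Agent.W29.GA.TT t c) (fun y e => Pool.Agent.W29.GA.mem_TT)
      (Pool.Agent.W29.GA.mert_one h hlati)
  · exact absurd (by rw [h]; ring) hD
  · obtain ⟨η, U⟩ := Pool.Agent.W376.GR.unit h hns
    have hlat : Pool.Agent.W78.GR.S_LAT t c η := Pool.Agent.W398.GR.lat U
    have hred : Pool.Agent.W78.GR.S_RED t c := Pool.Agent.W880.GR.red U.disc U.nsq
    have hlati : Pool.Agent.W78.GR.S_LATI t c η := Pool.Agent.W880.GR.lati_of U hlat hred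
    exact half_of hD (Pool.Agent.W29.GR.TT t c) (fun y e => Pool.Agent.W29.GR.mem_TT)
      (Pool.Agent.W29.GR.mert_one U hlati)

lemma ev_small {A δ s : ℝ} (hδ : 0 < δ) (hs : 0 < s) :
    ∃ X₀ : ℝ, ∀ X : ℝ, X₀ ≤ X → A * (1 + Real.log (2 + 2 * Real.log X)) ≤ δ * Real.log X ^ s := by
  have h1 : ∀ᶠ L : ℝ in atTop, A * (1 + Real.log (2 + 2 * L)) ≤ δ * L ^ s := by
    have h2 : (fun L : ℝ => Real.log L) =o[atTop] (fun L : ℝ => L ^ s) := isLittleO_log_rpow_atTop hs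
    have h3 : (fun _ : ℝ => (1 : ℝ)) =o[atTop] (fun L : ℝ => L ^ s) := by
      rw [Asymptotics.isLittleO_const_left]
      right
      exact tendsto_norm_atTop_atTop.comp (tendsto_rpow_atTop hs)
    have hA : 0 < |A| + 1 := by positivity
    have h4 := h2.bound (show 0 < δ / (2 * (|A| + 1)) by positivity)
    have h5 := h3.bound (show 0 < δ / (2 * (|A| + 1) * 4) by positivity)
    filter_upwards [h4, h5, eventually_ge_atTop 1] with L g1 g2 g3
    have hL0 : (0 : ℝ) < L := by linarith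
    have hp : 0 < L ^ s := Real.rpow_pos_of_pos hL0 _
    rw [Real.norm_of_nonneg (Real.log_nonneg g3), Real.norm_of_nonneg hp.le] at g1
    rw [norm_one, Real.norm_of_nonneg hp.le] at g2
    have h6 : Real.log (2 + 2 * L) ≤ 2 + Real.log L := by
      have h7 : Real.log (2 + 2 * L) ≤ Real.log (4 * L) := Real.log_le_log (by linarith) (by linarith)
      rw [Real.log_mul (by norm_num) hL0.ne'] at h7
      have h8 : Real.log 4 ≤ 2 := by
        have : Real.log 4 = 2 * Real.log 2 := by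
          rw [show (4 : ℝ) = 2 ^ 2 by norm_num, Real.log_pow]; push_cast; ring
        rw [this]
        linarith [Real.log_two_lt_d9]
      linarith
    have h9 : 0 ≤ 1 + Real.log (2 + 2 * L) := by
      have := Real.log_nonneg (by linarith : 1 ≤ 2 + 2 * L)
      linarith
    have h10 : A * (1 + Real.log (2 + 2 * L)) ≤ (|A| + 1) * (1 + Real.log (2 + 2 * L)) :=
      mul_le_mul_of_nonneg_right (by linarith [le_abs_self A]) h9
    have h11 : (|A| + 1) * (1 + Real.log (2 + 2 * L)) ≤ (|A| + 1) * (4 * 1 + Real.log L) :=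
      mul_le_mul_of_nonneg_left (by linarith) hA.le
    have h12 : (|A| + 1) * (4 * 1 + Real.log L) ≤ (|A| + 1) * (4 * (δ / (2 * (|A| + 1) * 4) * L ^ s) + δ / (2 * (|A| + 1)) * L ^ s) :=
      mul_le_mul_of_nonneg_left (by linarith) hA.le
    have h13 : (|A| + 1) * (4 * (δ / (2 * (|A| + 1) * 4) * L ^ s) + δ / (2 * (|A| + 1)) * L ^ s) = δ * L ^ s := by
      field_simp
      ring
    linarith
  obtain ⟨x₀, hx₀⟩ := eventually_atTop.1 (Real.tendsto_log_atTop.eventually h1)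
  exact ⟨x₀, hx₀⟩

lemma log2_le {X : ℝ} (hX : 1 ≤ X) : (Nat.log 2 ⌊X⌋₊ : ℝ) ≤ 2 * Real.log X := by
  have h0 : ⌊X⌋₊ ≠ 0 := by
    have : 1 ≤ ⌊X⌋₊ := Nat.le_floor (by exact_mod_cast hX)
    omega
  have h1 : 2 ^ (Nat.log 2 ⌊X⌋₊) ≤ ⌊X⌋₊ := Nat.pow_log_le_self 2 h0
  have h2 : ((2 : ℝ) ^ (Nat.log 2 ⌊X⌋₊)) ≤ X := by
    have h3 : ((2 ^ (Nat.log 2 ⌊X⌋₊) : ℕ) : ℝ) ≤ (⌊X⌋₊ : ℝ) := by exact_mod_cast h1
    push_cast at h3
    exact h3.trans (Nat.floor_le (by linarith))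
  have h3 := Real.log_le_log (by positivity) h2
  rw [Real.log_pow] at h3
  have h4 := Real.log_two_gt_d9
  have h5 : (0 : ℝ) ≤ (Nat.log 2 ⌊X⌋₊ : ℝ) := Nat.cast_nonneg _
  nlinarith

/-- most roots have a modulus with few pairs of divisors of the same size -/
theorem few_big (hns : ¬ IsSquare (t ^ 2 - 4 * c)) (htyp : S_TYPT t c) (ε δ : ℝ) (hε : 0 < ε) (hδ : 0 < δ) :
    ∃ X₀ : ℝ, ∀ X : ℝ, X₀ ≤ X → (((rts t c X).filter (fun e =>
      Real.log X ^ (Real.log 2 + ε) < ((Qs e.1 : ℕ) : ℝ))).card : ℝ) ≤ δ * X := by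
  classical
  have hD : t ^ 2 - 4 * c ≠ 0 := fun h => hns (by rw [h]; exact IsSquare.zero)
  obtain ⟨C, hC, hQ⟩ := sum_Qs (half hns)
  set CD : ℕ := (t ^ 2 - 4 * c).natAbs.divisors.card * ((t ^ 2 - 4 * c).natAbs.divisors.card *
      (t ^ 2 - 4 * c).natAbs) with hCD
  obtain ⟨X₁, h1⟩ := htyp ε (δ / 2) hε (by positivity)
  have hl2 : Real.log 2 < 1 := by linarith [Real.log_two_lt_d9]
  have hl2' : 0 < Real.log 2 := Real.log_pos (by norm_num)
  have hs : 0 < ε * (1 - Real.log 2) := mul_pos hε (by linarith)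
  obtain ⟨X₂, h2⟩ := ev_small (A := C * CD) (show 0 < δ / 2 by positivity) hs
  refine ⟨max (max X₁ X₂) 3, fun X hX => ?_⟩
  have hX1 : X₁ ≤ X := (le_max_left _ _).trans ((le_max_left _ _).trans hX)
  have hX2 : X₂ ≤ X := (le_max_right _ _).trans ((le_max_left _ _).trans hX)
  have hX3 : 3 ≤ X := (le_max_right _ _).trans hX
  have hX0 : 0 < X := by linarith
  have hL : 0 < Real.log X := Real.log_pos (by linarith)
  set thr : ℝ := Real.log X ^ (Real.log 2 + ε) with hthr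
  have hthr0 : 0 < thr := Real.rpow_pos_of_pos hL _
  set V1 := (rts t c X).filter (fun e => (1 + ε) * Real.log (Real.log X) < ((e.1.primeFactors.card : ℕ) : ℝ)) with hV1
  set V2 := (rts t c X).filter (fun e => thr < ((Qs e.1 : ℕ) : ℝ) ∧
    ((e.1.primeFactors.card : ℕ) : ℝ) ≤ (1 + ε) * Real.log (Real.log X)) with hV2
  have hsub : (rts t c X).filter (fun e => thr < ((Qs e.1 : ℕ) : ℝ)) ⊆ V1 ∪ V2 := by
    intro e he
    rw [mem_filter] at he
    rcases lt_or_ge ((1 + ε) * Real.log (Real.log X)) ((e.1.primeFactors.card : ℕ) : ℝ) with h | h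
    · exact mem_union_left _ (mem_filter.2 ⟨he.1, h⟩)
    · exact mem_union_right _ (mem_filter.2 ⟨he.1, he.2, h⟩)
  have hc1 : (V1.card : ℝ) ≤ δ / 2 * X := h1 X hX1
  -- the moduli
  set Bd := (DD (PP t c) ⌊X⌋₊).filter (fun d => thr < ((Qs d : ℕ) : ℝ)) with hBd
  have hBc : (Bd.card : ℝ) * thr ≤ C * X * (1 + Real.log (2 + 2 * Real.log X)) := by
    have g1 : (Bd.card : ℝ) * thr ≤ ∑ d ∈ Bd, (Qs d : ℝ) := by
      rw [← nsmul_eq_mul, ← sum_const]
      exact sum_le_sum fun d hd => (mem_filter.1 hd).2.le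
    have g2 : ∑ d ∈ Bd, (Qs d : ℝ) ≤ ∑ d ∈ DD (PP t c) ⌊X⌋₊, (Qs d : ℝ) :=
      sum_le_sum_of_subset_of_nonneg (filter_subset _ _) (fun _ _ _ => Nat.cast_nonneg _)
    have g3 := hQ ⌊X⌋₊
    have g4 : (⌊X⌋₊ : ℝ) ≤ X := Nat.floor_le hX0.le
    have g5 := log2_le (show 1 ≤ X by linarith)
    have g6 : Real.log (2 + (Nat.log 2 ⌊X⌋₊ : ℝ)) ≤ Real.log (2 + 2 * Real.log X) :=
      Real.log_le_log (by positivity) (by linarith)
    have g7 : 0 ≤ Real.log (2 + (Nat.log 2 ⌊X⌋₊ : ℝ)) := by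
      apply Real.log_nonneg
      have : (0 : ℝ) ≤ (Nat.log 2 ⌊X⌋₊ : ℝ) := Nat.cast_nonneg _
      linarith
    calc (Bd.card : ℝ) * thr ≤ C * ⌊X⌋₊ * (1 + Real.log (2 + Nat.log 2 ⌊X⌋₊)) := g1.trans (g2.trans g3)
      _ ≤ C * X * (1 + Real.log (2 + 2 * Real.log X)) := by
          apply mul_le_mul _ (by linarith) (by linarith) (by positivity)
          exact mul_le_mul_of_nonneg_left g4 (by linarith)
  have hmaps : ∀ e ∈ V2, e.1 ∈ Bd := by
    intro e he
    rw [hV2, mem_filter, mem_rts] at he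
    obtain ⟨⟨a1, a2, a3, a4, a5⟩, a6, a7⟩ := he
    rw [hBd, mem_filter, mem_DD]
    refine ⟨⟨⟨a1, Nat.le_floor a2⟩, by omega, fun p _ hp => ⟨e.2, ?_⟩⟩, a6⟩
    exact (Int.natCast_dvd_natCast.2 hp).trans a3
  have hfib : ∀ d ∈ Bd, ((V2.filter (fun e => e.1 = d)).card : ℝ) ≤ CD * Real.log X ^ ((1 + ε) * Real.log 2) := by
    intro d hd
    rcases (V2.filter (fun e => e.1 = d)).eq_empty_or_nonempty with h0 | ⟨e₀, he₀⟩
    · rw [h0, card_empty, Nat.cast_zero]
      positivity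
    have hω : ((d.primeFactors.card : ℕ) : ℝ) ≤ (1 + ε) * Real.log (Real.log X) := by
      rw [mem_filter, hV2, mem_filter] at he₀
      rw [← he₀.2]
      exact he₀.1.2.2
    have hd1 : 1 ≤ d := by
      rw [hBd, mem_filter, mem_DD] at hd
      exact hd.1.1.1
    have g1 : (V2.filter (fun e => e.1 = d)).card ≤ ((V2.filter (fun e => e.1 = d)).image Prod.snd).card := by
      rw [card_image_of_injOn]
      intro x hx y hy hxy
      rw [mem_coe, mem_filter] at hx hy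
      exact Prod.ext (hx.2.trans hy.2.symm) hxy
    have g2 := root_count (t := t) (c := c) hD hd1 ((V2.filter (fun e => e.1 = d)).image Prod.snd) (by
      intro r hr
      rw [mem_image] at hr
      obtain ⟨e, he, rfl⟩ := hr
      rw [mem_filter, hV2, mem_filter, mem_rts] at he
      obtain ⟨⟨⟨a1, a2, a3, a4, a5⟩, a6, a7⟩, a8⟩ := he
      rw [a8] at a3 a5
      exact ⟨a4, a5, a3⟩)
    have g3 : ((V2.filter (fun e => e.1 = d)).card : ℝ) ≤ CD * (2 : ℝ) ^ d.primeFactors.card := by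
      have g4 := g1.trans g2
      have g5 : (t ^ 2 - 4 * c).natAbs.divisors.card * ((t ^ 2 - 4 * c).natAbs.divisors.card *
          (2 ^ d.primeFactors.card * (t ^ 2 - 4 * c).natAbs)) = CD * 2 ^ d.primeFactors.card := by
        rw [hCD]; ring
      rw [g5] at g4
      exact_mod_cast g4
    refine g3.trans (mul_le_mul_of_nonneg_left ?_ (Nat.cast_nonneg _))
    calc (2 : ℝ) ^ (d.primeFactors.card) = (2 : ℝ) ^ ((d.primeFactors.card : ℕ) : ℝ) := (Real.rpow_natCast _ _).symm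
      _ ≤ (2 : ℝ) ^ ((1 + ε) * Real.log (Real.log X)) := Real.rpow_le_rpow_of_exponent_le (by norm_num) hω
      _ = Real.log X ^ ((1 + ε) * Real.log 2) := by
          rw [Real.rpow_def_of_pos (by norm_num), Real.rpow_def_of_pos hL]
          congr 1
          ring
  have hc2 : (V2.card : ℝ) ≤ δ / 2 * X := by
    have g1 : (V2.card : ℝ) = ∑ d ∈ Bd, ((V2.filter (fun e => e.1 = d)).card : ℝ) := by
      have := card_eq_sum_card_fiberwise (s := V2) (t := Bd) (f := fun e : ℕ × ℤ => e.1) hmaps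
      rw [this]
      push_cast
      rfl
    have g2 : (V2.card : ℝ) ≤ Bd.card * (CD * Real.log X ^ ((1 + ε) * Real.log 2)) := by
      rw [g1]
      refine (sum_le_sum hfib).trans (le_of_eq ?_)
      rw [sum_const, nsmul_eq_mul]
    have hsplit : thr = Real.log X ^ ((1 + ε) * Real.log 2) * Real.log X ^ (ε * (1 - Real.log 2)) := by
      rw [hthr, ← Real.rpow_add hL]
      congr 1
      ring
    set w : ℝ := Real.log X ^ ((1 + ε) * Real.log 2) with hw
    set u : ℝ := Real.log X ^ (ε * (1 - Real.log 2)) with hu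
    have hw0 : 0 < w := Real.rpow_pos_of_pos hL _
    have hu0 : 0 < u := Real.rpow_pos_of_pos hL _
    have g3 := h2 X hX2
    have g4 : (V2.card : ℝ) * u ≤ δ / 2 * X * u := by
      calc (V2.card : ℝ) * u ≤ (Bd.card * (CD * w)) * u := mul_le_mul_of_nonneg_right g2 hu0.le
        _ = CD * (Bd.card * thr) := by rw [hsplit]; ring
        _ ≤ CD * (C * X * (1 + Real.log (2 + 2 * Real.log X))) := mul_le_mul_of_nonneg_left hBc (Nat.cast_nonneg _)
        _ = X * (C * CD * (1 + Real.log (2 + 2 * Real.log X))) := by ring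
        _ ≤ X * (δ / 2 * u) := mul_le_mul_of_nonneg_left g3 hX0.le
        _ = δ / 2 * X * u := by ring
    exact le_of_mul_le_mul_right g4 hu0
  have h3 : (((rts t c X).filter (fun e => thr < ((Qs e.1 : ℕ) : ℝ))).card : ℝ) ≤ V1.card + V2.card := by
    exact_mod_cast (card_le_card hsub).trans (card_union_le _ _)
  linarith

end Pool.Agent.TH890.DV
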