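import Pool.Agent.TH890.DV.A3

/-!
Distinct values (helper890), part 6: the number of the balanced factorizations of a product.
-/

set_option autoImplicit false

namespace Pool.Agent.TH890.DV

open Finset

/-- the divisors of size `2^j` -/
def Dj (m j : ℕ) : Finset ℕ := m.divisors.filter (fun a => Nat.log 2 a = j)

lemma sum_Dj_le (m : ℕ) (I : Finset ℕ) : ∑ j ∈ I, (Dj m j).card * (Dj m j).card ≤ Qs m := by
  classical
  simp only [← card_product, ← card_sigma]
  unfold Qs
  refine card_le_card_of_injOn (fun z => z.2) ?_ ?_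
  · rintro ⟨j, a, b⟩ hz
    rw [mem_coe, mem_sigma, mem_product] at hz
    simp only [Dj, mem_filter] at hz
    rw [mem_coe, mem_filter, mem_product]
    exact ⟨⟨hz.2.1.1, hz.2.2.1⟩, by simp only; rw [hz.2.1.2, hz.2.2.2]⟩
  · rintro ⟨j, a, b⟩ hz ⟨j', a', b'⟩ hz' h
    rw [mem_coe, mem_sigma, mem_product] at hz hz'
    simp only [Dj, mem_filter] at hz hz'
    simp only [Prod.mk.injEq] at h
    obtain ⟨h1, h2⟩ := h
    subst h1 h2
    have : j = j' := by rw [← hz.2.1.2, ← hz'.2.1.2]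
    subst this
    rfl

/-- pairs of divisors with given total size -/
lemma pairs_le (m m' s : ℕ) : ((m.divisors ×ˢ m'.divisors).filter
    (fun e => Nat.log 2 e.1 + Nat.log 2 e.2 = s)).card ≤ Qs m + Qs m' := by
  classical
  set W := (m.divisors ×ˢ m'.divisors).filter (fun e => Nat.log 2 e.1 + Nat.log 2 e.2 = s) with hW
  have hmaps : ∀ e ∈ W, Nat.log 2 e.1 ∈ range (s + 1) := by
    intro e he
    rw [hW, mem_filter] at he
    rw [mem_range]
    omega
  rw [card_eq_sum_card_fiberwise hmaps]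
  have h1 : ∀ i ∈ range (s + 1), (W.filter (fun e => Nat.log 2 e.1 = i)).card ≤
      (Dj m i).card * (Dj m i).card + (Dj m' (s - i)).card * (Dj m' (s - i)).card := by
    intro i hi
    rw [mem_range] at hi
    have h2 : W.filter (fun e => Nat.log 2 e.1 = i) ⊆ Dj m i ×ˢ Dj m' (s - i) := by
      intro e he
      rw [mem_filter, hW, mem_filter, mem_product] at he
      rw [mem_product]
      unfold Dj
      rw [mem_filter, mem_filter]
      exact ⟨⟨he.1.1.1, he.2⟩, he.1.1.2, by omega⟩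
    have h3 := card_le_card h2
    rw [card_product] at h3
    refine h3.trans ?_
    nlinarith [sq_nonneg (((Dj m i).card : ℤ) - (Dj m' (s - i)).card), Nat.mul_le_mul_left (Dj m i).card (le_refl (Dj m' (s - i)).card),
      mul_self_nonneg (((Dj m i).card : ℤ) - (Dj m' (s - i)).card),
      (by
        have h4 := two_mul_le_add_sq (Dj m i).card (Dj m' (s - i)).card
        nlinarith : (Dj m i).card * (Dj m' (s - i)).card ≤ (Dj m i).card * (Dj m i).card + (Dj m' (s - i)).card * (Dj m' (s - i)).card)]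
  refine (sum_le_sum h1).trans ?_
  rw [sum_add_distrib]
  apply Nat.add_le_add (sum_Dj_le m _)
  have h2 : ∑ i ∈ range (s + 1), (Dj m' (s - i)).card * (Dj m' (s - i)).card =
      ∑ i ∈ range (s + 1), (Dj m' i).card * (Dj m' i).card := by
    have := sum_range_reflect (fun i => (Dj m' i).card * (Dj m' i).card) (s + 1)
    rw [← this]
    refine sum_congr rfl fun i _ => ?_
    have e : s + 1 - 1 - i = s - i := by omega
    rw [e]
  rw [h2]
  exact sum_Dj_le m' _

lemma log_prod {a b : ℕ} (ha : a ≠ 0) (hb : b ≠ 0) :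
    2 ^ (Nat.log 2 a + Nat.log 2 b) ≤ a * b ∧ a * b < 2 ^ (Nat.log 2 a + Nat.log 2 b + 2) := by
  have h1 : 2 ^ Nat.log 2 a ≤ a := Nat.pow_log_le_self 2 ha
  have h2 : 2 ^ Nat.log 2 b ≤ b := Nat.pow_log_le_self 2 hb
  have h3 : a < 2 ^ (Nat.log 2 a + 1) := Nat.lt_pow_succ_log_self (by norm_num) a
  have h4 : b < 2 ^ (Nat.log 2 b + 1) := Nat.lt_pow_succ_log_self (by norm_num) b
  constructor
  · rw [pow_add]
    exact Nat.mul_le_mul h1 h2
  · have e : Nat.log 2 a + Nat.log 2 b + 2 = (Nat.log 2 a + 1) + (Nat.log 2 b + 1) := by omega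
    rw [e, pow_add]
    exact Nat.mul_lt_mul_of_lt_of_le h3 h4.le (by omega)

/-- the number of balanced factorizations -/
theorem bal_count {m m' K : ℕ} (hm : 0 < m) (hm' : 0 < m') (F : Finset ℕ)
    (hF : ∀ d ∈ F, d ∣ m * m' ∧ d * d ≤ K * (m * m') ∧ m * m' ≤ K * (d * d)) :
    F.card ≤ (2 * Nat.log 2 K + 7) * (Qs m + Qs m') := by
  classical
  rcases F.eq_empty_or_nonempty with h0 | ⟨d₁, hd₁⟩
  · rw [h0, card_empty]; exact Nat.zero_le _
  have hmm : 0 < m * m' := Nat.mul_pos hm hm'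
  set A : ℕ → ℕ := fun d => Nat.gcd d m with hA
  set B : ℕ → ℕ := fun d => d / Nat.gcd d m with hB
  have hAB : ∀ d ∈ F, A d * B d = d ∧ A d ∣ m ∧ B d ∣ m' ∧ A d ≠ 0 ∧ B d ≠ 0 ∧ K ≠ 0 := by
    intro d hd
    obtain ⟨h1, h2, h3⟩ := hF d hd
    have hd0 : 0 < d := Nat.pos_of_dvd_of_pos h1 hmm
    have hg : 0 < Nat.gcd d m := Nat.gcd_pos_of_pos_left _ hd0
    have h4 : A d * B d = d := Nat.mul_div_cancel' (Nat.gcd_dvd_left d m)
    refine ⟨h4, Nat.gcd_dvd_right d m, ?_, hg.ne', ?_, ?_⟩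
    · have h5 : Nat.Coprime (d / Nat.gcd d m) (m / Nat.gcd d m) := Nat.coprime_div_gcd_div_gcd hg
      apply h5.dvd_of_dvd_mul_left
      obtain ⟨k, hk⟩ := h1
      refine ⟨k, ?_⟩
      have h6 : Nat.gcd d m * (m / Nat.gcd d m) = m := Nat.mul_div_cancel' (Nat.gcd_dvd_right d m)
      have h7 : Nat.gcd d m * (m / Nat.gcd d m * m') = Nat.gcd d m * (d / Nat.gcd d m * k) := by
        rw [← mul_assoc, h6, hk, ← mul_assoc]
        congr 1
        exact h4.symm
      exact Nat.eq_of_mul_eq_mul_left hg h7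
    · intro h
      rw [h, mul_zero] at h4
      omega
    · intro h
      rw [h, zero_mul] at h3
      omega
  set ell' : ℕ → ℕ := fun d => Nat.log 2 (A d) + Nat.log 2 (B d) with hl
  have hcmp : ∀ d ∈ F, ∀ e ∈ F, ell' d ≤ ell' e + (Nat.log 2 K + 3) := by
    intro d hd e he
    obtain ⟨a1, a2, a3, a4, a5, a6⟩ := hAB d hd
    obtain ⟨b1, b2, b3, b4, b5, -⟩ := hAB e he
    obtain ⟨g1, g2, g3⟩ := hF d hd
    obtain ⟨f1, f2, f3⟩ := hF e he
    have h1 := (log_prod a4 a5).1
    have h2 := (log_prod b4 b5).2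
    rw [a1] at h1
    rw [b1] at h2
    by_contra hcon
    push Not at hcon
    have h3 : 2 ^ (ell' e + (Nat.log 2 K + 3)) * 2 ≤ d := by
      have : 2 ^ (ell' e + (Nat.log 2 K + 3) + 1) ≤ 2 ^ (ell' d) := Nat.pow_le_pow_right (by norm_num) (by omega)
      rw [pow_succ] at this
      exact this.trans h1
    have h4 : K < 2 ^ (Nat.log 2 K + 1) := Nat.lt_pow_succ_log_self (by norm_num) K
    have h5 : K * e < d := by
      calc K * e ≤ 2 ^ (Nat.log 2 K + 1) * 2 ^ (ell' e + 2) := Nat.mul_le_mul h4.le h2.le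
        _ = 2 ^ (ell' e + (Nat.log 2 K + 3)) := by rw [← pow_add]; congr 1; ring
        _ < 2 ^ (ell' e + (Nat.log 2 K + 3)) * 2 := by
            have : 0 < 2 ^ (ell' e + (Nat.log 2 K + 3)) := by positivity
            omega
        _ ≤ d := h3
    -- `d^2 ≤ K v ≤ K^2 e^2`
    have h6 : d * d ≤ (K * e) * (K * e) := by
      calc d * d ≤ K * (m * m') := g2
        _ ≤ K * (K * (e * e)) := Nat.mul_le_mul_left _ f3
        _ = (K * e) * (K * e) := by ring
    have h7 : (K * e) * (K * e) < d * d := Nat.mul_lt_mul'' h5 h5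
    omega
  have hmaps : ∀ d ∈ F, ell' d ∈ Icc (ell' d₁ - (Nat.log 2 K + 3)) (ell' d₁ + (Nat.log 2 K + 3)) := by
    intro d hd
    have h1 := hcmp d hd d₁ hd₁
    have h2 := hcmp d₁ hd₁ d hd
    rw [mem_Icc]
    omega
  rw [card_eq_sum_card_fiberwise hmaps]
  have h1 : ∀ s ∈ Icc (ell' d₁ - (Nat.log 2 K + 3)) (ell' d₁ + (Nat.log 2 K + 3)),
      (F.filter (fun d => ell' d = s)).card ≤ Qs m + Qs m' := by
    intro s _
    refine le_trans ?_ (pairs_le m m' s)
    refine card_le_card_of_injOn (fun d => (A d, B d)) ?_ ?_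
    · intro d hd
      rw [mem_coe, mem_filter] at hd
      obtain ⟨a1, a2, a3, a4, a5, a6⟩ := hAB d hd.1
      rw [mem_coe, mem_filter, mem_product, Nat.mem_divisors, Nat.mem_divisors]
      exact ⟨⟨⟨a2, hm.ne'⟩, a3, hm'.ne'⟩, hd.2⟩
    · intro d hd e he h
      rw [mem_coe, mem_filter] at hd he
      simp only [Prod.mk.injEq] at h
      rw [← (hAB d hd.1).1, ← (hAB e he.1).1, h.1, h.2]
  refine (sum_le_sum h1).trans ?_
  rw [sum_const, smul_eq_mul, Nat.card_Icc]
  apply Nat.mul_le_mul_right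
  omega

end Pool.Agent.TH890.DV
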