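import Pool.Agent.TH890.DV.A5
import Pool.Agent.TH890.DV.A6
import Pool.Agent.W571.GT.Rep
import Pool.Agent.W29.GT.Box
import Pool.Agent.W29.GT.Ve

/-!
Distinct values (helper890), part 7: the values of `n` for a positive proportion of the triples.
-/

set_option autoImplicit false

namespace Pool.Agent.TH890.DV

open Finset Filter
open Pool.Agent.W78.GT

variable {t c : ℤ}

theorem core_of (hns : ¬ IsSquare (t ^ 2 - 4 * c)) (hroot : S_ROOT t c) (hve : S_VET t c)
    (htyp : S_TYPT t c) (b ε : ℝ) (hb : 0 < b) (hε : 0 < ε) :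
    ∃ X₀ : ℝ, ∀ X : ℝ, X₀ ≤ X → ∀ S : Finset Tr, S ⊆ tri t c X X → b * X ≤ (S.card : ℝ) →
      X / Real.log X ^ (Real.log 2 + ε) ≤ ((S.image (fun e => e.2.1)).card : ℝ) := by
  classical
  obtain ⟨C, hC, hve⟩ := hve
  obtain ⟨D, hD, hroot⟩ := hroot
  set κ : ℝ := min 1 (b / (4 * C)) with hκ
  have hκ0 : 0 < κ := lt_min one_pos (by positivity)
  have hκ1 : κ ≤ 1 := min_le_left _ _
  have hκ2 : C * κ ≤ b / 4 := by
    have : κ ≤ b / (4 * C) := min_le_right _ _
    calc C * κ ≤ C * (b / (4 * C)) := mul_le_mul_of_nonneg_left this hC.le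
      _ = b / 4 := by field_simp
  set K : ℕ := ⌈8 * C * D / (b * κ)⌉₊ + 1 with hK
  have hK0 : (0 : ℝ) < K := by rw [hK]; positivity
  have hK1 : 8 * C * D / (b * κ) ≤ K := by
    rw [hK]
    push_cast
    linarith [Nat.le_ceil (8 * C * D / (b * κ))]
  obtain ⟨X₁, hbig⟩ := few_big hns htyp (ε / 2) (b * κ / (8 * C)) (by linarith) (by positivity)
  set W : ℕ := 2 * Nat.log 2 K + 7 with hW
  have hW0 : (0 : ℝ) < W := by rw [hW]; positivity
  have hev : ∀ᶠ x : ℝ in atTop, 4 * W / b ≤ Real.log x ^ (ε / 2) :=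
    ((tendsto_rpow_atTop (by linarith)).comp Real.tendsto_log_atTop).eventually_ge_atTop _
  obtain ⟨X₂, hX₂⟩ := eventually_atTop.1 hev
  refine ⟨max (max X₁ X₂) 3, fun X hX S hS hSc => ?_⟩
  have hX1 : X₁ ≤ X := (le_max_left _ _).trans ((le_max_left _ _).trans hX)
  have hX2 : X₂ ≤ X := (le_max_right _ _).trans ((le_max_left _ _).trans hX)
  have hX3 : 3 ≤ X := (le_max_right _ _).trans hX
  have hX0 : 0 < X := by linarith
  have hL : 0 < Real.log X := Real.log_pos (by linarith)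
  set thr : ℝ := Real.log X ^ (Real.log 2 + ε / 2) with hthr
  have hthr0 : 0 < thr := Real.rpow_pos_of_pos hL _
  set V1 := (rts t c X).filter (fun z => ((z.1 : ℕ) : ℝ) ≤ X / K) with hV1
  set V2 := (rts t c X).filter (fun z => thr < ((Qs z.1 : ℕ) : ℝ)) with hV2
  have hVs : V1 ⊆ rts t c (X / K) := by
    intro z hz
    rw [hV1, mem_filter, mem_rts] at hz
    rw [mem_rts]
    exact ⟨hz.1.1, hz.2, hz.1.2.2⟩
  have hV1c : (V1.card : ℝ) ≤ D * (X / K) :=
    le_trans (by exact_mod_cast card_le_card hVs) (hroot (X / K) (by positivity))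
  have hV2c : (V2.card : ℝ) ≤ b * κ / (8 * C) * X := hbig X hX1
  set V := V1 ∪ V2 with hV
  have hVc : (V.card : ℝ) ≤ b * κ / (4 * C) * X := by
    have g1 : (V.card : ℝ) ≤ V1.card + V2.card := by exact_mod_cast card_union_le _ _
    have g2 : D * (X / K) ≤ b * κ / (8 * C) * X := by
      rw [div_le_iff₀ (by positivity)] at hK1
      rw [mul_div_assoc', div_le_iff₀ hK0]
      have : b * κ / (8 * C) * X * K = (K * (b * κ)) * X / (8 * C) := by ring
      rw [this, le_div_iff₀ (by positivity)]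
      calc D * X * (8 * C) = (8 * C * D) * X := by ring
        _ ≤ (K * (b * κ)) * X := mul_le_mul_of_nonneg_right hK1 hX0.le
    have g3 : b * κ / (8 * C) * X + b * κ / (8 * C) * X = b * κ / (4 * C) * X := by ring
    linarith
  have hVE := hve κ X V hκ0 hκ1 (by linarith) (union_subset (filter_subset _ _) (filter_subset _ _))
  have hVE2 : C * (κ * X + (V.card : ℝ) / κ) ≤ b / 2 * X := by
    have h1 : (V.card : ℝ) / κ ≤ b / (4 * C) * X := by
      rw [div_le_iff₀ hκ0]
      calc (V.card : ℝ) ≤ b * κ / (4 * C) * X := hVc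
        _ = b / (4 * C) * X * κ := by ring
    calc C * (κ * X + (V.card : ℝ) / κ) ≤ C * (κ * X + b / (4 * C) * X) := by
          apply mul_le_mul_of_nonneg_left _ hC.le
          linarith
      _ = C * κ * X + b / 4 * X := by field_simp
      _ ≤ b / 4 * X + b / 4 * X := by nlinarith
      _ = b / 2 * X := by ring
  set S' := S.filter (fun e => ¬ (vx e ∈ V ∨ vy e ∈ V)) with hS'
  have hS1 : (S.card : ℝ) ≤ (((tri t c X X).filter (fun e => vx e ∈ V ∨ vy e ∈ V)).card : ℝ) + S'.card := by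
    have : S ⊆ (tri t c X X).filter (fun e => vx e ∈ V ∨ vy e ∈ V) ∪ S' := by
      intro e he
      by_cases h7 : vx e ∈ V ∨ vy e ∈ V
      · exact mem_union_left _ (mem_filter.2 ⟨hS he, h7⟩)
      · exact mem_union_right _ (mem_filter.2 ⟨he, h7⟩)
    exact_mod_cast (card_le_card this).trans (card_union_le _ _)
  have hS2 : b / 2 * X ≤ S'.card := by linarith
  have hgood : ∀ e ∈ S', e ∈ tri t c X X ∧ e.1 ≤ K * e.2.2 ∧ e.2.2 ≤ K * e.1 ∧
      ((Qs e.1 : ℕ) : ℝ) ≤ thr ∧ ((Qs e.2.2 : ℕ) : ℝ) ≤ thr := by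
    intro e he
    rw [hS', mem_filter] at he
    obtain ⟨he1, he2⟩ := he
    have he3 := hS he1
    push Not at he2
    obtain ⟨h8, h9⟩ := he2
    rw [hV, mem_union, hV1, hV2, mem_filter, mem_filter] at h8 h9
    push Not at h8 h9
    have h8a := h8.1 (vx_mem he3)
    have h8b := h8.2 (vx_mem he3)
    have h9a := h9.1 (vy_mem he3)
    have h9b := h9.2 (vy_mem he3)
    unfold vx at h8a h8b
    unfold vy at h9a h9b
    simp only at h8a h8b h9a h9b
    obtain ⟨m1, m2, m3, m4, m5, m6⟩ := mem_tri.1 he3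
    rw [div_lt_iff₀ hK0] at h8a h9a
    refine ⟨he3, ?_, ?_, h8b, h9b⟩
    · have : (e.1 : ℝ) ≤ K * e.2.2 := by linarith
      exact_mod_cast this
    · have : (e.2.2 : ℝ) ≤ K * e.1 := by linarith
      exact_mod_cast this
  set T := S.image (fun e => e.2.1) with hT
  have hmaps : ∀ e ∈ S', e.2.1 ∈ T := by
    intro e he
    rw [hS', mem_filter] at he
    exact mem_image_of_mem _ he.1
  have hfib : ∀ n ∈ T, ((S'.filter (fun e => e.2.1 = n)).card : ℝ) ≤ 2 * W * thr := by
    intro n _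
    rcases (S'.filter (fun e => e.2.1 = n)).eq_empty_or_nonempty with h0 | ⟨e₀, he₀⟩
    · rw [h0, card_empty, Nat.cast_zero]
      positivity
    rw [mem_filter] at he₀
    obtain ⟨t0, b1, b2, q1, q2⟩ := hgood e₀ he₀.1
    obtain ⟨m1, m2, m3, m4, m5, m6⟩ := mem_tri.1 t0
    have hv : ∀ e ∈ S'.filter (fun e => e.2.1 = n), e.1 * e.2.2 = e₀.1 * e₀.2.2 := by
      intro e he
      rw [mem_filter] at he
      obtain ⟨t1, -⟩ := hgood e he.1
      obtain ⟨n1, n2, n3, n4, n5, n6⟩ := mem_tri.1 t1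
      rw [he.2, ← he₀.2, ← m5] at n5
      exact_mod_cast n5
    have g1 : (S'.filter (fun e => e.2.1 = n)).card = ((S'.filter (fun e => e.2.1 = n)).image (fun e => e.1)).card := by
      rw [card_image_of_injOn]
      intro x hx y hy hxy
      rw [mem_coe, mem_filter] at hx hy
      exact tri_ext (hgood x hx.1).1 (hgood y hy.1).1 hxy (hx.2.trans hy.2.symm)
    have g2 := bal_count (m := e₀.1) (m' := e₀.2.2) (K := K) (by omega) (by omega)
      ((S'.filter (fun e => e.2.1 = n)).image (fun e => e.1)) (by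
        intro d hd
        rw [mem_image] at hd
        obtain ⟨e, he, rfl⟩ := hd
        have hve := hv e he
        rw [mem_filter] at he
        obtain ⟨t1, c1, c2, -, -⟩ := hgood e he.1
        rw [← hve]
        refine ⟨Dvd.intro _ rfl, ?_, ?_⟩
        · calc e.1 * e.1 ≤ e.1 * (K * e.2.2) := Nat.mul_le_mul_left _ c1
            _ = K * (e.1 * e.2.2) := by ring
        · calc e.1 * e.2.2 ≤ e.1 * (K * e.1) := Nat.mul_le_mul_left _ c2
            _ = K * (e.1 * e.1) := by ring)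
    rw [← g1, ← hW] at g2
    have g3 : ((S'.filter (fun e => e.2.1 = n)).card : ℝ) ≤ W * ((Qs e₀.1 : ℝ) + (Qs e₀.2.2 : ℝ)) := by exact_mod_cast g2
    calc ((S'.filter (fun e => e.2.1 = n)).card : ℝ) ≤ W * ((Qs e₀.1 : ℝ) + (Qs e₀.2.2 : ℝ)) := g3
      _ ≤ W * (thr + thr) := mul_le_mul_of_nonneg_left (add_le_add q1 q2) hW0.le
      _ = 2 * W * thr := by ring
  have hsum : (S'.card : ℝ) = ∑ n ∈ T, ((S'.filter (fun e => e.2.1 = n)).card : ℝ) := by
    have := card_eq_sum_card_fiberwise (s := S') (t := T) (f := fun e : Tr => e.2.1) hmaps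
    rw [this]
    push_cast
    rfl
  have hfin : b / 2 * X ≤ T.card * (2 * W * thr) := by
    refine hS2.trans ?_
    rw [hsum]
    refine (sum_le_sum hfib).trans (le_of_eq ?_)
    rw [sum_const, nsmul_eq_mul]
  have h6 := hX₂ X hX2
  have hsplit : Real.log X ^ (Real.log 2 + ε) = Real.log X ^ (ε / 2) * thr := by
    rw [hthr, ← Real.rpow_add hL]
    congr 1
    ring
  rw [div_le_iff₀ (Real.rpow_pos_of_pos hL _), hsplit]
  have h7 : X ≤ (4 * W / b) * (T.card * thr) := by
    rw [div_mul_eq_mul_div, le_div_iff₀ hb]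
    nlinarith
  calc X ≤ (4 * W / b) * (T.card * thr) := h7
    _ ≤ Real.log X ^ (ε / 2) * (T.card * thr) := mul_le_mul_of_nonneg_right h6 (by positivity)
    _ = T.card * (Real.log X ^ (ε / 2) * thr) := by ring

/-- A set of a positive proportion of the triples has many values of `n`. -/
theorem core (hns : ¬ IsSquare (t ^ 2 - 4 * c)) (b ε : ℝ) (hb : 0 < b) (hε : 0 < ε) :
    ∃ X₀ : ℝ, ∀ X : ℝ, X₀ ≤ X → ∀ S : Finset Tr, S ⊆ tri t c X X → b * X ≤ (S.card : ℝ) →
      X / Real.log X ^ (Real.log 2 + ε) ≤ ((S.image (fun e => e.2.1)).card : ℝ) :=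
  core_of hns (Pool.Agent.W29.GT.root_of (Pool.Agent.W571.GT.rep hns))
    (Pool.Agent.W29.GT.vet_of (Pool.Agent.W29.GT.root_of (Pool.Agent.W571.GT.rep hns)))
    (Pool.Agent.W29.GT.typt hns) b ε hb hε

end Pool.Agent.TH890.DV
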