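import Pool.Agent.TH890.DV.A7
import Pool.Agent.W672.G.Cont
import Pool.Agent.W78.GS.Defs

/-!
Distinct values (helper890), part 8: from triples to integers, with the exponent `log 2`.
-/

set_option autoImplicit false

namespace Pool.Agent.TH890.DV

open Finset Filter
open Pool.Agent.W78.GT
open Pool.Agent.W84.G (PosT)
open Pool.Agent.W672.G (SR mem_SR posT_iff pos_n bal pairs_of le_L)

variable {t c : ℤ}

/-- the size of `n` -/
lemma n_le {X : ℝ} (hX : 1 ≤ X) {e : Tr} (he : e ∈ tri t c X X) :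
    (e.2.1 : ℝ) ≤ X + |(t : ℝ)| + |(t : ℝ) ^ 2 - 4 * c| := by
  obtain ⟨m1, m2, m3, m4, m5, m6⟩ := mem_tri.1 he
  have h3 : (e.1 : ℝ) * e.2.2 ≤ X ^ 2 := by
    rw [pow_two]
    exact mul_le_mul m2 m4 (Nat.cast_nonneg _) (by linarith)
  have hd := disc_tri he
  have hd' : (2 * (e.2.1 : ℝ) + t) ^ 2 = 4 * (e.1 * e.2.2) + ((t : ℝ) ^ 2 - 4 * c) := by
    exact_mod_cast hd
  set B : ℝ := |(t : ℝ) ^ 2 - 4 * c| with hBdef
  have hB0 : 0 ≤ B := abs_nonneg _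
  have hB1 : (t : ℝ) ^ 2 - 4 * c ≤ B := le_abs_self _
  have h4 : 2 * (e.2.1 : ℝ) + t ≤ 2 * X + B := by
    refine abs_le_of_sq_le_sq' ?_ (by linarith) |>.2
    nlinarith
  have h7 : -(|(t : ℝ)|) ≤ (t : ℝ) := neg_abs_le _
  have h8 : 0 ≤ |(t : ℝ)| := abs_nonneg _
  linarith

/-- the number of the positive `n ≤ N`, at one scale -/
theorem scale (hns : ¬ IsSquare (t ^ 2 - 4 * c)) (b ε : ℝ) (hb : 0 < b) (hε : 0 < ε) :
    ∃ N₀ : ℕ, ∀ N : ℕ, N₀ ≤ N → ∀ S : Finset Tr, S ⊆ tri t c ((N : ℝ) / 2) ((N : ℝ) / 2) →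
      b * N ≤ (S.card : ℝ) → ∀ T : Finset ℕ, (∀ e ∈ S, 1 ≤ e.2.1 → e.2.1 ≤ N → e.2.1.toNat ∈ T) →
      (N : ℝ) / Real.log N ^ (Real.log 2 + ε) ≤ (T.card : ℝ) := by
  classical
  obtain ⟨X₀, h⟩ := core hns b (ε / 2) hb (by linarith)
  set A : ℝ := |(t : ℝ)| + |(t : ℝ) ^ 2 - 4 * c| with hA
  have hA0 : 0 ≤ A := by positivity
  have hlog : Tendsto (fun N : ℕ => Real.log N) atTop atTop :=
    Real.tendsto_log_atTop.comp tendsto_natCast_atTop_atTop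
  have h1 : ∀ᶠ N : ℕ in atTop, (4 : ℝ) ≤ Real.log N ^ (ε / 2) :=
    ((tendsto_rpow_atTop (by linarith)).comp hlog).eventually_ge_atTop _
  have h2 : ∀ᶠ N : ℕ in atTop, (max (2 * X₀) (2 * A + 6) : ℝ) ≤ N :=
    tendsto_natCast_atTop_atTop.eventually_ge_atTop _
  -- the integers `n ≤ 0` are negligible
  have h3 : ∀ᶠ N : ℕ in atTop, ((t.natAbs : ℝ) + 1) * 4 * Real.log N ^ (Real.log 2 + ε) ≤ N := by
    have h4 : (fun x : ℝ => Real.log x ^ (Real.log 2 + ε)) =o[atTop] (fun x : ℝ => x) := by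
      have := isLittleO_log_rpow_rpow_atTop (Real.log 2 + ε) (show (0 : ℝ) < 1 by norm_num)
      simpa using this
    have h5 := (h4.comp_tendsto tendsto_natCast_atTop_atTop).bound
      (show (0 : ℝ) < 1 / (((t.natAbs : ℝ) + 1) * 4) by positivity)
    filter_upwards [h5, eventually_ge_atTop 3] with N g1 g2
    simp only [Function.comp] at g1
    have hN3 : (3 : ℝ) ≤ N := by exact_mod_cast g2
    rw [Real.norm_of_nonneg (Real.rpow_nonneg (Real.log_nonneg (by linarith)) _),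
      Real.norm_of_nonneg (by linarith)] at g1
    calc ((t.natAbs : ℝ) + 1) * 4 * Real.log N ^ (Real.log 2 + ε)
        ≤ ((t.natAbs : ℝ) + 1) * 4 * (1 / (((t.natAbs : ℝ) + 1) * 4) * N) :=
          mul_le_mul_of_nonneg_left g1 (by positivity)
      _ = N := by field_simp
  obtain ⟨N₀, hN₀⟩ := eventually_atTop.1 (h1.and (h2.and h3))
  refine ⟨max N₀ 6, fun N hN S hS hSc T hT => ?_⟩
  obtain ⟨g1, g2, g3⟩ := hN₀ N ((le_max_left _ _).trans hN)
  have hN6 : (6 : ℝ) ≤ N := by exact_mod_cast (le_max_right _ _).trans hN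
  set X : ℝ := (N : ℝ) / 2 with hXdef
  have hX3 : 3 ≤ X := by rw [hXdef]; linarith
  have g2a : 2 * X₀ ≤ (N : ℝ) := (le_max_left _ _).trans g2
  have g2b : 2 * A + 6 ≤ (N : ℝ) := (le_max_right _ _).trans g2
  have hX0 : X₀ ≤ X := by rw [hXdef]; linarith
  have hcard := h X hX0 S hS (by
    refine le_trans ?_ hSc
    rw [hXdef]
    have : b * ((N : ℝ) / 2) = b * N / 2 := by ring
    rw [this]
    have : 0 ≤ b * N := by positivity
    linarith)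
  -- the image
  have hsub : S.image (fun e => e.2.1) ⊆ Icc (-(t.natAbs : ℤ)) 0 ∪ T.image (fun n : ℕ => (n : ℤ)) := by
    intro n hn
    rw [mem_image] at hn
    obtain ⟨e, he, rfl⟩ := hn
    have het := hS he
    obtain ⟨m1, m2, m3, m4, m5, m6⟩ := mem_tri.1 het
    rcases le_or_gt e.2.1 0 with h0 | h0
    · apply mem_union_left
      rw [Finset.mem_Icc]
      omega
    · apply mem_union_right
      rw [mem_image]
      have hle := n_le (by linarith : 1 ≤ X) het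
      have hle' : (e.2.1 : ℝ) ≤ N := by
        have : X + A ≤ N := by rw [hXdef]; linarith
        linarith
      have hle'' : e.2.1 ≤ N := by exact_mod_cast hle'
      exact ⟨e.2.1.toNat, hT e he h0 hle'', Int.toNat_of_nonneg h0.le⟩
  have hc1 := (card_le_card hsub).trans (card_union_le _ _)
  have hc2 : (T.image (fun n : ℕ => (n : ℤ))).card ≤ T.card := card_image_le
  have hc3 : (Icc (-(t.natAbs : ℤ)) 0).card = t.natAbs + 1 := by
    rw [Int.card_Icc]; omega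
  have hc4 : ((S.image (fun e => e.2.1)).card : ℝ) ≤ ((t.natAbs : ℝ) + 1) + T.card := by
    have : (S.image (fun e => e.2.1)).card ≤ (t.natAbs + 1) + T.card := by omega
    exact_mod_cast this
  have hL : 0 < Real.log N := Real.log_pos (by linarith)
  have hLX : 0 < Real.log X := Real.log_pos (by linarith)
  have hLL : Real.log X ≤ Real.log N := Real.log_le_log (by linarith) (by rw [hXdef]; linarith)
  have hl2 : 0 < Real.log 2 := Real.log_pos (by norm_num)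
  have hp1 : 0 < Real.log N ^ (Real.log 2 + ε / 2) := Real.rpow_pos_of_pos hL _
  have hp2 : 0 < Real.log X ^ (Real.log 2 + ε / 2) := Real.rpow_pos_of_pos hLX _
  have hsplit : Real.log N ^ (Real.log 2 + ε) = Real.log N ^ (Real.log 2 + ε / 2) * Real.log N ^ (ε / 2) := by
    rw [← Real.rpow_add hL]
    congr 1
    ring
  have hp3 : 0 < Real.log N ^ (Real.log 2 + ε) := Real.rpow_pos_of_pos hL _
  -- `X / log X ^ ... ≥ 2 N / log N ^ ...`
  have k1 : 2 * ((N : ℝ) / Real.log N ^ (Real.log 2 + ε)) ≤ X / Real.log X ^ (Real.log 2 + ε / 2) := by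
    have k2 : X / Real.log N ^ (Real.log 2 + ε / 2) ≤ X / Real.log X ^ (Real.log 2 + ε / 2) :=
      div_le_div_of_nonneg_left (by linarith) hp2 (Real.rpow_le_rpow hLX.le hLL (by positivity))
    refine le_trans ?_ k2
    rw [hsplit, hXdef, ← mul_div_assoc, div_le_div_iff₀ (by positivity) hp1]
    have k3 : (N : ℝ) / 2 * (Real.log N ^ (Real.log 2 + ε / 2) * Real.log N ^ (ε / 2)) =
        (N * Real.log N ^ (Real.log 2 + ε / 2)) * (Real.log N ^ (ε / 2) / 2) := by ring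
    rw [k3]
    have k4 : 0 ≤ N * Real.log N ^ (Real.log 2 + ε / 2) := by positivity
    nlinarith
  have k5 : ((t.natAbs : ℝ) + 1) ≤ (N : ℝ) / Real.log N ^ (Real.log 2 + ε) := by
    rw [le_div_iff₀ hp3]
    have k6 : 0 ≤ ((t.natAbs : ℝ) + 1) * Real.log N ^ (Real.log 2 + ε) := by positivity
    linarith
  linarith

/-- from triples to integers -/
theorem count_of (hns : ¬ IsSquare (t ^ 2 - 4 * c)) (R : Tr → Prop) (h : PosT t c R) (ε : ℝ)
    (hε : 0 < ε) : ∃ N₀ : ℕ, ∀ N : ℕ, N₀ ≤ N →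
    (N : ℝ) / Real.log N ^ (Real.log 2 + ε) ≤
    (Set.ncard {n : ℕ | 1 ≤ n ∧ n ≤ N ∧ ∃ d d' : ℕ, 1 ≤ d ∧ 1 ≤ d' ∧ (d : ℤ) * d' = Qp t c n ∧
      R (d, (n : ℤ), d')} : ℝ) := by
  classical
  rw [posT_iff] at h
  obtain ⟨b, hb, X₁, hB⟩ := h
  obtain ⟨N₀, hs⟩ := scale hns (b / 2) ε (by positivity) hε
  refine ⟨max N₀ ⌈2 * X₁⌉₊, fun N hN => ?_⟩
  have hN1 : 2 * X₁ ≤ (N : ℝ) := (Nat.le_ceil _).trans (by exact_mod_cast (le_max_right _ _).trans hN)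
  have h1 := hB ((N : ℝ) / 2) (by linarith)
  have h2 := hs N ((le_max_left _ _).trans hN) (SR t c R ((N : ℝ) / 2)) (by
    intro e he
    exact (mem_SR.1 he).1) (by linarith)
    ((Icc 1 N).filter (fun n : ℕ => ∃ d d' : ℕ, 1 ≤ d ∧ 1 ≤ d' ∧ (d : ℤ) * d' = Qp t c n ∧
      R (d, (n : ℤ), d'))) (by
    intro e he h0 hn
    obtain ⟨he1, he2⟩ := mem_SR.1 he
    obtain ⟨m1, m2, m3, m4, m5, m6⟩ := mem_tri.1 he1
    have e1 : ((e.2.1.toNat : ℕ) : ℤ) = e.2.1 := Int.toNat_of_nonneg (by omega)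
    rw [mem_filter, Finset.mem_Icc, e1]
    refine ⟨⟨by omega, by omega⟩, e.1, e.2.2, m1, m3, m5, he2⟩)
  refine h2.trans (le_of_eq ?_)
  rw [← Set.ncard_coe_finset]
  congr 2
  ext n
  rw [Finset.mem_coe, mem_filter, Finset.mem_Icc, Set.mem_ofPred_eq, and_assoc]

/-- The statement `S_CONT` of project G, with the exponent `log 2` and for all properties. -/
theorem cont (hns : ¬ IsSquare (t ^ 2 - 4 * c)) (R : Tr → Prop) (hpos : PosT t c R) : ∃ L : ℕ,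
    (∀ ε : ℝ, 0 < ε → ∃ N₀ : ℕ, ∀ N : ℕ, N₀ ≤ N → (N : ℝ) / Real.log N ^ (Real.log 2 + ε) ≤
      (Set.ncard {n : ℕ | 1 ≤ n ∧ n ≤ N ∧ ∃ d d' : ℕ, (d : ℤ) * d' = Qp t c n ∧ d ≤ L * n ∧
        d' ≤ L * n ∧ R (d, (n : ℤ), d')} : ℝ)) ∧
    ∃ κ : ℝ, 0 < κ ∧ ∃ N₀ : ℕ, ∀ N : ℕ, N₀ ≤ N → κ * N ≤
      (Set.ncard {p : ℕ × ℕ | 1 ≤ p.1 ∧ p.1 ≤ N ∧ 1 ≤ p.2 ∧ p.2 ≤ N ∧
        ∃ n : ℕ, 1 ≤ n ∧ (p.1 : ℤ) * p.2 = Qp t c n ∧ R (p.1, (n : ℤ), p.2)} : ℝ) := by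
  classical
  have hroot := Pool.Agent.W29.GT.root_of (Pool.Agent.W571.GT.rep hns)
  obtain ⟨K, hK, hpos1⟩ := bal hroot (Pool.Agent.W29.GT.vet_of hroot) hpos
  have hpos2 := pos_n hpos1
  refine ⟨K * (1 + t.natAbs + c.natAbs), fun ε hε => ?_, ?_⟩
  · obtain ⟨N₀, hN⟩ := count_of hns _ hpos2 ε hε
    refine ⟨N₀, fun N hN' => (hN N hN').trans ?_⟩
    refine Nat.cast_le.2 ?_
    apply Set.ncard_le_ncard
    · rintro n ⟨hn1, hn2, d, d', hd, hd', he, ⟨hR, hb1, hb2⟩, hn3⟩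
      refine ⟨hn1, hn2, d, d', he, le_L hK hn1 he hb1, le_L hK hn1 ?_ hb2, hR⟩
      rw [← he, mul_comm]
    · refine (Set.finite_Icc 1 N).subset ?_
      intro n hn
      exact ⟨hn.1, hn.2.1⟩
  · obtain ⟨κ, hκ, N₀, hN⟩ := pairs_of _ (fun e he => he.2) hpos2
    refine ⟨κ, hκ, N₀, fun N hN' => (hN N hN').trans ?_⟩
    refine Nat.cast_le.2 ?_
    apply Set.ncard_le_ncard
    · rintro p ⟨h1, h2, h3, h4, n, h5, h6, h7⟩
      exact ⟨h1, h2, h3, h4, n, h5, h6, h7.1.1⟩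
    · refine ((Set.finite_Icc 1 N).prod (Set.finite_Icc 1 N)).subset ?_
      rintro p ⟨h1, h2, h3, h4, -⟩
      exact ⟨⟨h1, h2⟩, ⟨h3, h4⟩⟩

end Pool.Agent.TH890.DV
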