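import Pool.Agent.TH890.DV.B3
import Pool.Agent.W193.G.Final

/-!
Distinct values (helper890), part 11: from pairs to integers for `F(m)` with `A F(m) = Q(A m + β)`, and
sets of scales of logarithmic density zero.
-/

set_option autoImplicit false

namespace Pool.Agent.TH890.DV

open Finset Filter
open Pool.Agent.W78.GT

variable {t c : ℤ}

lemma Qp_inj {m n : ℤ} (hm : 0 ≤ 2 * m + t) (hn : 0 ≤ 2 * n + t) (h : Qp t c m = Qp t c n) : m = n := by
  unfold Qp at h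
  have h1 : (m - n) * (m + n + t) = 0 := by linarith
  rcases mul_eq_zero.1 h1 with h2 | h2
  · omega
  · omega

/-- from pairs to integers at one scale -/
theorem cnt_core (hns : ¬ IsSquare (t ^ 2 - 4 * c)) {F : ℕ → ℕ} {A β : ℕ} (hA : 1 ≤ A) (ht : 0 ≤ t)
    (hF : ∀ m : ℕ, (A : ℤ) * F m = Qp t c (A * m + β)) (b ε : ℝ) (hb : 0 < b) (hε : 0 < ε) :
    ∃ N₀ : ℕ, ∀ X : ℕ, N₀ ≤ X → ∀ S : Finset (ℕ × ℕ),
      (∀ p ∈ S, 1 ≤ p.1 ∧ p.1 ≤ X ∧ 1 ≤ p.2 ∧ p.2 ≤ X ∧ ∃ m : ℕ, p.1 * p.2 = F m) →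
      b * X ≤ (S.card : ℝ) →
      ∀ T : Finset ℕ, (∀ m : ℕ, (∃ p ∈ S, p.1 * p.2 = F m) → m ∈ T) →
      (X : ℝ) / Real.log X ^ (Real.log 2 + ε) ≤ (T.card : ℝ) := by
  classical
  have hA0 : (0 : ℝ) < A := by exact_mod_cast (by omega : 0 < A)
  have hA1 : (1 : ℝ) ≤ A := by exact_mod_cast hA
  obtain ⟨X₀, h⟩ := pairs_core hns (b / A) (ε / 2) (by positivity) (by linarith)
  obtain ⟨N₁, han⟩ := Pool.Agent.W193.G.analytic A hA (Real.log 2) ε (by positivity) hε
  refine ⟨max (max ⌈X₀⌉₊ 3) N₁, fun X hX S hS hSc T hT => ?_⟩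
  have hX0 : X₀ ≤ (X : ℝ) := (Nat.le_ceil _).trans (by
    exact_mod_cast (le_max_left _ _).trans ((le_max_left _ _).trans hX))
  have hX3 : (3 : ℝ) ≤ X := by exact_mod_cast (le_max_right _ _).trans ((le_max_left _ _).trans hX)
  have hX4 := han X ((le_max_right _ _).trans hX)
  have hXA : (X : ℝ) ≤ X * A := by nlinarith
  have h1 := h (X * A) (hX0.trans hXA) (S.image (fun p => (A * p.1, p.2))) (by
    intro p hp
    rw [mem_image] at hp
    obtain ⟨q, hq, rfl⟩ := hp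
    obtain ⟨a1, a2, a3, a4, m, hm⟩ := hS q hq
    have b2 : (q.1 : ℝ) ≤ X := by exact_mod_cast a2
    have b4 : (q.2 : ℝ) ≤ X := by exact_mod_cast a4
    refine ⟨Nat.mul_pos (by omega) (by omega), ?_, a3, b4.trans hXA, A * m + β, ?_⟩
    · push_cast
      nlinarith
    · rw [← hF m, ← hm]
      push_cast
      ring) (by
    rw [card_image_of_injOn]
    · refine le_trans (le_of_eq ?_) hSc
      field_simp
    · intro p _ p' _ hpp
      simp only [Prod.mk.injEq] at hpp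
      exact Prod.ext (Nat.eq_of_mul_eq_mul_left (by omega) hpp.1) hpp.2)
    (T.image (fun m : ℕ => ((A * m + β : ℕ) : ℤ))) (by
    intro n hn hp
    obtain ⟨p, hp, he⟩ := hp
    rw [mem_image] at hp
    obtain ⟨q, hq, rfl⟩ := hp
    obtain ⟨a1, a2, a3, a4, m, hm⟩ := hS q hq
    rw [mem_image]
    refine ⟨m, hT m ⟨q, hq, hm⟩, ?_⟩
    have e1 : Qp t c ((A * m + β : ℕ) : ℤ) = Qp t c n := by
      rw [← he]
      push_cast
      rw [← hF m, ← hm]
      push_cast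
      ring
    refine Qp_inj ?_ hn e1
    positivity)
  have h2 : ((T.image (fun m : ℕ => ((A * m + β : ℕ) : ℤ))).card : ℝ) ≤ T.card := by
    exact_mod_cast card_image_le
  refine hX4.trans (le_trans (le_of_eq ?_) (h1.trans h2))
  push_cast
  rw [mul_comm (A : ℝ) (X : ℝ)]

open scoped Classical in
/-- the set of the positive integers `X` with `P X` has logarithmic density `0` -/
def LogNull (P : ℕ → Prop) : Prop :=
  Tendsto (fun Z : ℕ => (∑ X ∈ (Icc 1 Z).filter P, 1 / (X : ℝ)) / Real.log Z) atTop (nhds 0)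

lemma tendsto_logN : Tendsto (fun N : ℕ => Real.log N) atTop atTop :=
  Real.tendsto_log_atTop.comp tendsto_natCast_atTop_atTop

theorem LogNull.of_ev {P Q : ℕ → Prop} (X₀ : ℕ) (h : ∀ X : ℕ, X₀ ≤ X → Q X → P X) (hP : LogNull P) :
    LogNull Q := by
  classical
  unfold LogNull at hP ⊢
  have hlim : Tendsto (fun Z : ℕ => (∑ X ∈ Icc 1 X₀, 1 / (X : ℝ)) / Real.log Z +
      (∑ X ∈ (Icc 1 Z).filter P, 1 / (X : ℝ)) / Real.log Z) atTop (nhds 0) := by
    have h1 : Tendsto (fun Z : ℕ => (∑ X ∈ Icc 1 X₀, 1 / (X : ℝ)) / Real.log Z) atTop (nhds 0) :=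
      tendsto_logN.const_div_atTop _
    have := h1.add hP
    simpa using this
  refine squeeze_zero' ?_ ?_ hlim
  · filter_upwards [eventually_ge_atTop 1] with Z hZ
    have : (1 : ℝ) ≤ Z := by exact_mod_cast hZ
    have := Real.log_nonneg this
    positivity
  · filter_upwards [eventually_ge_atTop 1] with Z hZ
    have h3 : (1 : ℝ) ≤ Z := by exact_mod_cast hZ
    have h4 := Real.log_nonneg h3
    rw [← add_div]
    refine div_le_div_of_nonneg_right ?_ h4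
    have hsub : (Icc 1 Z).filter Q ⊆ Icc 1 X₀ ∪ (Icc 1 Z).filter P := by
      intro X hX
      obtain ⟨hX1, hX2⟩ := mem_filter.1 hX
      rcases le_or_gt X X₀ with h5 | h5
      · exact mem_union_left _ (mem_Icc.2 ⟨(mem_Icc.1 hX1).1, h5⟩)
      · exact mem_union_right _ (mem_filter.2 ⟨hX1, h X h5.le hX2⟩)
    refine (sum_le_sum_of_subset_of_nonneg hsub (fun _ _ _ => by positivity)).trans ?_
    have h6 := sum_union_inter (s₁ := Icc 1 X₀) (s₂ := (Icc 1 Z).filter P) (f := fun X : ℕ => 1 / (X : ℝ))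
    have h7 : (0 : ℝ) ≤ ∑ X ∈ Icc 1 X₀ ∩ (Icc 1 Z).filter P, 1 / (X : ℝ) :=
      sum_nonneg fun _ _ => by positivity
    linarith

theorem LogNull.of_or {P Q R : ℕ → Prop} (h : ∀ X : ℕ, R X → P X ∨ Q X) (hP : LogNull P)
    (hQ : LogNull Q) : LogNull R := by
  classical
  unfold LogNull at hP hQ ⊢
  have hlim := hP.add hQ
  rw [add_zero] at hlim
  refine squeeze_zero' ?_ ?_ hlim
  · filter_upwards [eventually_ge_atTop 1] with Z hZ
    have : (1 : ℝ) ≤ Z := by exact_mod_cast hZ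
    have := Real.log_nonneg this
    positivity
  · filter_upwards [eventually_ge_atTop 1] with Z hZ
    have h3 : (1 : ℝ) ≤ Z := by exact_mod_cast hZ
    have h4 := Real.log_nonneg h3
    rw [← add_div]
    refine div_le_div_of_nonneg_right ?_ h4
    have hsub : (Icc 1 Z).filter R ⊆ (Icc 1 Z).filter P ∪ (Icc 1 Z).filter Q := by
      intro X hX
      obtain ⟨hX1, hX2⟩ := mem_filter.1 hX
      rcases h X hX2 with h5 | h5
      · exact mem_union_left _ (mem_filter.2 ⟨hX1, h5⟩)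
      · exact mem_union_right _ (mem_filter.2 ⟨hX1, h5⟩)
    refine (sum_le_sum_of_subset_of_nonneg hsub (fun _ _ _ => by positivity)).trans ?_
    have h6 := sum_union_inter (s₁ := (Icc 1 Z).filter P) (s₂ := (Icc 1 Z).filter Q)
      (f := fun X : ℕ => 1 / (X : ℝ))
    have h7 : (0 : ℝ) ≤ ∑ X ∈ (Icc 1 Z).filter P ∩ (Icc 1 Z).filter Q, 1 / (X : ℝ) :=
      sum_nonneg fun _ _ => by positivity
    linarith

theorem LogNull.empty : LogNull (fun _ => False) := by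
  unfold LogNull
  simp

theorem LogNull.exists_lt {q : ℕ} {P : ℕ → ℕ → Prop} (h : ∀ r, r < q → LogNull (P r)) :
    LogNull (fun X => ∃ r, r < q ∧ P r X) := by
  induction q with
  | zero =>
    refine LogNull.of_ev 0 ?_ LogNull.empty
    rintro X - ⟨r, hr, -⟩
    omega
  | succ q ih =>
    have h1 := ih (fun r hr => h r (by omega))
    have h2 := h q (by omega)
    refine LogNull.of_or ?_ h1 h2
    rintro X ⟨r, hr, hX⟩
    rcases Nat.lt_succ_iff_lt_or_eq.1 hr with h3 | h3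
    · exact Or.inl ⟨r, h3, hX⟩
    · subst h3; exact Or.inr hX

open scoped Classical in
/-- the deviation from equidistribution -/
noncomputable def Dv (B : ℕ → Finset (ℕ × ℕ)) (k q r i j : ℕ) (X : ℕ) : ℝ :=
  |(((B X).filter (fun p => p.1 ≡ r [MOD q] ∧
      ArithmeticFunction.cardFactors p.1 ≡ i [MOD k] ∧
      ArithmeticFunction.cardFactors p.2 ≡ j [MOD k])).card : ℝ) -
    1 / (k : ℝ) ^ 2 * (((B X).filter (fun p => p.1 ≡ r [MOD q])).card : ℝ)|

/-- equidistribution over the pairs, at almost all scales, gives many integers -/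
theorem cnt_null (hns : ¬ IsSquare (t ^ 2 - 4 * c)) {F : ℕ → ℕ} {A β : ℕ} (hA : 1 ≤ A) (ht : 0 ≤ t)
    (hF : ∀ m : ℕ, (A : ℤ) * F m = Qp t c (A * m + β)) (B : ℕ → Finset (ℕ × ℕ))
    (hB : ∀ X, ∀ p ∈ B X, 1 ≤ p.1 ∧ p.1 ≤ X ∧ 1 ≤ p.2 ∧ p.2 ≤ X ∧ ∃ m : ℕ, p.1 * p.2 = F m)
    (hlow : ∃ c₁ : ℝ, 0 < c₁ ∧ ∃ X₀ : ℕ, ∀ X : ℕ, X₀ ≤ X → c₁ * X ≤ ((B X).card : ℝ))
    {k q : ℕ} (hk : 1 ≤ k) (hq : 1 ≤ q) (i j : ℕ)
    (hdev : ∀ r : ℕ, ∀ ε : ℝ, 0 < ε → LogNull (fun X => ε * X < Dv B k q r i j X))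
    (cnt : ℕ → ℕ) (hcnt : ∀ X : ℕ, ∃ T : Finset ℕ, T.card ≤ cnt X ∧ ∀ m : ℕ, (∃ p ∈ B X, p.1 * p.2 = F m ∧
      ArithmeticFunction.cardFactors (F m) ≡ i + j [MOD k]) → m ∈ T) (ε : ℝ) (hε : 0 < ε) :
    LogNull (fun X => (cnt X : ℝ) < X / Real.log X ^ (Real.log 2 + ε)) := by
  classical
  obtain ⟨c₁, hc₁, X₀, hlow⟩ := hlow
  have hk0 : (0 : ℝ) < k := by exact_mod_cast (by omega : 0 < k)
  have hq0 : (0 : ℝ) < q := by exact_mod_cast (by omega : 0 < q)
  obtain ⟨κ, hκ⟩ : ∃ κ : ℝ, κ = c₁ / (2 * (k : ℝ) ^ 2) := ⟨_, rfl⟩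
  have hκ0 : 0 < κ := by rw [hκ]; positivity
  obtain ⟨N₁, hcore⟩ := cnt_core hns hA ht hF κ ε hκ0 hε
  have hall : LogNull (fun X => ∃ r, r < q ∧ κ / q * X < Dv B k q r i j X) :=
    LogNull.exists_lt (fun r _ => hdev r (κ / q) (by positivity))
  refine LogNull.of_ev (max X₀ N₁) ?_ hall
  intro X hX hlt
  by_contra hcon
  push Not at hcon
  have h1 := hlow X ((le_max_left _ _).trans hX)
  set S := (B X).filter (fun p => ArithmeticFunction.cardFactors p.1 ≡ i [MOD k] ∧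
      ArithmeticFunction.cardFactors p.2 ≡ j [MOD k]) with hS
  -- sum over the residue classes
  have h2 : ∀ (G : Finset (ℕ × ℕ)), (G.card : ℝ) = ∑ r ∈ range q, ((G.filter (fun p => p.1 ≡ r [MOD q])).card : ℝ) := by
    intro G
    have hm : ∀ p ∈ G, p.1 % q ∈ range q := fun p _ => mem_range.2 (Nat.mod_lt _ (by omega))
    rw [card_eq_sum_card_fiberwise hm]
    push_cast
    refine sum_congr rfl fun r hr => ?_
    congr 2
    ext p
    rw [mem_filter, mem_filter]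
    refine and_congr_right fun _ => ?_
    unfold Nat.ModEq
    rw [Nat.mod_eq_of_lt (mem_range.1 hr)]
  have h3 : κ * X ≤ (S.card : ℝ) := by
    rw [h2 S]
    have h4 : ∀ r ∈ range q, 1 / (k : ℝ) ^ 2 * (((B X).filter (fun p => p.1 ≡ r [MOD q])).card : ℝ) - κ / q * X ≤
        ((S.filter (fun p => p.1 ≡ r [MOD q])).card : ℝ) := by
      intro r hr
      have h5 := hcon r (mem_range.1 hr)
      unfold Dv at h5
      have h6 := (abs_le.1 h5).1
      have h7 : S.filter (fun p => p.1 ≡ r [MOD q]) = (B X).filter (fun p => p.1 ≡ r [MOD q] ∧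
          ArithmeticFunction.cardFactors p.1 ≡ i [MOD k] ∧
          ArithmeticFunction.cardFactors p.2 ≡ j [MOD k]) := by
        rw [hS, filter_filter]
        refine filter_congr fun p _ => ?_
        tauto
      rw [h7]
      linarith
    have h5 := sum_le_sum h4
    rw [sum_sub_distrib, ← mul_sum, ← h2 (B X), sum_const, card_range, nsmul_eq_mul] at h5
    have h6 : (q : ℝ) * (κ / q * X) = κ * X := by field_simp
    rw [h6] at h5
    have h7 : 1 / (k : ℝ) ^ 2 * (c₁ * X) ≤ 1 / (k : ℝ) ^ 2 * ((B X).card : ℝ) :=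
      mul_le_mul_of_nonneg_left h1 (by positivity)
    have h8 : 1 / (k : ℝ) ^ 2 * (c₁ * X) = 2 * (κ * X) := by rw [hκ]; field_simp
    linarith
  obtain ⟨T, hT1, hT2⟩ := hcnt X
  have h4 := hcore X ((le_max_right _ _).trans hX) S (fun p hp => hB X p (mem_filter.1 hp).1) h3 T (by
    intro m hm
    obtain ⟨p, hp, he⟩ := hm
    obtain ⟨hp1, hp2, hp3⟩ := mem_filter.1 hp
    refine hT2 m ⟨p, hp1, he, ?_⟩
    obtain ⟨a1, -, a3, -, -⟩ := hB X p hp1
    rw [← he, ArithmeticFunction.cardFactors_mul (by omega) (by omega)]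
    exact hp2.add hp3)
  have h5 : (T.card : ℝ) ≤ cnt X := by exact_mod_cast hT1
  linarith

end Pool.Agent.TH890.DV
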