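import Pool.Agent.TH890.DV.C1
import Pool.Agent.W251.EG.Out7

/-!
Distinct values (helper890), part 13: `W251.EG.pnG` and `W251.EG.outFC` with the exponent `log 2`.
-/

set_option autoImplicit false

namespace Pool.Agent.TH890.DV

open Finset Filter
open Pool.Agent.W78.GA (Qd nm nm_cast mul_star_self')
open Pool.Agent.W78.EG
open Pool.Agent.W251.EG
open Pool.Agent.W251.EX (Sqp tt sum_null)

open scoped Classical in
/-- from pairs to integers -/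
theorem pnL {t c : ℕ} {f : ℕ} {χ : DirichletCharacter ℂ f} (hF : Fd (t : ℤ) (c : ℤ) f χ)
    (κ ε : ℝ) (hκ : 0 < κ) (hε : 0 < ε) : ∃ N₀ : ℕ, ∀ N : ℕ, N₀ ≤ N → ∀ S : Finset (ℕ × ℕ),
    (∀ p ∈ S, p ∈ SP (t : ℤ) (c : ℤ) N ∧ Squarefree (p.1 * p.2)) → κ * N ≤ (S.card : ℝ) →
    (N : ℝ) / Real.log N ^ (Real.log 2 + ε) ≤
      ((S.image (fun p : ℕ × ℕ => Nat.sqrt (p.1 * p.2 - c))).card : ℝ) := by
  have ht := t_le hF
  have hc := c_pos hF
  have hns : ¬ IsSquare ((t : ℤ) ^ 2 - 4 * (c : ℤ)) := by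
    rintro ⟨x, hx⟩
    have h1 : (t : ℤ) ≤ 1 := by exact_mod_cast ht
    have h2 : (1 : ℤ) ≤ c := by exact_mod_cast hc
    have h3 : (0 : ℤ) ≤ t := Nat.cast_nonneg t
    nlinarith [mul_self_nonneg x]
  obtain ⟨N₀, h⟩ := cnt_core (t := (t : ℤ)) (c := (c : ℤ)) hns (F := fun m => m ^ 2 + t * m + c)
    (A := 1) (β := 0) le_rfl (Nat.cast_nonneg t) (fun m => by
      unfold Pool.Agent.W78.GT.Qp
      push_cast
      ring) κ ε hκ hε
  refine ⟨N₀, fun N hN S hS hκS => h N hN S (fun p hp => ?_) hκS _ ?_⟩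
  · have hp5 := (hS p hp).1
    unfold SP at hp5
    simp only [mem_filter, mem_product, mem_Icc] at hp5
    obtain ⟨⟨h6, h7⟩, m, h8, h9⟩ := hp5
    obtain ⟨_, h10⟩ := (fcond m p.1 p.2).1 ⟨h8, h9⟩
    exact ⟨h6.1, h6.2, h7.1, h7.2, m, h10⟩
  · rintro m ⟨p, hp, he⟩
    refine mem_image.2 ⟨p, hp, ?_⟩
    rw [he]
    exact fsqrt ht m

section

variable {t c : ℕ} {f : ℕ} {χ : DirichletCharacter ℂ f}

open scoped Classical in
/-- both signs in a residue class, at almost all scales -/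
theorem outFCL (hF : Fd (t : ℤ) (c : ℤ) f χ) (hS : S_SPSc (t : ℤ) (c : ℤ)) {F : ℕ → ℤ} (hSg : Sg F)
    (hap : Apd 2 (fun z : Qd (t : ℤ) (c : ℤ) => fz F (nm z))) (q a : ℕ) (hq : 1 ≤ q)
    (hqa : ∀ l : ℕ, l.Prime → l ^ 2 ∣ q → ¬ l ^ 2 ∣ a ^ 2 + t * a + c) (e : ℤ)
    (he : e = 1 ∨ e = -1) (ε : ℝ) (hε : 0 < ε) :
    Tendsto (fun Z : ℕ => (∑ X ∈ (Icc 1 Z).filter (fun X : ℕ =>
      (cf t c q a F e X : ℝ) < (X : ℝ) / Real.log X ^ (Real.log 2 + ε)), 1 / (X : ℝ)) /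
      Real.log Z) atTop (nhds 0) := by
  have ht := t_le hF
  have hc := c_pos hF
  obtain ⟨c₁, hc₁, X₀, hlow⟩ := hS q a hq
    (fun l hl hlq hd => hqa l hl hlq (by exact_mod_cast hd))
  obtain ⟨N₁, hpn⟩ := pnL hF (c₁ / 4) ε (by positivity) hε
  have hnull : Tendsto (fun Z : ℕ => (∑ X ∈ (Icc 1 Z).filter (fun X : ℕ => c₁ / 2 * X <
      ∑ r ∈ range q, ‖∑ p ∈ (SW (t : ℤ) (c : ℤ) q a r 0 1 0 1 X).filter
      (fun p => Squarefree (p.1 * p.2)), fz F p.1 * fz F p.2‖), 1 / (X : ℝ)) / Real.log Z)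
      atTop (nhds 0) :=
    sum_null hq (fun r _ ε' hε' => tt (fun X => ∑ p ∈ (SW (t : ℤ) (c : ℤ) q a r 0 1 0 1 X).filter
      (fun p => Squarefree (p.1 * p.2)), fz F p.1 * fz F p.2)
    (fun δ hδ => tsG hF 2 1 (fz F) (fz F) (hSg.fgc χ) (Or.inr hap) q a r hq 0 1 0 1 le_rfl
      one_pos le_rfl le_rfl one_pos le_rfl δ hδ) ε' hε') (c₁ / 2) (by positivity)
  refine null_of (max X₀ N₁) (fun X hX hlt => ?_) hnull
  by_contra hcon
  push Not at hcon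
  have h1 := hlow X ((le_max_left _ _).trans hX)
  obtain ⟨B, hB⟩ : ∃ B : Finset (ℕ × ℕ), B = (SP (t : ℤ) (c : ℤ) X).filter
    (fun p => Squarefree (p.1 * p.2) ∧ ∃ n : ℕ, 0 < 2 * (n : ℤ) + (t : ℤ) ∧
      (p.1 * p.2 : ℤ) = (n : ℤ) ^ 2 + (t : ℤ) * n + (c : ℤ) ∧ n ≡ a [MOD q]) := ⟨_, rfl⟩
  rw [← hB] at h1
  have hBm : ∀ p ∈ B, p ∈ SP (t : ℤ) (c : ℤ) X ∧ Squarefree (p.1 * p.2) ∧ 1 ≤ p.1 ∧ p.1 ≤ X ∧
      1 ≤ p.2 ∧ p.2 ≤ X ∧ ∃ n : ℕ, 1 ≤ n + t ∧ p.1 * p.2 = n ^ 2 + t * n + c ∧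
      n ≡ a [MOD q] := by
    intro p hp
    rw [hB] at hp
    obtain ⟨h2, h3, n, h4, h5, h6⟩ := mem_filter.1 hp
    obtain ⟨h7, h8⟩ := (fcond n p.1 p.2).1 ⟨h4, h5⟩
    have h9 := h2
    unfold SP at h9
    simp only [mem_filter, mem_product, mem_Icc] at h9
    exact ⟨h2, h3, h9.1.1.1, h9.1.1.2, h9.1.2.1, h9.1.2.2, n, h7, h8, h6⟩
  -- the sum over `B`
  have hsum : ‖∑ p ∈ B, fz F p.1 * fz F p.2‖ ≤ c₁ / 2 * X := by
    refine le_trans ?_ hcon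
    have h2 : ∑ p ∈ B, fz F p.1 * fz F p.2 = ∑ r ∈ range q,
        ∑ p ∈ (SW (t : ℤ) (c : ℤ) q a r 0 1 0 1 X).filter (fun p => Squarefree (p.1 * p.2)),
        fz F p.1 * fz F p.2 := by
      rw [← sum_fiberwise_of_maps_to (s := B) (t := range q) (g := fun p : ℕ × ℕ => p.1 % q)
        (fun p _ => mem_range.2 (Nat.mod_lt _ (by omega)))]
      refine sum_congr rfl fun r hr => ?_
      refine sum_congr ?_ fun _ _ => rfl
      have hr' : r % q = r := Nat.mod_eq_of_lt (mem_range.1 hr)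
      ext p
      rw [mem_filter, mem_filter, mem_SWn]
      constructor
      · rintro ⟨h3, h4⟩
        obtain ⟨h5, h6, h7, h8, h9, h10, n, h11, h12, h13⟩ := hBm p h3
        refine ⟨⟨⟨⟨h7, h8⟩, h9, h10⟩, ⟨n, h11, h12, h13, ?_⟩, ?_, ?_, ?_, ?_⟩, h6⟩
        · show p.1 % q = r % q
          rw [h4, hr']
        · rw [zero_mul]; exact_mod_cast h7
        · rw [one_mul]; exact_mod_cast h8
        · rw [zero_mul]; exact_mod_cast h9
        · rw [one_mul]; exact_mod_cast h10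
      · rintro ⟨⟨⟨h3, h4⟩, ⟨n, h5, h6, h7, h8⟩, _⟩, h9⟩
        have h10 := (fcond n p.1 p.2).2 ⟨h5, h6⟩
        refine ⟨?_, ?_⟩
        · rw [hB]
          refine mem_filter.2 ⟨?_, h9, n, h10.1, h10.2, h7⟩
          unfold SP
          rw [mem_filter, mem_product, mem_Icc, mem_Icc]
          exact ⟨⟨h3, h4⟩, n, h10.1, h10.2⟩
        · have h11 : p.1 % q = r % q := h8
          rw [h11, hr']
    rw [h2]
    exact norm_sum_le _ _
  -- the pairs with the sign `e`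
  obtain ⟨S, hSd⟩ : ∃ S : Finset (ℕ × ℕ), S = B.filter
    (fun p => F (p.1 * p.2) = e) := ⟨_, rfl⟩
  have hval : ∀ p ∈ B, F (p.1 * p.2) = 1 ∨ F (p.1 * p.2) = -1 := by
    intro p hp
    obtain ⟨_, _, h3, _, h4, _, _⟩ := hBm p hp
    exact hSg.pm _ (Nat.mul_ne_zero (by omega) (by omega))
  have hlm : ∀ p ∈ B, fz F p.1 * fz F p.2 = ((F (p.1 * p.2) : ℤ) : ℂ) := by
    intro p hp
    obtain ⟨_, h2, h3, _, h4, _, _⟩ := hBm p hp
    rw [← hSg.fmul _ _ (by omega) (by omega), fz_ne (Nat.mul_ne_zero (by omega) (by omega))]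
  have hS1 : c₁ / 4 * X ≤ (S.card : ℝ) := by
    have h2 : ∑ p ∈ B, fz F p.1 * fz F p.2 = ((∑ p ∈ B, (F (p.1 * p.2) : ℝ) : ℝ) : ℂ) := by
      rw [Complex.ofReal_sum]
      refine sum_congr rfl fun p hp => ?_
      rw [hlm p hp]
      push_cast
      rfl
    rw [h2, Complex.norm_real, Real.norm_eq_abs] at hsum
    have h3 : (e : ℝ) * ∑ p ∈ B, (F (p.1 * p.2) : ℝ) = 2 * (S.card : ℝ) - B.card := by
      have h4 : ∀ p ∈ B, (e : ℝ) * (F (p.1 * p.2) : ℝ) =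
          2 * (if F (p.1 * p.2) = e then 1 else 0) - 1 := by
        intro p hp
        rcases he with rfl | rfl
        · rcases hval p hp with h5 | h5 <;> rw [h5] <;> norm_num
        · rcases hval p hp with h5 | h5 <;> rw [h5] <;> norm_num
      rw [mul_sum, sum_congr rfl h4, sum_sub_distrib, ← mul_sum, sum_boole, hSd, sum_const,
        nsmul_eq_mul, mul_one]
    have h4 : |(e : ℝ) * ∑ p ∈ B, (F (p.1 * p.2) : ℝ)| ≤ c₁ / 2 * X := by
      rw [abs_mul]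
      have : |(e : ℝ)| = 1 := by rcases he with rfl | rfl <;> norm_num
      rw [this, one_mul]
      exact hsum
    have h5 := (abs_le.1 h4).1
    linarith
  have hSm : ∀ p ∈ S, p ∈ B ∧ F (p.1 * p.2) = e := by
    intro p hp
    rw [hSd] at hp
    exact mem_filter.1 hp
  have h3 := hpn X ((le_max_right _ _).trans hX) S
    (fun p hp => ⟨(hBm p (hSm p hp).1).1, (hBm p (hSm p hp).1).2.1⟩) hS1
  have h4 : (S.image (fun p : ℕ × ℕ => Nat.sqrt (p.1 * p.2 - c))).card ≤ cf t c q a F e X := by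
    unfold cf
    refine card_le_card fun n hn => ?_
    obtain ⟨p, hp, rfl⟩ := mem_image.1 hn
    obtain ⟨hpB, hpe⟩ := hSm p hp
    obtain ⟨_, hsf, _, h8, _, h10, n, h11, h12, h13⟩ := hBm p hpB
    have h14 : Nat.sqrt (p.1 * p.2 - c) = n := by
      rw [h12]
      exact fsqrt ht n
    rw [h14, mem_filter, mem_range, ← h12]
    refine ⟨?_, h11, h13, hsf, hpe⟩
    by_contra hcon2
    push Not at hcon2
    have h15 : p.1 * p.2 ≤ X * X := Nat.mul_le_mul h8 h10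
    nlinarith [Nat.zero_le (t * n)]
  have h5 : ((S.image (fun p : ℕ × ℕ => Nat.sqrt (p.1 * p.2 - c))).card : ℝ) ≤
      cf t c q a F e X := by
    exact_mod_cast h4
  linarith

end

end Pool.Agent.TH890.DV
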